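import Pool.Agent.Lib_helper7.R8d.XzD
import Pool.Agent.Lib_helper60.EXC.L8d

/-!
# Points of order eight, `d = 3/4`: the clause `Line`
-/

set_option autoImplicit false
set_option linter.unusedSectionVars false
set_option linter.unusedVariables false
set_option maxRecDepth 100000

open scoped TensorProduct WithZero

namespace Pool.Agent.FK4

open Pool.Agent.MK4 WeierstrassCurve.Affine Pool.Agent.KC72 Pool.Agent.MC

section

variable {k : Type*} [Field k] [DecidableEq k] {W W' : WeierstrassCurve.Affine k} {F : Type*}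
  [Field F] [Algebra k F] {X Y x y : F} {H : AddSubgroup W.Point} {H' : AddSubgroup W'.Point}
  [CharZero k]

/-- the clause `Line` from a modular certificate: one explicit class, and classes which are
known to be multiples of it up to the constants; the regulator is known for the element `L₂`,
written over another table of solutions -/
theorem line_rcertX3 (hg : Generic W X Y) {P : W.Point}
    (hS : Same (AddSubgroup.zmultiples P) X Y H' x y)
    {R : RCert} {LL : List (List Tm)} (hR : ROkX R LL) {n r : ℕ} (hn : R.n = n) (hr : R.r = r)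
    {cls : List (Mo × Mo)} (hcl : sameC R.cls cls = true) {G : Fin n → F} (hrn : r ≤ n)
    (hsupp : ∀ i, Supp H' x y (G i))
    (hk : ∀ i : Fin n, r ≤ i.val → ∃ c : k, G i = algebraMap k F c)
    (hM : ∀ (e : Fin r → ℤ) (c : k), c ≠ 0 →
      ∏ i, G (Fin.castLE hrn i) ^ e i = algebraMap k F c → e = 0)
    (hc : ∀ e : Fin n → ℤ, (∀ i : Fin n, i.val < r → e i = 0) → ∏ i, G i ^ e i = 1 → e = 0)
    (hs : Sols (List.ofFn G) cls)
    (hU : ∀ f, Supp H' x y f → Supp H' x y (1 - f) → sy f ∈ SC k F ⊔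
      Submodule.span ℚ {a : B2 F | ∃ p ∈ cls, a = sy (ev (List.ofFn G) p.1)})
    {L : List Tm} (hL : okT n cls L = true) (hD : chkD n cls L = true)
    {ξ : HK F} (hξ : ξ = KC72.zt (List.ofFn G) cls L)
    (hmul : ∀ L' ∈ LL, ∃ β : ℚ, KC72.zt (List.ofFn G) R.cls L' - β • ξ ∈ Cst k F)
    (hun : Unram k ξ) {cls2 : List (Mo × Mo)} (hs2 : Sols (List.ofFn G) cls2)
    {L2 : List Tm} (hL2 : okT n cls2 L2 = true) (hD2 : chkD n cls2 L2 = true)
    (hnz : ∀ β : ℚ, KC72.zt (List.ofFn G) cls2 L2 - β • ξ ∈ Cst k F → RegNonZero k X Y ξ) :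
    Line P X Y := by
  have : CharZero F := charZero_of_injective_algebraMap (algebraMap k F).injective
  have hG : ∀ i, G i ≠ 0 := fun i => (hsupp i).1
  have hgl : ∀ z ∈ List.ofFn G, Supp H' x y z := by
    intro z hz
    rw [List.mem_ofFn] at hz
    obtain ⟨i, rfl⟩ := hz
    exact hsupp i
  obtain ⟨β, hβ⟩ := mul_rcertX hR hn hr hcl hrn hsupp hk hM hc hs hU hmul (zt_mem' hgl hs2 hL2)
    (zt_closed hG hs2 hL2 hD2)
  exact line_rcertX hg hS hR hn hr hcl hrn hsupp hk hM hc hs hU hL hD hξ hmul hun (hnz β hβ)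

end

variable {k : Type*} [Field k] [DecidableEq k] [CharZero k] {W : WeierstrassCurve.Affine k}
  {F : Type*} [Field F] [Algebra k F] {X Y : F}

/-- **The regulator is not zero** for the elements of which the class is a multiple. -/
theorem rn8d_of {x y : F} (φ : k →+* ℝ) (h : TN.Gen (-1/8 : k) (-1/6) x y)
    (htop : IntermediateField.adjoin k {x, y} = ⊤) (β : ℚ) (ξ : MK4.HK F)
    (hβ : KC72.zt (List.ofFn (K8d.G8 x y)) K8d.cls R8d.L8x - β • ξ ∈ Cst k F) :
    RegNe φ ξ := by
  have : CharZero F := charZero_of_injective_algebraMap (algebraMap k F).injective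
  have h' : TN.Gen ((-1 / 8 : ℚ) : k) ((-1 / 6 : ℚ) : k) x y := by
    push_cast
    exact h
  have e : (KC72.zt (List.ofFn (K8d.G8 x y)) K8d.cls R8d.L8x : HK F) = R8d.xi8d x y :=
    (R8d.xi8d_eq h').symm
  rw [e, ← TN.KC_eq] at hβ
  exact ((R8d.rz8d φ h' htop).of_smul β (K4N.mem_span_of_KC hβ)).regNe (K4N.Xp_tendsto _) h' htop

/-- **points of order eight, `d = 3/4`** -/
theorem line8d (hg : Generic W X Y) {P : W.Point} (h8 : To8t (3 / 4 : k) P X Y) :
    Line P X Y := by
  obtain ⟨hb, x, y, hG, hO, hS, htop⟩ := h8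
  have : CharZero F := charZero_of_injective_algebraMap (algebraMap k F).injective
  have hgen := K8d.gen hG
  refine line_rcertX3 (k := k) hg hS.toSame MCX8d.x8d_ok (n := 9) (r := 7) MCX8d.n_eq
    MCX8d.r_eq (cls := MCX8d.kept) MCX8d.same
    (G := K8d.G8 x y) (by norm_num) (K8d.G8_supp hb hO hG) (fun i hi => K8d.G8_const i hi)
    (fun e c hc he => K8d.G8_hM hgen e c hc he) (fun e he hp => K8d.G8_hc hgen e he hp)
    (fun p hp => K8d.solsA hgen p (sub8d p hp)) ?_ AXH.okT8d AXH.chkD8d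
    (ξ := KC72.zt (List.ofFn (K8d.G8 x y)) MCX8d.kept AXH.xi8d) rfl (AXH.hmul8d hgen)
    (unram8dx hgen res8d) (K8d.sols8 hgen) R8d.L8x_ok R8d.L8x_D ?_
  · intro f h1 h2
    exact span_red (fun p hp => AXH.hred8d hgen p hp) (K8d.hUS hb hO hG f h1 h2)
  · intro β hβ φ ht
    exact rn8d_of φ hgen (htop ht) β _ hβ

end Pool.Agent.FK4
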