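import Pool.Agent.Lib_helper7.R8d.Cl

set_option autoImplicit false
set_option linter.unusedVariables false

/-!
The classes on the arc: the identities `f + (1 - f) = 1` and the signs of the derivatives.
-/

namespace Pool.Agent.R8d

open Pool.Agent.K4N.LA

/-- the units -/
def Bs {K : Type*} [Field K] (X Y : K) : List K :=
  [X, X + 18, X + 24, X + 27, Y, Y + 2 * X, Y + 3 * X, 2, 3]

/-- a point of the arc -/
structure Arc (X Y : ℝ) : Prop where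
  eq : Y ^ 2 + 14 * X * Y + 216 * Y = X ^ 3 + 18 * X ^ 2
  hX : 0 < X
  hY : 0 < Y

/-- the logarithmic derivatives of the units -/
structure Dv (X Y d0 d1 d2 d3 d4 d5 d6 : ℝ) : Prop where
  e0 : d0 * X = 2 * Y + 14 * X + 216
  e1 : d1 * (X + 18) = 2 * Y + 14 * X + 216
  e2 : d2 * (X + 24) = 2 * Y + 14 * X + 216
  e3 : d3 * (X + 27) = 2 * Y + 14 * X + 216
  e4 : d4 * Y = 3 * X ^ 2 + 36 * X - 14 * Y
  e5 : d5 * (Y + 2 * X) = 3 * X ^ 2 + 36 * X - 14 * Y + 2 * (2 * Y + 14 * X + 216)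
  e6 : d6 * (Y + 3 * X) = 3 * X ^ 2 + 36 * X - 14 * Y + 3 * (2 * Y + 14 * X + 216)

lemma ngl {S P Z : ℝ} (hP : 0 < P) (h : S * P = -Z) (hZ : 0 < Z) : S < 0 := by
  by_contra hh
  push Not at hh
  have := mul_nonneg hh hP.le
  linarith

lemma pos_nt {R R' : ℝ} (h1 : 0 < R * R') (h2 : 0 < R + R') : 0 < R := by
  by_contra hh
  push Not at hh
  have : 0 < R' := by linarith
  have := mul_nonpos_of_nonpos_of_nonneg hh this.le
  linarith

lemma pos_nb {R R' : ℝ} (h1 : R * R' < 0) (h2 : 0 < R - R') : 0 < R := by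
  by_contra hh
  push Not at hh
  have : R' ≤ 0 := by linarith
  have := mul_nonneg_of_nonpos_of_nonpos hh this
  linarith

/-- `f` decreases, or `1 - f` increases, or `f / (1 - f)` decreases -/
def Cl.Dec (w : Cl) (ds : List ℝ) : Prop :=
  lin (sub w.al w.c) ds < 0 ∨ lin (sub w.c w.be) ds < 0 ∨ lin (sub w.al w.be) ds < 0

/-- the identity `f + (1 - f) = 1` -/
def Cl.Sum (w : Cl) (X Y : ℝ) : Prop :=
  monN w.al (Bs X Y) + monN w.be (Bs X Y) = monN w.c (Bs X Y)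

section

variable {X Y : ℝ}

theorem id10 (he : Y ^ 2 + 14 * X * Y + 216 * Y = X ^ 3 + 18 * X ^ 2) : w10.Sum X Y := by
  simp only [Cl.Sum, w10, Bs, monN_cons, monN_nil']
  linear_combination ((-216) + (1) * Y + (-6) * X) * he

theorem id11 (he : Y ^ 2 + 14 * X * Y + 216 * Y = X ^ 3 + 18 * X ^ 2) : w11.Sum X Y := by
  simp only [Cl.Sum, w11, Bs, monN_cons, monN_nil']
  linear_combination ((2)) * he

theorem id22 (he : Y ^ 2 + 14 * X * Y + 216 * Y = X ^ 3 + 18 * X ^ 2) : w22.Sum X Y := by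
  simp only [Cl.Sum, w22, Bs, monN_cons, monN_nil']
  linear_combination ((-216) + (1) * Y + (-6) * X) * he

theorem id23 (he : Y ^ 2 + 14 * X * Y + 216 * Y = X ^ 3 + 18 * X ^ 2) : w23.Sum X Y := by
  simp only [Cl.Sum, w23, Bs, monN_cons, monN_nil']
  linear_combination ((18) * Y + (-18) * X + (1) * X * Y) * he

theorem id28 (he : Y ^ 2 + 14 * X * Y + 216 * Y = X ^ 3 + 18 * X ^ 2) : w28.Sum X Y := by
  simp only [Cl.Sum, w28, Bs, monN_cons, monN_nil']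
  linear_combination ((-216) + (1) * Y + (-9) * X) * he

theorem id29 (he : Y ^ 2 + 14 * X * Y + 216 * Y = X ^ 3 + 18 * X ^ 2) : w29.Sum X Y := by
  simp only [Cl.Sum, w29, Bs, monN_cons, monN_nil']
  linear_combination ((3)) * he

theorem id32 (he : Y ^ 2 + 14 * X * Y + 216 * Y = X ^ 3 + 18 * X ^ 2) : w32.Sum X Y := by
  simp only [Cl.Sum, w32, Bs, monN_cons, monN_nil']
  linear_combination ((1)) * he

theorem id35 (he : Y ^ 2 + 14 * X * Y + 216 * Y = X ^ 3 + 18 * X ^ 2) : w35.Sum X Y := by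
  simp only [Cl.Sum, w35, Bs, monN_cons, monN_nil']
  linear_combination (0) * he

theorem id36 (he : Y ^ 2 + 14 * X * Y + 216 * Y = X ^ 3 + 18 * X ^ 2) : w36.Sum X Y := by
  simp only [Cl.Sum, w36, Bs, monN_cons, monN_nil']
  linear_combination (0) * he

theorem id41 (he : Y ^ 2 + 14 * X * Y + 216 * Y = X ^ 3 + 18 * X ^ 2) : w41.Sum X Y := by
  simp only [Cl.Sum, w41, Bs, monN_cons, monN_nil']
  linear_combination ((2)) * he

theorem id42 (he : Y ^ 2 + 14 * X * Y + 216 * Y = X ^ 3 + 18 * X ^ 2) : w42.Sum X Y := by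
  simp only [Cl.Sum, w42, Bs, monN_cons, monN_nil']
  linear_combination (0) * he

theorem id43 (he : Y ^ 2 + 14 * X * Y + 216 * Y = X ^ 3 + 18 * X ^ 2) : w43.Sum X Y := by
  simp only [Cl.Sum, w43, Bs, monN_cons, monN_nil']
  linear_combination (0) * he

theorem id49 (he : Y ^ 2 + 14 * X * Y + 216 * Y = X ^ 3 + 18 * X ^ 2) : w49.Sum X Y := by
  simp only [Cl.Sum, w49, Bs, monN_cons, monN_nil']
  linear_combination ((3)) * he

theorem id57 (he : Y ^ 2 + 14 * X * Y + 216 * Y = X ^ 3 + 18 * X ^ 2) : w57.Sum X Y := by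
  simp only [Cl.Sum, w57, Bs, monN_cons, monN_nil']
  linear_combination ((46656) * Y ^ 2 + (233280) * X * Y + (279936) * X ^ 2 + (-216) * Y ^ 3 +
    (3888) * X * Y ^ 2 + (27432) * X ^ 2 * Y + (49248) * X ^ 3 + (1) * Y ^ 4 + (-4) * X * Y ^ 3
    + (111) * X ^ 2 * Y ^ 2 + (1074) * X ^ 3 * Y + (3222) * X ^ 4 + (1) * X ^ 3 * Y ^ 2 + (14) *
    X ^ 4 * Y + (93) * X ^ 5 + (1) * X ^ 6) * he

theorem id58 (he : Y ^ 2 + 14 * X * Y + 216 * Y = X ^ 3 + 18 * X ^ 2) : w58.Sum X Y := by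
  simp only [Cl.Sum, w58, Bs, monN_cons, monN_nil']
  linear_combination ((1259712) * Y + (-5832) * Y ^ 2 + (279936) * X * Y + (104976) * X ^ 2 +
    (-216) * Y ^ 3 + (-3348) * X * Y ^ 2 + (14904) * X ^ 2 * Y + (7776) * X ^ 3 + (1) * Y ^ 4 +
    (-2) * X * Y ^ 3 + (-185) * X ^ 2 * Y ^ 2 + (240) * X ^ 3 * Y + (144) * X ^ 4 + (-3) * X ^ 3
    * Y ^ 2) * he

theorem id59 (he : Y ^ 2 + 14 * X * Y + 216 * Y = X ^ 3 + 18 * X ^ 2) : w59.Sum X Y := by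
  simp only [Cl.Sum, w59, Bs, monN_cons, monN_nil']
  linear_combination ((-629856) * Y ^ 2 + (2916) * Y ^ 3 + (-128304) * X * Y ^ 2 + (-52488) * X
    ^ 2 * Y + (540) * X * Y ^ 3 + (-9504) * X ^ 2 * Y ^ 2 + (-9396) * X ^ 3 * Y + (-3888) * X ^
    4 + (42) * X ^ 2 * Y ^ 3 + (-216) * X ^ 3 * Y ^ 2 + (-297) * X ^ 4 * Y + (-162) * X ^ 5 +
    (1) * X ^ 3 * Y ^ 3) * he

theorem id60 (he : Y ^ 2 + 14 * X * Y + 216 * Y = X ^ 3 + 18 * X ^ 2) : w60.Sum X Y := by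
  simp only [Cl.Sum, w60, Bs, monN_cons, monN_nil']
  linear_combination ((-1259712) * Y ^ 3 + (-5038848) * X * Y ^ 2 + (-5038848) * X ^ 2 * Y +
    (7776) * Y ^ 4 + (-171072) * X * Y ^ 3 + (-857304) * X ^ 2 * Y ^ 2 + (-1125576) * X ^ 3 * Y
    + (-314928) * X ^ 4 + (1188) * X * Y ^ 4 + (-5904) * X ^ 2 * Y ^ 3 + (-45495) * X ^ 3 * Y ^
    2 + (-73170) * X ^ 4 * Y + (-30618) * X ^ 5 + (60) * X ^ 2 * Y ^ 4 + (56) * X ^ 3 * Y ^ 3 +
    (-675) * X ^ 4 * Y ^ 2 + (-1458) * X ^ 5 * Y + (-729) * X ^ 6 + (1) * X ^ 3 * Y ^ 4 + (4) *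
    X ^ 4 * Y ^ 3 + (4) * X ^ 5 * Y ^ 2) * he

theorem id62 (he : Y ^ 2 + 14 * X * Y + 216 * Y = X ^ 3 + 18 * X ^ 2) : w62.Sum X Y := by
  simp only [Cl.Sum, w62, Bs, monN_cons, monN_nil']
  linear_combination ((648) * Y ^ 2 + (3240) * X * Y + (3888) * X ^ 2 + (51) * X * Y ^ 2 + (282)
    * X ^ 2 * Y + (378) * X ^ 3 + (1) * X ^ 2 * Y ^ 2 + (6) * X ^ 3 * Y + (9) * X ^ 4) * he

theorem id63 (he : Y ^ 2 + 14 * X * Y + 216 * Y = X ^ 3 + 18 * X ^ 2) : w63.Sum X Y := by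
  simp only [Cl.Sum, w63, Bs, monN_cons, monN_nil']
  linear_combination ((90699264) * Y + (-419904) * Y ^ 2 + (23514624) * X * Y + (7558272) * X ^
    2 + (-5832) * Y ^ 3 + (-174960) * X * Y ^ 2 + (2047032) * X ^ 2 * Y + (1049760) * X ^ 3 +
    (27) * Y ^ 4 + (-324) * X * Y ^ 3 + (-16767) * X ^ 2 * Y ^ 2 + (74358) * X ^ 3 * Y + (48114)
    * X ^ 4 + (1) * X * Y ^ 4 + (-4) * X ^ 2 * Y ^ 3 + (-618) * X ^ 3 * Y ^ 2 + (972) * X ^ 4 *
    Y + (729) * X ^ 5 + (-8) * X ^ 4 * Y ^ 2) * he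

theorem id65 (he : Y ^ 2 + 14 * X * Y + 216 * Y = X ^ 3 + 18 * X ^ 2) : w65.Sum X Y := by
  simp only [Cl.Sum, w65, Bs, monN_cons, monN_nil']
  linear_combination ((1259712) * Y ^ 3 + (3079296) * X * Y ^ 2 + (1259712) * X ^ 2 * Y +
    (-5832) * Y ^ 4 + (198288) * X * Y ^ 3 + (586440) * X ^ 2 * Y ^ 2 + (396576) * X ^ 3 * Y +
    (104976) * X ^ 4 + (-972) * X * Y ^ 4 + (9720) * X ^ 2 * Y ^ 3 + (36180) * X ^ 3 * Y ^ 2 +
    (31752) * X ^ 4 * Y + (11664) * X ^ 5 + (-54) * X ^ 2 * Y ^ 4 + (108) * X ^ 3 * Y ^ 3 +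
    (729) * X ^ 4 * Y ^ 2 + (756) * X ^ 5 * Y + (324) * X ^ 6 + (-1) * X ^ 3 * Y ^ 4 + (-2) * X
    ^ 4 * Y ^ 3) * he

theorem id66 (he : Y ^ 2 + 14 * X * Y + 216 * Y = X ^ 3 + 18 * X ^ 2) : w66.Sum X Y := by
  simp only [Cl.Sum, w66, Bs, monN_cons, monN_nil']
  linear_combination ((1259712) * Y ^ 4 + (7558272) * X * Y ^ 3 + (15116544) * X ^ 2 * Y ^ 2 +
    (10077696) * X ^ 3 * Y + (-5832) * Y ^ 5 + (134136) * X * Y ^ 4 + (1049760) * X ^ 2 * Y ^ 3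
    + (2612736) * X ^ 3 * Y ^ 2 + (2612736) * X ^ 4 * Y + (839808) * X ^ 5 + (27) * Y ^ 6 +
    (-243) * X * Y ^ 5 + (5913) * X ^ 2 * Y ^ 4 + (55728) * X ^ 3 * Y ^ 3 + (170100) * X ^ 4 * Y
    ^ 2 + (227448) * X ^ 5 * Y + (116640) * X ^ 6 + (1) * X * Y ^ 6 + (-1) * X ^ 2 * Y ^ 5 +
    (126) * X ^ 3 * Y ^ 4 + (1332) * X ^ 4 * Y ^ 3 + (4941) * X ^ 5 * Y ^ 2 + (8262) * X ^ 6 * Y
    + (5346) * X ^ 7 + (1) * X ^ 4 * Y ^ 4 + (12) * X ^ 5 * Y ^ 3 + (54) * X ^ 6 * Y ^ 2 + (108)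
    * X ^ 7 * Y + (81) * X ^ 8) * he

theorem id67 (he : Y ^ 2 + 14 * X * Y + 216 * Y = X ^ 3 + 18 * X ^ 2) : w67.Sum X Y := by
  simp only [Cl.Sum, w67, Bs, monN_cons, monN_nil']
  linear_combination ((17496) * Y ^ 4 + (209952) * X * Y ^ 3 + (944784) * X ^ 2 * Y ^ 2 +
    (1889568) * X ^ 3 * Y + (1417176) * X ^ 4 + (2025) * X * Y ^ 4 + (28188) * X ^ 2 * Y ^ 3 +
    (144990) * X ^ 3 * Y ^ 2 + (323676) * X ^ 4 * Y + (262440) * X ^ 5 + (78) * X ^ 2 * Y ^ 4 +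
    (1266) * X ^ 3 * Y ^ 3 + (7809) * X ^ 4 * Y ^ 2 + (20142) * X ^ 5 * Y + (17982) * X ^ 6 +
    (1) * X ^ 3 * Y ^ 4 + (19) * X ^ 4 * Y ^ 3 + (166) * X ^ 5 * Y ^ 2 + (534) * X ^ 6 * Y +
    (540) * X ^ 7 + (1) * X ^ 6 * Y ^ 2 + (5) * X ^ 7 * Y + (6) * X ^ 8) * he

theorem id68 (he : Y ^ 2 + 14 * X * Y + 216 * Y = X ^ 3 + 18 * X ^ 2) : w68.Sum X Y := by
  simp only [Cl.Sum, w68, Bs, monN_cons, monN_nil']
  linear_combination (0) * he

theorem der10 {d0 d1 d2 d3 d4 d5 d6 : ℝ} (h : Arc X Y)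
    (k : Dv X Y d0 d1 d2 d3 d4 d5 d6) : w10.Dec [d0, d1, d2, d3, d4, d5, d6] := by
  obtain ⟨he, hX, hY⟩ := h
  have hR : (0 : ℝ) < (288) + (8) * X := by
    have e : (288) + (8) * X = 288 + 8 * X := by ring
    rw [e]
    positivity
  have e : sub w10.al w10.be = [1, 0, 1, 1, 0, 0, -2, 0, 1] := rfl
  refine (fun h => Or.inr (Or.inr h)) ?_
  rw [e]
  simp only [lin_cons, lin_nil']
  push_cast
  refine ngl (P := X * (X + 24) * (X + 27) * (Y + 3 * X)) (Z := ((288) + (8) * X) * ((X + 18) *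
    (X + 27) * (Y + 3 * X))) (by positivity) ?_ (mul_pos hR (by positivity))
  linear_combination (1) * ((X + 24) * (X + 27) * (Y + 3 * X)) * k.e0 + (1) * (X * (X + 27) * (Y
    + 3 * X)) * k.e2 + (1) * (X * (X + 24) * (Y + 3 * X)) * k.e3 + (-2) * (X * (X + 24) * (X +
    27)) * k.e6 + ((1296) + (204) * X + (6) * X ^ 2) * he

theorem der11 {d0 d1 d2 d3 d4 d5 d6 : ℝ} (h : Arc X Y)
    (k : Dv X Y d0 d1 d2 d3 d4 d5 d6) : w11.Dec [d0, d1, d2, d3, d4, d5, d6] := by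
  obtain ⟨he, hX, hY⟩ := h
  have hR : (0 : ℝ) < (-288) * Y + (-8) * X * Y + (36) * X ^ 2 + (1) * X ^ 3 := by
    refine pos_nt (R' := (36 * X ^ 2 + 1 * X ^ 3) + ((-288) + (-8) * X) * (-14 * X - 216 - Y))
      ?_ ?_
    · have e : ((-288) * Y + (-8) * X * Y + (36) * X ^ 2 + (1) * X ^ 3) * ((36 * X ^ 2 + 1 * X ^
        3) + ((-288) + (-8) * X) * (-14 * X - 216 - Y)) = 746496 * X ^ 2 + 103680 * X ^ 3 + 5328
        * X ^ 4 + 120 * X ^ 5 + 1 * X ^ 6 := by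
        linear_combination ((-82944) + (-4608) * X + (-64) * X ^ 2) * he
      rw [e]
      positivity
    · have e : ((-288) * Y + (-8) * X * Y + (36) * X ^ 2 + (1) * X ^ 3) + ((36 * X ^ 2 + 1 * X ^
        3) + ((-288) + (-8) * X) * (-14 * X - 216 - Y)) = 62208 + 5760 * X + 184 * X ^ 2 + 2 * X
        ^ 3 := by ring
      rw [e]
      positivity
  have e : sub w11.al w11.c = [-1, 0, -1, 0, 0, 0, 1, 1, 0] := rfl
  refine (Or.inl) ?_
  rw [e]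
  simp only [lin_cons, lin_nil']
  push_cast
  refine ngl (P := X * (X + 24) * (Y + 3 * X)) (Z := ((-288) * Y + (-8) * X * Y + (36) * X ^ 2 +
    (1) * X ^ 3) * ((X + 18))) (by positivity) ?_ (mul_pos hR (by positivity))
  linear_combination (-1) * ((X + 24) * (Y + 3 * X)) * k.e0 + (-1) * (X * (Y + 3 * X)) * k.e2 +
    (1) * (X * (X + 24)) * k.e6 + ((-48) + (-4) * X) * he

theorem der22 {d0 d1 d2 d3 d4 d5 d6 : ℝ} (h : Arc X Y)
    (k : Dv X Y d0 d1 d2 d3 d4 d5 d6) : w22.Dec [d0, d1, d2, d3, d4, d5, d6] := by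
  obtain ⟨he, hX, hY⟩ := h
  have hR : (0 : ℝ) < (31104) + (240) * Y + (3168) * X + (8) * X * Y + (72) * X ^ 2 := by
    have e : (31104) + (240) * Y + (3168) * X + (8) * X * Y + (72) * X ^ 2 = 31104 + 3168 * X +
      72 * X ^ 2 + 240 * Y + 8 * X * Y := by ring
    rw [e]
    positivity
  have e : sub w22.c w22.be = [0, 0, 2, 1, 0, 0, -2, 0, 2] := rfl
  refine (fun h => Or.inr (Or.inl h)) ?_
  rw [e]
  simp only [lin_cons, lin_nil']
  push_cast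
  refine ngl (P := (X + 24) * (X + 27) * (Y + 3 * X)) (Z := ((31104) + (240) * Y + (3168) * X +
    (8) * X * Y + (72) * X ^ 2) * ((X + 27))) (by positivity) ?_ (mul_pos hR (by positivity))
  linear_combination (2) * ((X + 27) * (Y + 3 * X)) * k.e2 + (1) * ((X + 24) * (Y + 3 * X)) *
    k.e3 + (-2) * ((X + 24) * (X + 27)) * k.e6 + ((156) + (6) * X) * he

theorem der23 {d0 d1 d2 d3 d4 d5 d6 : ℝ} (h : Arc X Y)
    (k : Dv X Y d0 d1 d2 d3 d4 d5 d6) : w23.Dec [d0, d1, d2, d3, d4, d5, d6] := by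
  obtain ⟨he, hX, hY⟩ := h
  have hR : (0 : ℝ) < (12) * Y + (108) * X + (1) * X * Y + (6) * X ^ 2 := by
    have e : (12) * Y + (108) * X + (1) * X * Y + (6) * X ^ 2 = 108 * X + 6 * X ^ 2 + 12 * Y + 1
      * X * Y := by ring
    rw [e]
    positivity
  have e : sub w23.al w23.be = [0, 1, -2, -1, -1, 0, 2, 0, 0] := rfl
  refine (fun h => Or.inr (Or.inr h)) ?_
  rw [e]
  simp only [lin_cons, lin_nil']
  push_cast
  refine ngl (P := (X + 18) * (X + 24) * (X + 27) * Y * (Y + 3 * X)) (Z := ((12) * Y + (108) * X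
    + (1) * X * Y + (6) * X ^ 2) * ((X + 27) * Y * (Y + 3 * X))) (by positivity) ?_ (mul_pos hR
    (by positivity))
  linear_combination (1) * ((X + 24) * (X + 27) * Y * (Y + 3 * X)) * k.e1 + (-2) * ((X + 18) *
    (X + 27) * Y * (Y + 3 * X)) * k.e2 + (-1) * ((X + 18) * (X + 24) * Y * (Y + 3 * X)) * k.e3 +
    (-1) * ((X + 18) * (X + 24) * (X + 27) * (Y + 3 * X)) * k.e4 + (2) * ((X + 18) * (X + 24) *
    (X + 27) * Y) * k.e6 + ((69984) + (-1188) * Y + (11340) * X + (-123) * X * Y + (567) * X ^ 2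
    + (-3) * X ^ 2 * Y + (9) * X ^ 3) * he

theorem der28 {d0 d1 d2 d3 d4 d5 d6 : ℝ} (h : Arc X Y)
    (k : Dv X Y d0 d1 d2 d3 d4 d5 d6) : w28.Dec [d0, d1, d2, d3, d4, d5, d6] := by
  obtain ⟨he, hX, hY⟩ := h
  have hR : (0 : ℝ) < (10368) + (24) * Y + (768) * X + (12) * X ^ 2 := by
    have e : (10368) + (24) * Y + (768) * X + (12) * X ^ 2 = 10368 + 768 * X + 12 * X ^ 2 + 24 *
      Y := by ring
    rw [e]
    positivity
  have e : sub w28.al w28.be = [1, 1, 1, 0, -1, -1, 0, 0, 1] := rfl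
  refine (fun h => Or.inr (Or.inr h)) ?_
  rw [e]
  simp only [lin_cons, lin_nil']
  push_cast
  refine ngl (P := X * (X + 18) * (X + 24) * Y * (Y + 2 * X)) (Z := ((10368) + (24) * Y + (768)
    * X + (12) * X ^ 2) * ((X + 18) * Y * (Y + 2 * X))) (by positivity) ?_ (mul_pos hR (by
    positivity))
  linear_combination (1) * ((X + 18) * (X + 24) * Y * (Y + 2 * X)) * k.e0 + (1) * (X * (X + 24)
    * Y * (Y + 2 * X)) * k.e1 + (1) * (X * (X + 18) * Y * (Y + 2 * X)) * k.e2 + (-1) * (X * (X +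
    18) * (X + 24) * (Y + 2 * X)) * k.e4 + (-1) * (X * (X + 18) * (X + 24) * Y) * k.e5 + ((1296)
    * Y + (1728) * X + (192) * X * Y + (216) * X ^ 2 + (6) * X ^ 2 * Y + (6) * X ^ 3) * he

theorem der29 {d0 d1 d2 d3 d4 d5 d6 : ℝ} (h : Arc X Y)
    (k : Dv X Y d0 d1 d2 d3 d4 d5 d6) : w29.Dec [d0, d1, d2, d3, d4, d5, d6] := by
  obtain ⟨he, hX, hY⟩ := h
  have hR : (0 : ℝ) < (-5184) * Y + (-432) * X * Y + (432) * X ^ 2 + (-10) * X ^ 2 * Y + (40) *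
    X ^ 3 + (1) * X ^ 4 := by
    refine pos_nt (R' := (432 * X ^ 2 + 40 * X ^ 3 + 1 * X ^ 4) + ((-5184) + (-432) * X + (-10)
      * X ^ 2) * (-14 * X - 216 - Y)) ?_ ?_
    · have e : ((-5184) * Y + (-432) * X * Y + (432) * X ^ 2 + (-10) * X ^ 2 * Y + (40) * X ^ 3
        + (1) * X ^ 4) * ((432 * X ^ 2 + 40 * X ^ 3 + 1 * X ^ 4) + ((-5184) + (-432) * X + (-10)
        * X ^ 2) * (-14 * X - 216 - Y)) = 8957952 * X ^ 3 + 1783296 * X ^ 4 + 143424 * X ^ 5 +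
        5832 * X ^ 6 + 120 * X ^ 7 + 1 * X ^ 8 := by
        linear_combination ((-26873856) + (-4478976) * X + (-290304) * X ^ 2 + (-8640) * X ^ 3 +
          (-100) * X ^ 4) * he
      rw [e]
      positivity
    · have e : ((-5184) * Y + (-432) * X * Y + (432) * X ^ 2 + (-10) * X ^ 2 * Y + (40) * X ^ 3
        + (1) * X ^ 4) + ((432 * X ^ 2 + 40 * X ^ 3 + 1 * X ^ 4) + ((-5184) + (-432) * X + (-10)
        * X ^ 2) * (-14 * X - 216 - Y)) = 1119744 + 165888 * X + 9072 * X ^ 2 + 220 * X ^ 3 + 2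
        * X ^ 4 := by ring
      rw [e]
      positivity
  have e : sub w29.al w29.c = [-1, 0, -1, 0, 0, 1, 0, 0, 1] := rfl
  refine (Or.inl) ?_
  rw [e]
  simp only [lin_cons, lin_nil']
  push_cast
  refine ngl (P := X * (X + 24) * (Y + 2 * X)) (Z := ((-5184) * Y + (-432) * X * Y + (432) * X ^
    2 + (-10) * X ^ 2 * Y + (40) * X ^ 3 + (1) * X ^ 4) * (1)) (by positivity) ?_ (mul_pos hR
    (by positivity))
  linear_combination (-1) * ((X + 24) * (Y + 2 * X)) * k.e0 + (-1) * (X * (Y + 2 * X)) * k.e2 +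
    (1) * (X * (X + 24)) * k.e5 + ((-48) + (-4) * X) * he

theorem der35 {d0 d1 d2 d3 d4 d5 d6 : ℝ} (h : Arc X Y)
    (k : Dv X Y d0 d1 d2 d3 d4 d5 d6) : w35.Dec [d0, d1, d2, d3, d4, d5, d6] := by
  obtain ⟨he, hX, hY⟩ := h
  have hR : (0 : ℝ) < (5832) + (54) * Y + (378) * X := by
    have e : (5832) + (54) * Y + (378) * X = 5832 + 378 * X + 54 * Y := by ring
    rw [e]
    positivity
  have e : sub w35.al w35.be = [-1, 0, 0, 1, 0, 0, 0, 3, 0] := rfl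
  refine (fun h => Or.inr (Or.inr h)) ?_
  rw [e]
  simp only [lin_cons, lin_nil']
  push_cast
  refine ngl (P := X * (X + 27)) (Z := ((5832) + (54) * Y + (378) * X) * (1)) (by positivity) ?_
    (mul_pos hR (by positivity))
  linear_combination (-1) * ((X + 27)) * k.e0 + (1) * (X) * k.e3 + (0) * he

theorem der36 {d0 d1 d2 d3 d4 d5 d6 : ℝ} (h : Arc X Y)
    (k : Dv X Y d0 d1 d2 d3 d4 d5 d6) : w36.Dec [d0, d1, d2, d3, d4, d5, d6] := by
  obtain ⟨he, hX, hY⟩ := h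
  have hR : (0 : ℝ) < (216) + (2) * Y + (14) * X := by
    have e : (216) + (2) * Y + (14) * X = 216 + 14 * X + 2 * Y := by ring
    rw [e]
    positivity
  have e : sub w36.al w36.be = [0, 0, -1, 0, 0, 0, 0, 0, 1] := rfl
  refine (fun h => Or.inr (Or.inr h)) ?_
  rw [e]
  simp only [lin_cons, lin_nil']
  push_cast
  refine ngl (P := (X + 24)) (Z := ((216) + (2) * Y + (14) * X) * (1)) (by positivity) ?_
    (mul_pos hR (by positivity))
  linear_combination (-1) * (1) * k.e2 + (0) * he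

theorem der42 {d0 d1 d2 d3 d4 d5 d6 : ℝ} (h : Arc X Y)
    (k : Dv X Y d0 d1 d2 d3 d4 d5 d6) : w42.Dec [d0, d1, d2, d3, d4, d5, d6] := by
  obtain ⟨he, hX, hY⟩ := h
  have hR : (0 : ℝ) < (5184) + (48) * Y + (336) * X := by
    have e : (5184) + (48) * Y + (336) * X = 5184 + 336 * X + 48 * Y := by ring
    rw [e]
    positivity
  have e : sub w42.al w42.be = [-1, 0, 1, 0, 0, 0, 0, 0, 1] := rfl
  refine (fun h => Or.inr (Or.inr h)) ?_
  rw [e]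
  simp only [lin_cons, lin_nil']
  push_cast
  refine ngl (P := X * (X + 24)) (Z := ((5184) + (48) * Y + (336) * X) * (1)) (by positivity) ?_
    (mul_pos hR (by positivity))
  linear_combination (-1) * ((X + 24)) * k.e0 + (1) * (X) * k.e2 + (0) * he

theorem der43 {d0 d1 d2 d3 d4 d5 d6 : ℝ} (h : Arc X Y)
    (k : Dv X Y d0 d1 d2 d3 d4 d5 d6) : w43.Dec [d0, d1, d2, d3, d4, d5, d6] := by
  obtain ⟨he, hX, hY⟩ := h
  have hR : (0 : ℝ) < (216) + (2) * Y + (14) * X := by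
    have e : (216) + (2) * Y + (14) * X = 216 + 14 * X + 2 * Y := by ring
    rw [e]
    positivity
  have e : sub w43.al w43.be = [0, -1, 0, 0, 0, 0, 0, 1, 1] := rfl
  refine (fun h => Or.inr (Or.inr h)) ?_
  rw [e]
  simp only [lin_cons, lin_nil']
  push_cast
  refine ngl (P := (X + 18)) (Z := ((216) + (2) * Y + (14) * X) * (1)) (by positivity) ?_
    (mul_pos hR (by positivity))
  linear_combination (-1) * (1) * k.e1 + (0) * he

theorem der49 {d0 d1 d2 d3 d4 d5 d6 : ℝ} (h : Arc X Y)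
    (k : Dv X Y d0 d1 d2 d3 d4 d5 d6) : w49.Dec [d0, d1, d2, d3, d4, d5, d6] := by
  obtain ⟨he, hX, hY⟩ := h
  have hR : (0 : ℝ) < (54) * Y + (1) * X * Y + (-3) * X ^ 2 := by
    refine pos_nb (R' := ((-3) * X ^ 2) + (54 + 1 * X) * (-14 * X - 216 - Y)) ?_ ?_
    · have e : ((54) * Y + (1) * X * Y + (-3) * X ^ 2) * (((-3) * X ^ 2) + (54 + 1 * X) * (-14 *
        X - 216 - Y)) = -(17496 * X ^ 2 + 1944 * X ^ 3 + 75 * X ^ 4 + 1 * X ^ 5) := by
        linear_combination ((-2916) + (-108) * X + (-1) * X ^ 2) * he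
      rw [e]
      refine neg_neg_of_pos ?_
      positivity
    · have e : ((54) * Y + (1) * X * Y + (-3) * X ^ 2) - (((-3) * X ^ 2) + (54 + 1 * X) * (-14 *
        X - 216 - Y)) = (54 + 1 * X) * (2 * Y + 14 * X + 216) := by ring
      rw [e]
      positivity
  have e : sub w49.al w49.c = [0, 0, 0, 1, 1, 0, -2, 0, 0] := rfl
  refine (Or.inl) ?_
  rw [e]
  simp only [lin_cons, lin_nil']
  push_cast
  refine ngl (P := (X + 27) * Y * (Y + 3 * X)) (Z := ((54) * Y + (1) * X * Y + (-3) * X ^ 2) *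
    (X * (X + 27))) (by positivity) ?_ (mul_pos hR (by positivity))
  linear_combination (1) * (Y * (Y + 3 * X)) * k.e3 + (1) * ((X + 27) * (Y + 3 * X)) * k.e4 +
    (-2) * ((X + 27) * Y) * k.e6 + ((-162) + (2) * Y + (-6) * X) * he

theorem der58 {d0 d1 d2 d3 d4 d5 d6 : ℝ} (h : Arc X Y)
    (k : Dv X Y d0 d1 d2 d3 d4 d5 d6) : w58.Dec [d0, d1, d2, d3, d4, d5, d6] := by
  obtain ⟨he, hX, hY⟩ := h
  have hR : (0 : ℝ) < (1944) + (12) * Y + (108) * X := by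
    have e : (1944) + (12) * Y + (108) * X = 1944 + 108 * X + 12 * Y := by ring
    rw [e]
    positivity
  have e : sub w58.c w58.be = [0, 1, 0, 2, -1, -1, 0, 2, 0] := rfl
  refine (fun h => Or.inr (Or.inl h)) ?_
  rw [e]
  simp only [lin_cons, lin_nil']
  push_cast
  refine ngl (P := (X + 18) * (X + 27) * Y * (Y + 2 * X)) (Z := ((1944) + (12) * Y + (108) * X)
    * ((X + 18) ^ 2 * Y)) (by positivity) ?_ (mul_pos hR (by positivity))
  linear_combination (1) * ((X + 27) * Y * (Y + 2 * X)) * k.e1 + (2) * ((X + 18) * Y * (Y + 2 *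
    X)) * k.e3 + (-1) * ((X + 18) * (X + 27) * (Y + 2 * X)) * k.e4 + (-1) * ((X + 18) * (X + 27)
    * Y) * k.e5 + ((1944) + (126) * Y + (234) * X + (6) * X * Y + (6) * X ^ 2) * he

theorem der59 {d0 d1 d2 d3 d4 d5 d6 : ℝ} (h : Arc X Y)
    (k : Dv X Y d0 d1 d2 d3 d4 d5 d6) : w59.Dec [d0, d1, d2, d3, d4, d5, d6] := by
  obtain ⟨he, hX, hY⟩ := h
  have hR : (0 : ℝ) < (648) + (4) * Y + (36) * X := by
    have e : (648) + (4) * Y + (36) * X = 648 + 36 * X + 4 * Y := by ring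
    rw [e]
    positivity
  have e : sub w59.al w59.be = [-1, -1, -1, 1, 1, 1, -2, 2, 3] := rfl
  refine (fun h => Or.inr (Or.inr h)) ?_
  rw [e]
  simp only [lin_cons, lin_nil']
  push_cast
  refine ngl (P := X * (X + 18) * (X + 24) * (X + 27) * Y * (Y + 2 * X) * (Y + 3 * X)) (Z :=
    ((648) + (4) * Y + (36) * X) * ((X + 18) * (X + 24) * (X + 27) * Y ^ 2 * (Y + 2 * X))) (by
    positivity) ?_ (mul_pos hR (by positivity))
  linear_combination (-1) * ((X + 18) * (X + 24) * (X + 27) * Y * (Y + 2 * X) * (Y + 3 * X)) *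
    k.e0 + (-1) * (X * (X + 24) * (X + 27) * Y * (Y + 2 * X) * (Y + 3 * X)) * k.e1 + (-1) * (X *
    (X + 18) * (X + 27) * Y * (Y + 2 * X) * (Y + 3 * X)) * k.e2 + (1) * (X * (X + 18) * (X + 24)
    * Y * (Y + 2 * X) * (Y + 3 * X)) * k.e3 + (1) * (X * (X + 18) * (X + 24) * (X + 27) * (Y + 2
    * X) * (Y + 3 * X)) * k.e4 + (1) * (X * (X + 18) * (X + 24) * (X + 27) * Y * (Y + 3 * X)) *
    k.e5 + (-2) * (X * (X + 18) * (X + 24) * (X + 27) * Y * (Y + 2 * X)) * k.e6 + ((23328) * Y ^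
    2 + (-34992) * X * Y + (-139968) * X ^ 2 + (1728) * X * Y ^ 2 + (-10584) * X ^ 2 * Y +
    (-22680) * X ^ 3 + (30) * X ^ 2 * Y ^ 2 + (-672) * X ^ 3 * Y + (-1134) * X ^ 4 + (-12) * X ^
    4 * Y + (-18) * X ^ 5) * he

theorem der60 {d0 d1 d2 d3 d4 d5 d6 : ℝ} (h : Arc X Y)
    (k : Dv X Y d0 d1 d2 d3 d4 d5 d6) : w60.Dec [d0, d1, d2, d3, d4, d5, d6] := by
  obtain ⟨he, hX, hY⟩ := h
  have hR : (0 : ℝ) < (-12) * Y + (48) * X + (3) * X ^ 2 := by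
    refine pos_nt (R' := (48 * X + 3 * X ^ 2) + ((-12)) * (-14 * X - 216 - Y)) ?_ ?_
    · have e : ((-12) * Y + (48) * X + (3) * X ^ 2) * ((48 * X + 3 * X ^ 2) + ((-12)) * (-14 * X
        - 216 - Y)) = 124416 * X + 15552 * X ^ 2 + 648 * X ^ 3 + 9 * X ^ 4 := by
        linear_combination ((-144)) * he
      rw [e]
      positivity
    · have e : ((-12) * Y + (48) * X + (3) * X ^ 2) + ((48 * X + 3 * X ^ 2) + ((-12)) * (-14 * X
        - 216 - Y)) = 2592 + 264 * X + 6 * X ^ 2 := by ring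
      rw [e]
      positivity
  have e : sub w60.al w60.be = [0, -1, -1, 2, 1, 1, -3, 5, 0] := rfl
  refine (fun h => Or.inr (Or.inr h)) ?_
  rw [e]
  simp only [lin_cons, lin_nil']
  push_cast
  refine ngl (P := (X + 18) * (X + 24) * (X + 27) * Y * (Y + 2 * X) * (Y + 3 * X)) (Z := ((-12)
    * Y + (48) * X + (3) * X ^ 2) * ((X + 18) * (X + 24) * (X + 27) * Y * (Y + 2 * X))) (by
    positivity) ?_ (mul_pos hR (by positivity))
  linear_combination (-1) * ((X + 24) * (X + 27) * Y * (Y + 2 * X) * (Y + 3 * X)) * k.e1 + (-1)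
    * ((X + 18) * (X + 27) * Y * (Y + 2 * X) * (Y + 3 * X)) * k.e2 + (2) * ((X + 18) * (X + 24)
    * Y * (Y + 2 * X) * (Y + 3 * X)) * k.e3 + (1) * ((X + 18) * (X + 24) * (X + 27) * (Y + 2 *
    X) * (Y + 3 * X)) * k.e4 + (1) * ((X + 18) * (X + 24) * (X + 27) * Y * (Y + 3 * X)) * k.e5 +
    (-3) * ((X + 18) * (X + 24) * (X + 27) * Y * (Y + 2 * X)) * k.e6 + ((-81648) * Y + (-139968)
    * X + (-540) * Y ^ 2 + (-15120) * X * Y + (-22680) * X ^ 2 + (-24) * X * Y ^ 2 + (-780) * X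
    ^ 2 * Y + (-1134) * X ^ 3 + (-12) * X ^ 3 * Y + (-18) * X ^ 4) * he

theorem der62 {d0 d1 d2 d3 d4 d5 d6 : ℝ} (h : Arc X Y)
    (k : Dv X Y d0 d1 d2 d3 d4 d5 d6) : w62.Dec [d0, d1, d2, d3, d4, d5, d6] := by
  obtain ⟨he, hX, hY⟩ := h
  have hR : (0 : ℝ) < (-5184) * Y + (-384) * X * Y + (648) * X ^ 2 + (-8) * X ^ 2 * Y + (48) * X
    ^ 3 + (1) * X ^ 4 := by
    refine pos_nt (R' := (648 * X ^ 2 + 48 * X ^ 3 + 1 * X ^ 4) + ((-5184) + (-384) * X + (-8) *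
      X ^ 2) * (-14 * X - 216 - Y)) ?_ ?_
    · have e : ((-5184) * Y + (-384) * X * Y + (648) * X ^ 2 + (-8) * X ^ 2 * Y + (48) * X ^ 3 +
        (1) * X ^ 4) * ((648 * X ^ 2 + 48 * X ^ 3 + 1 * X ^ 4) + ((-5184) + (-384) * X + (-8) *
        X ^ 2) * (-14 * X - 216 - Y)) = 241864704 * X ^ 2 + 55987200 * X ^ 3 + 5479488 * X ^ 4 +
        290304 * X ^ 5 + 8784 * X ^ 6 + 144 * X ^ 7 + 1 * X ^ 8 := by
        linear_combination ((-26873856) + (-3981312) * X + (-230400) * X ^ 2 + (-6144) * X ^ 3 +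
          (-64) * X ^ 4) * he
      rw [e]
      positivity
    · have e : ((-5184) * Y + (-384) * X * Y + (648) * X ^ 2 + (-8) * X ^ 2 * Y + (48) * X ^ 3 +
        (1) * X ^ 4) + ((648 * X ^ 2 + 48 * X ^ 3 + 1 * X ^ 4) + ((-5184) + (-384) * X + (-8) *
        X ^ 2) * (-14 * X - 216 - Y)) = 1119744 + 155520 * X + 8400 * X ^ 2 + 208 * X ^ 3 + 2 *
        X ^ 4 := by ring
      rw [e]
      positivity
  have e : sub w62.al w62.be = [0, 2, -1, 0, -1, -1, 1, 4, 0] := rfl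
  refine (fun h => Or.inr (Or.inr h)) ?_
  rw [e]
  simp only [lin_cons, lin_nil']
  push_cast
  refine ngl (P := (X + 18) * (X + 24) * Y * (Y + 2 * X) * (Y + 3 * X)) (Z := ((-5184) * Y +
    (-384) * X * Y + (648) * X ^ 2 + (-8) * X ^ 2 * Y + (48) * X ^ 3 + (1) * X ^ 4) * (X * (X +
    18) * (X + 24))) (by positivity) ?_ (mul_pos hR (by positivity))
  linear_combination (2) * ((X + 24) * Y * (Y + 2 * X) * (Y + 3 * X)) * k.e1 + (-1) * ((X + 18)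
    * Y * (Y + 2 * X) * (Y + 3 * X)) * k.e2 + (-1) * ((X + 18) * (X + 24) * (Y + 2 * X) * (Y + 3
    * X)) * k.e4 + (-1) * ((X + 18) * (X + 24) * Y * (Y + 3 * X)) * k.e5 + (1) * ((X + 18) * (X
    + 24) * Y * (Y + 2 * X)) * k.e6 + ((432) * Y + (-10368) * X + (60) * Y ^ 2 + (336) * X * Y +
    (-1152) * X ^ 2 + (2) * X * Y ^ 2 + (12) * X ^ 2 * Y + (-54) * X ^ 3 + (-1) * X ^ 4) * he

theorem der63 {d0 d1 d2 d3 d4 d5 d6 : ℝ} (h : Arc X Y)
    (k : Dv X Y d0 d1 d2 d3 d4 d5 d6) : w63.Dec [d0, d1, d2, d3, d4, d5, d6] := by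
  obtain ⟨he, hX, hY⟩ := h
  have hR : (0 : ℝ) < (46656) + (504) * Y + (5184) * X + (18) * X * Y + (126) * X ^ 2 := by
    have e : (46656) + (504) * Y + (5184) * X + (18) * X * Y + (126) * X ^ 2 = 46656 + 5184 * X
      + 126 * X ^ 2 + 504 * Y + 18 * X * Y := by ring
    rw [e]
    positivity
  have e : sub w63.al w63.be = [0, 3, 2, 1, 0, -2, -2, 3, 0] := rfl
  refine (fun h => Or.inr (Or.inr h)) ?_
  rw [e]
  simp only [lin_cons, lin_nil']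
  push_cast
  refine ngl (P := (X + 18) * (X + 24) * (X + 27) * (Y + 2 * X) * (Y + 3 * X)) (Z := ((46656) +
    (504) * Y + (5184) * X + (18) * X * Y + (126) * X ^ 2) * ((X + 24) * (X + 27) * (Y + 2 *
    X))) (by positivity) ?_ (mul_pos hR (by positivity))
  linear_combination (3) * ((X + 24) * (X + 27) * (Y + 2 * X) * (Y + 3 * X)) * k.e1 + (2) * ((X
    + 18) * (X + 27) * (Y + 2 * X) * (Y + 3 * X)) * k.e2 + (1) * ((X + 18) * (X + 24) * (Y + 2 *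
    X) * (Y + 3 * X)) * k.e3 + (-2) * ((X + 18) * (X + 24) * (X + 27) * (Y + 3 * X)) * k.e5 +
    (-2) * ((X + 18) * (X + 24) * (X + 27) * (Y + 2 * X)) * k.e6 + ((23328) + (6696) * Y +
    (18792) * X + (570) * X * Y + (1470) * X ^ 2 + (12) * X ^ 2 * Y + (30) * X ^ 3) * he

theorem der65 {d0 d1 d2 d3 d4 d5 d6 : ℝ} (h : Arc X Y)
    (k : Dv X Y d0 d1 d2 d3 d4 d5 d6) : w65.Dec [d0, d1, d2, d3, d4, d5, d6] := by
  obtain ⟨he, hX, hY⟩ := h
  have hR : (0 : ℝ) < (432) := by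
    norm_num
  have e : sub w65.c w65.be = [0, 3, -4, -2, -3, 1, 4, 0, 0] := rfl
  refine (fun h => Or.inr (Or.inl h)) ?_
  rw [e]
  simp only [lin_cons, lin_nil']
  push_cast
  refine ngl (P := (X + 18) * (X + 24) * (X + 27) * Y * (Y + 2 * X) * (Y + 3 * X)) (Z := ((432))
    * ((X + 18) * (X + 24) * (X + 27) * Y * (Y + 3 * X))) (by positivity) ?_ (mul_pos hR (by
    positivity))
  linear_combination (3) * ((X + 24) * (X + 27) * Y * (Y + 2 * X) * (Y + 3 * X)) * k.e1 + (-4) *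
    ((X + 18) * (X + 27) * Y * (Y + 2 * X) * (Y + 3 * X)) * k.e2 + (-2) * ((X + 18) * (X + 24) *
    Y * (Y + 2 * X) * (Y + 3 * X)) * k.e3 + (-3) * ((X + 18) * (X + 24) * (X + 27) * (Y + 2 * X)
    * (Y + 3 * X)) * k.e4 + (1) * ((X + 18) * (X + 24) * (X + 27) * Y * (Y + 3 * X)) * k.e5 +
    (4) * ((X + 18) * (X + 24) * (X + 27) * Y * (Y + 2 * X)) * k.e6 + ((186624) * Y + (419904) *
    X + (-1728) * Y ^ 2 + (27432) * X * Y + (68040) * X ^ 2 + (-222) * X * Y ^ 2 + (1092) * X ^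
    2 * Y + (3402) * X ^ 3 + (-6) * X ^ 2 * Y ^ 2 + (12) * X ^ 3 * Y + (54) * X ^ 4) * he

theorem der67 {d0 d1 d2 d3 d4 d5 d6 : ℝ} (h : Arc X Y)
    (k : Dv X Y d0 d1 d2 d3 d4 d5 d6) : w67.Dec [d0, d1, d2, d3, d4, d5, d6] := by
  obtain ⟨he, hX, hY⟩ := h
  have hR : (0 : ℝ) < (324) + (-3) * Y + (30) * X + (1) * X ^ 2 := by
    refine pos_nt (R' := (324 + 30 * X + 1 * X ^ 2) + ((-3)) * (-14 * X - 216 - Y)) ?_ ?_
    · have e : ((324) + (-3) * Y + (30) * X + (1) * X ^ 2) * ((324 + 30 * X + 1 * X ^ 2) +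
        ((-3)) * (-14 * X - 216 - Y)) = 314928 + 52488 * X + 3294 * X ^ 2 + 93 * X ^ 3 + 1 * X ^
        4 := by
        linear_combination ((-9)) * he
      rw [e]
      positivity
    · have e : ((324) + (-3) * Y + (30) * X + (1) * X ^ 2) + ((324 + 30 * X + 1 * X ^ 2) +
        ((-3)) * (-14 * X - 216 - Y)) = 1296 + 102 * X + 2 * X ^ 2 := by ring
      rw [e]
      positivity
  have e : sub w67.al w67.be = [0, 3, 0, -2, -2, -3, 4, 0, 3] := rfl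
  refine (fun h => Or.inr (Or.inr h)) ?_
  rw [e]
  simp only [lin_cons, lin_nil']
  push_cast
  refine ngl (P := (X + 18) * (X + 27) * Y * (Y + 2 * X) * (Y + 3 * X)) (Z := ((324) + (-3) * Y
    + (30) * X + (1) * X ^ 2) * (X ^ 3 * (X + 18) * (X + 27))) (by positivity) ?_ (mul_pos hR
    (by positivity))
  linear_combination (3) * ((X + 27) * Y * (Y + 2 * X) * (Y + 3 * X)) * k.e1 + (-2) * ((X + 18)
    * Y * (Y + 2 * X) * (Y + 3 * X)) * k.e3 + (-2) * ((X + 18) * (X + 27) * (Y + 2 * X) * (Y + 3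
    * X)) * k.e4 + (-3) * ((X + 18) * (X + 27) * Y * (Y + 3 * X)) * k.e5 + (4) * ((X + 18) * (X
    + 27) * Y * (Y + 2 * X)) * k.e6 + ((2916) * Y + (2916) * X + (90) * Y ^ 2 + (774) * X * Y +
    (270) * X ^ 2 + (2) * X * Y ^ 2 + (22) * X ^ 2 * Y + (-21) * X ^ 3 + (-1) * X ^ 4) * he

theorem der68 {d0 d1 d2 d3 d4 d5 d6 : ℝ} (h : Arc X Y)
    (k : Dv X Y d0 d1 d2 d3 d4 d5 d6) : w68.Dec [d0, d1, d2, d3, d4, d5, d6] := by
  obtain ⟨he, hX, hY⟩ := h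
  have hR : (0 : ℝ) < (432) + (4) * Y + (28) * X := by
    have e : (432) + (4) * Y + (28) * X = 432 + 28 * X + 4 * Y := by ring
    rw [e]
    positivity
  have e : sub w68.al w68.c = [0, -3, 1, 0, 0, 0, 0, 0, 5] := rfl
  refine (Or.inl) ?_
  rw [e]
  simp only [lin_cons, lin_nil']
  push_cast
  refine ngl (P := (X + 18) * (X + 24)) (Z := ((432) + (4) * Y + (28) * X) * ((X + 27))) (by
    positivity) ?_ (mul_pos hR (by positivity))
  linear_combination (-3) * ((X + 24)) * k.e1 + (1) * ((X + 18)) * k.e2 + (0) * he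

end

end Pool.Agent.R8d
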