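import Pool.Agent.Lib_helper7.R8d.T

set_option autoImplicit false
set_option maxRecDepth 100000

/-!
The classes on the arc and the terms of the decomposition as products of positive factors.
-/

namespace Pool.Agent.R8d

open Pool.Agent.K4N.LA

/-- a class on the arc: `f = B ^ al / B ^ c`, `1 - f = B ^ be / B ^ c` -/
structure Cl where
  al : List ℕ
  be : List ℕ
  c : List ℕ

/-- class 10 -/
def w10 : Cl := ⟨[1, 0, 1, 1, 0, 1, 0, 0, 1], [0, 0, 0, 0, 0, 1, 2, 0, 0],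
  [0, 1, 1, 1, 1, 0, 0, 2, 0]⟩

/-- class 11 -/
def w11 : Cl := ⟨[0, 0, 0, 0, 0, 1, 1, 1, 0], [0, 1, 1, 0, 1, 0, 0, 0, 0],
  [1, 0, 1, 0, 0, 1, 0, 0, 0]⟩

/-- class 22 -/
def w22 : Cl := ⟨[0, 1, 1, 1, 0, 0, 1, 3, 0], [0, 0, 0, 0, 0, 1, 2, 0, 0],
  [0, 0, 2, 1, 0, 1, 0, 0, 2]⟩

/-- class 23 -/
def w23 : Cl := ⟨[0, 1, 0, 0, 0, 1, 2, 0, 0], [0, 0, 2, 1, 1, 1, 0, 0, 0],
  [0, 1, 1, 1, 1, 0, 1, 0, 0]⟩

/-- class 28 -/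
def w28 : Cl := ⟨[1, 1, 1, 0, 0, 0, 1, 0, 1], [0, 0, 0, 0, 1, 1, 1, 0, 0],
  [0, 1, 1, 1, 1, 0, 0, 2, 0]⟩

/-- class 29 -/
def w29 : Cl := ⟨[0, 0, 0, 0, 0, 1, 1, 0, 1], [0, 0, 1, 1, 1, 0, 0, 0, 0],
  [1, 0, 1, 0, 0, 0, 1, 0, 0]⟩

/-- class 32 -/
def w32 : Cl := ⟨[0, 0, 1, 1, 0, 1, 0, 0, 0], [0, 0, 0, 0, 0, 1, 1, 0, 0],
  [0, 1, 1, 0, 0, 0, 1, 0, 0]⟩

/-- class 35 -/
def w35 : Cl := ⟨[0, 0, 0, 1, 0, 0, 0, 3, 0], [1, 0, 0, 0, 0, 0, 0, 0, 0],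
  [0, 0, 1, 0, 0, 0, 0, 0, 2]⟩

/-- class 36 -/
def w36 : Cl := ⟨[0, 0, 0, 0, 0, 0, 0, 0, 1], [0, 0, 1, 0, 0, 0, 0, 0, 0],
  [0, 0, 0, 1, 0, 0, 0, 0, 0]⟩

/-- class 41 -/
def w41 : Cl := ⟨[0, 1, 1, 0, 1, 0, 0, 0, 0], [0, 0, 0, 0, 1, 1, 0, 1, 0],
  [1, 1, 0, 0, 0, 1, 0, 0, 0]⟩

/-- class 42 -/
def w42 : Cl := ⟨[0, 0, 1, 0, 0, 0, 0, 0, 1], [1, 0, 0, 0, 0, 0, 0, 0, 0],
  [0, 1, 0, 0, 0, 0, 0, 2, 0]⟩

/-- class 43 -/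
def w43 : Cl := ⟨[0, 0, 0, 0, 0, 0, 0, 1, 1], [0, 1, 0, 0, 0, 0, 0, 0, 0],
  [0, 0, 1, 0, 0, 0, 0, 0, 0]⟩

/-- class 49 -/
def w49 : Cl := ⟨[0, 0, 1, 1, 1, 0, 0, 0, 0], [0, 0, 0, 1, 0, 1, 1, 0, 0],
  [0, 0, 1, 0, 0, 0, 2, 0, 0]⟩

/-- class 57 -/
def w57 : Cl := ⟨[0, 1, 1, 2, 1, 1, 1, 5, 0], [0, 0, 0, 0, 2, 2, 2, 0, 0],
  [4, 2, 2, 1, 0, 0, 0, 0, 0]⟩

/-- class 58 -/
def w58 : Cl := ⟨[0, 3, 2, 1, 2, 0, 0, 0, 1], [0, 0, 0, 0, 1, 3, 2, 0, 0],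
  [0, 1, 0, 2, 0, 2, 2, 2, 0]⟩

/-- class 59 -/
def w59 : Cl := ⟨[0, 0, 0, 1, 1, 2, 2, 2, 3], [1, 1, 1, 0, 0, 1, 4, 0, 0],
  [0, 2, 2, 2, 3, 0, 0, 0, 0]⟩

/-- class 60 -/
def w60 : Cl := ⟨[0, 1, 0, 2, 1, 1, 3, 5, 0], [0, 2, 1, 0, 0, 0, 6, 0, 0],
  [0, 0, 3, 3, 2, 2, 0, 0, 0]⟩

/-- class 62 -/
def w62 : Cl := ⟨[0, 2, 0, 1, 1, 1, 1, 4, 0], [0, 0, 1, 1, 2, 2, 0, 0, 0],
  [2, 2, 1, 0, 0, 0, 2, 0, 0]⟩

/-- class 63 -/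
def w63 : Cl := ⟨[0, 3, 2, 2, 2, 0, 0, 3, 0], [0, 0, 0, 1, 2, 2, 2, 0, 0],
  [0, 2, 2, 0, 0, 0, 4, 0, 2]⟩

/-- class 65 -/
def w65 : Cl := ⟨[0, 1, 2, 1, 2, 0, 2, 2, 3], [0, 0, 4, 2, 3, 1, 0, 0, 0],
  [0, 3, 0, 0, 0, 2, 4, 0, 0]⟩

/-- class 66 -/
def w66 : Cl := ⟨[0, 0, 3, 2, 2, 3, 0, 0, 3], [0, 0, 0, 1, 3, 2, 3, 0, 0],
  [3, 2, 2, 0, 0, 0, 4, 0, 0]⟩

/-- class 67 -/
def w67 : Cl := ⟨[0, 3, 1, 0, 1, 0, 4, 0, 3], [0, 0, 1, 2, 3, 3, 0, 0, 0],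
  [4, 3, 0, 2, 0, 1, 1, 0, 0]⟩

/-- class 68 -/
def w68 : Cl := ⟨[0, 0, 1, 0, 0, 0, 0, 0, 5], [1, 0, 0, 2, 0, 0, 0, 0, 0],
  [0, 3, 0, 0, 0, 0, 0, 0, 0]⟩

/-- the monotone classes -/
def W8 : List Cl :=
  [w10, w11, w22, w23, w28, w29, w35, w36, w42, w43, w49, w58, w59, w60, w62, w63, w65, w67, w68]

/-- positive logarithms -/
def U8 : List (List ℤ) :=
  [sub w22.c w22.al, sub w28.c w28.al, sub w32.c w32.al, sub w36.c w36.be, sub w41.c w41.al, sub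
   w43.c w43.be, sub w57.c w57.al, sub w58.c w58.al, sub w59.c w59.be, sub w60.c w60.be, sub
   w63.c w63.al, sub w65.c w65.be, sub w66.c w66.al, sub w67.c w67.al, sub w68.c w68.be]

/-- positive increasing logarithms -/
def Q8 : List (List ℤ) :=
  [sub w10.c w10.al, sub w22.c w22.al, sub w28.c w28.al, sub w35.c w35.al, sub w42.c w42.al, sub
   w58.c w58.al, sub w62.c w62.al, sub w63.c w63.al, sub w67.c w67.al, [0, 0, 0, 0, 0, 0, 0, -3,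
   2], [0, 0, 0, 0, 0, 0, 0, 2, -1]]

/-- positive decreasing logarithms -/
def P8 : List (List ℤ) :=
  [sub w11.c w11.be, sub w23.c w23.be, sub w29.c w29.be, sub w36.c w36.be, sub w43.c w43.be, sub
   w49.c w49.be, sub w59.c w59.be, sub w60.c w60.be, sub w65.c w65.be, sub w68.c w68.be, [0, 0,
   0, 0, 0, 0, 0, -3, 2], [0, 0, 0, 0, 0, 0, 0, 2, -1]]

/-- the terms: the two factors and the coefficients of the weight -/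
def E2 : List (ℕ × ℕ × List ℤ) :=
  [(0, 0, [0, 0, 12479752, 43481440, 0, 59917860, 0, 0, 7133124, 0, 0, 0, 14215440, 0, 3520188]),
   (0, 3, [6840852, 0, 0, 42177408, 28905236, 53057108, 0, 0, 3806832, 8872920, 0, 0, 0, 0,
     15301728]),
   (0, 4, [0, 0, 4849500, 12880788, 0, 10321200, 0, 0, 10383420, 0, 0, 0, 0, 0, 1141920]),
   (0, 9, [0, 0, 0, 2204784, 0, 5156208, 0, 0, 3197376, 0, 0, 0, 1001376, 162504, 483120]),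
   (1, 0, [9113332, 0, 466791420, 0, 0, 0, 0, 143292856, 31652080, 130444488, 19095000, 5380200, 0,
     1032120, 0]),
   (1, 6, [0, 0, 234441300, 0, 0, 0, 0, 59160240, 9490380, 64518480, 11199600, 2353380, 4984920, 0,
     1840980]),
   (1, 9, [0, 0, 0, 0, 0, 0, 0, 0, 0, 0, 0, 0, 0, 0, 702720]),
   (2, 0, [0, 31465712, 348591680, 0, 0, 0, 0, 90159540, 37289172, 46258740, 19310004, 0, 0,
     10387080, 0]),
   (2, 1, [16016160, 78183444, 18215592, 0, 0, 3276324, 0, 0, 0, 0, 23467920, 0, 8981640, 0,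
     7525692]),
   (2, 4, [27847422, 16040262, 0, 0, 0, 0, 0, 7149498, 3705438, 0, 18358560, 0, 0, 5621760,
     9486720]),
   (2, 6, [0, 5885280, 0, 0, 0, 4040640, 0, 2042280, 0, 0, 0, 0, 2679120, 0, 2799900]),
   (2, 9, [23365440, 17344008, 87717024, 0, 0, 0, 3579480, 25493364, 0, 13634964, 0, 0, 0, 1240740,
     790560]),
   (3, 3, [0, 0, 18426884, 0, 26101020, 0, 6958012, 0, 48841236, 0, 17830456, 8342604, 11707988, 0,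
     0]),
   (3, 4, [0, 0, 0, 0, 0, 867420, 0, 0, 0, 0, 0, 0, 0, 0, 6256404]),
   (4, 4, [68880129, 23456911, 579087138, 0, 0, 0, 0, 129245817, 97855881, 143047440, 117548376,
     24507360, 0, 32969280, 0]),
   (4, 9, [0, 0, 0, 0, 0, 1054080, 0, 0, 1449360, 0, 0, 0, 0, 0, 922320]),
   (5, 3, [0, 6777696, 6209772, 0, 0, 0, 0, 0, 1983720, 0, 0, 0, 0, 0, 1699704]),
   (5, 5, [387960, 0, 0, 0, 0, 6906420, 1021140, 0, 1306620, 0, 0, 0, 2206980, 0, 2810880]),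
   (5, 9, [0, 0, 417240, 0, 0, 439200, 0, 0, 285480, 0, 0, 0, 230580, 0, 0]),
   (6, 0, [0, 1083360, 0, 0, 0, 12158520, 0, 2203320, 0, 0, 0, 0, 893040, 29280, 1076040]),
   (6, 4, [0, 0, 0, 3777120, 0, 3294000, 43920, 0, 7115040, 0, 0, 0, 0, 0, 2163060]),
   (6, 5, [4187040, 746640, 0, 7664040, 0, 9259800, 0, 1749480, 0, 0, 2379000, 0, 1405440, 0,
     3151260]),
   (6, 6, [0, 0, 0, 0, 0, 1493280, 0, 0, 0, 0, 285480, 0, 570960, 0, 1921500]),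
   (6, 9, [2580300, 0, 0, 0, 318420, 0, 175680, 0, 0, 0, 845460, 175680, 0, 0, 0]),
   (6, 10, [0, 0, 0, 0, 0, 5885280, 0, 0, 592920, 0, 0, 0, 0, 0, 43920]),
   (6, 11, [0, 0, 21132840, 21594000, 14149560, 34557720, 0, 0, 4655520, 0, 0, 0, 0, 0, 6566040]),
   (7, 3, [5870016, 0, 0, 26893056, 0, 23082996, 9091440, 0, 6808224, 0, 11844384, 0, 0, 0,
     9576756]),
   (7, 9, [0, 0, 0, 0, 0, 0, 0, 0, 0, 0, 0, 0, 0, 0, 570960]),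
   (8, 3, [0, 3001200, 0, 6734400, 0, 12143880, 0, 0, 402600, 651480, 0, 0, 0, 1054080, 5017860]),
   (8, 9, [0, 0, 0, 131760, 0, 0, 0, 0, 0, 0, 0, 0, 0, 0, 0]),
   (8, 10, [0, 0, 7751880, 14449680, 10496880, 12012120, 0, 0, 2327760, 0, 0, 0, 0, 0, 0]),
   (9, 1, [19965232, 59911496, 292865188, 0, 0, 0, 0, 86830808, 0, 87693200, 20584620, 0, 1141920,
     0, 8915760]),
   (9, 2, [0, 0, 126952568, 22972010, 40873430, 0, 0, 14650940, 33772630, 26944506, 32576948, 0,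
     18117000, 0, 0]),
   (9, 4, [4556700, 19791138, 0, 0, 0, 0, 0, 2694675, 34887120, 5088315, 61630740, 0, 0, 18512280,
     12409596]),
   (9, 9, [7576200, 20532600, 8300880, 0, 8630280, 0, 3337920, 0, 0, 0, 6390360, 0, 0, 0, 0]),
   (10, 1, [0, 140593472, 76093512, 0, 0, 0, 0, 0, 0, 0, 49367856, 9433908, 43268520, 0, 11869488]),
   (10, 7, [0, 8222296, 41944644, 30261504, 13325904, 10837260, 0, 3149532, 0, 0, 0, 0, 6060960, 0,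
     6060960]),
   (10, 8, [26452548, 1555708, 21404520, 0, 14389236, 0, 0, 0, 0, 0, 3149532, 0, 0, 0, 0]),
   (10, 9, [0, 17321864, 0, 0, 0, 0, 0, 1310256, 0, 0, 0, 0, 6322572, 243468, 0])]

/-- the term -/
def mkT (e : ℕ × ℕ × List ℤ) : Tm := ⟨Q8.getD e.1 [], P8.getD e.2.1 [], vm e.2.2 U8⟩

/-- the check -/
def okE (e : ℕ × ℕ × List ℤ) : Bool :=
  decide (e.1 < Q8.length) && decide (e.2.1 < P8.length) && e.2.2.all (fun x => decide (0 ≤ x))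

theorem E2_eq : L2 = E2.map mkT := by decide +kernel

theorem E2_ok : E2.all okE = true := by decide +kernel

end Pool.Agent.R8d
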