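import Pool.Agent.Lib_helper2.K4N.GL

set_option autoImplicit false
set_option linter.unusedVariables false
set_option linter.unusedSimpArgs false

/-!
Signs of monomials, cyclic sums, and positive products of logarithms.
-/

namespace Pool.Agent.R8d

open Pool.Agent.K4N Pool.Agent.K4N.LA Real

/-! signs -/

/-- the sign -/
noncomputable def sb (b : ℝ) : Bool := decide (b < 0)

/-- the sign of a monomial -/
def par : List ℕ → List Bool → Bool
  | n :: ns, s :: ss => xor (decide (n % 2 = 1) && s) (par ns ss)
  | _, _ => false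

lemma sb_of_pos {b : ℝ} (h : 0 < b) : sb b = false := decide_eq_false (not_lt.mpr h.le)

lemma sb_of_neg {b : ℝ} (h : b < 0) : sb b = true := decide_eq_true h

lemma sb_mul {a b : ℝ} (ha : a ≠ 0) (hb : b ≠ 0) : sb (a * b) = xor (sb a) (sb b) := by
  rcases lt_or_gt_of_ne ha with h | h <;> rcases lt_or_gt_of_ne hb with h' | h'
  · rw [sb_of_pos (mul_pos_of_neg_of_neg h h'), sb_of_neg h, sb_of_neg h']; rfl
  · rw [sb_of_neg (mul_neg_of_neg_of_pos h h'), sb_of_neg h, sb_of_pos h']; rfl
  · rw [sb_of_neg (mul_neg_of_pos_of_neg h h'), sb_of_pos h, sb_of_neg h']; rfl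
  · rw [sb_of_pos (mul_pos h h'), sb_of_pos h, sb_of_pos h']; rfl

lemma sb_pow {b : ℝ} (hb : b ≠ 0) (n : ℕ) : sb (b ^ n) = (decide (n % 2 = 1) && sb b) := by
  rcases lt_or_gt_of_ne hb with h | h
  · rw [sb_of_neg h, Bool.and_true]
    by_cases hn : n % 2 = 1
    · rw [decide_eq_true hn]
      exact sb_of_neg (Odd.pow_neg (Nat.odd_iff.mpr hn) h)
    · rw [decide_eq_false hn]
      exact sb_of_pos (Even.pow_pos (Nat.not_odd_iff_even.mp fun h' => hn (Nat.odd_iff.mp h')) hb)
  · rw [sb_of_pos h, Bool.and_false]
    exact sb_of_pos (pow_pos h n)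

lemma sb_monN (v : List ℕ) {B : List ℝ} (hB : ∀ b ∈ B, b ≠ 0) :
    sb (monN v B) = par v (B.map sb) := by
  induction v generalizing B with
  | nil =>
    rw [monN_nil]
    exact sb_of_pos one_pos
  | cons n ns ih =>
    cases B with
    | nil =>
      rw [monN_nil']
      exact sb_of_pos one_pos
    | cons b bs =>
      have h2 : ∀ b' ∈ bs, b' ≠ 0 := fun b' h' => hB b' (List.mem_cons_of_mem _ h')
      rw [monN_cons, sb_mul (pow_ne_zero _ (hB b List.mem_cons_self)) (monN_ne ns h2),
        sb_pow (hB b List.mem_cons_self), ih h2]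
      rfl

lemma sb_neg {b : ℝ} (hb : b ≠ 0) : sb (-b) = !(sb b) := by
  rcases lt_or_gt_of_ne hb with h | h
  · rw [sb_of_pos (neg_pos.mpr h), sb_of_neg h]; rfl
  · rw [sb_of_neg (neg_lt_zero.mpr h), sb_of_pos h]; rfl

/-- `b` is the quotient of monomials, with a sign -/
def Quo (B : List ℝ) (b : ℝ) (r : Bool × List ℕ × List ℕ) : Prop :=
  r.2.1.length = r.2.2.length ∧ b * monN r.2.2 B = (if r.1 then -1 else 1) * monN r.2.1 B

lemma Quo.ne {B : List ℝ} {b : ℝ} {r : Bool × List ℕ × List ℕ} (hB : ∀ b ∈ B, b ≠ 0)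
    (h : Quo B b r) : b ≠ 0 := by
  intro h0
  have h1 := h.2
  rw [h0, zero_mul] at h1
  have h2 := monN_ne r.2.1 hB
  have h3 : ((if r.1 then -1 else 1) : ℝ) ≠ 0 := by split <;> norm_num
  exact (mul_ne_zero h3 h2) h1.symm

lemma Quo.log {B : List ℝ} {b : ℝ} {r : Bool × List ℕ × List ℕ} (hB : ∀ b ∈ B, b ≠ 0)
    (h : Quo B b r) : Real.log b = lin (sub r.2.1 r.2.2) (B.map Real.log) := by
  obtain ⟨hl, h1⟩ := h
  rw [← log_quot hl hB]
  rcases hr : r.1 with _ | _
  · rw [hr] at h1
    rw [show b = monN r.2.1 B / monN r.2.2 B from by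
      rw [eq_div_iff (monN_ne _ hB)]
      simpa using h1]
  · rw [hr] at h1
    rw [show b = -(monN r.2.1 B / monN r.2.2 B) from by
      rw [← neg_div, eq_div_iff (monN_ne _ hB)]
      simpa using h1, Real.log_neg_eq_log]

lemma Quo.sb {B : List ℝ} {b : ℝ} {r : Bool × List ℕ × List ℕ} (hB : ∀ b ∈ B, b ≠ 0)
    (h : Quo B b r) :
    R8d.sb b = xor r.1 (xor (par r.2.1 (B.map R8d.sb)) (par r.2.2 (B.map R8d.sb))) := by
  have hb := h.ne hB
  obtain ⟨hl, h1⟩ := h
  have h2 := congrArg R8d.sb h1
  rw [sb_mul hb (monN_ne _ hB), sb_monN _ hB] at h2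
  rcases hr : r.1 with _ | _
  · rw [hr] at h2
    rw [show ((if false = true then -1 else 1) : ℝ) * monN r.2.1 B = monN r.2.1 B from by simp,
      sb_monN _ hB] at h2
    rw [← h2]
    cases R8d.sb b <;> cases par r.2.2 (B.map R8d.sb) <;> rfl
  · rw [hr] at h2
    rw [show ((if true = true then -1 else 1) : ℝ) * monN r.2.1 B = -monN r.2.1 B from by simp,
      sb_neg (monN_ne _ hB), sb_monN _ hB] at h2
    rcases h3 : R8d.sb b <;> rcases h4 : par r.2.2 (B.map R8d.sb) <;>
      rcases h5 : par r.2.1 (B.map R8d.sb) <;> rw [h3, h4, h5] at h2 <;> first | rfl | (simp at h2)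

lemma logs_of {B B' : List ℝ} {R : List (Bool × List ℕ × List ℕ)} (hB : ∀ b ∈ B, b ≠ 0)
    (h : List.Forall₂ (fun b r => Quo B b r) B' R) :
    B'.map Real.log = R.map fun r => lin (sub r.2.1 r.2.2) (B.map Real.log) := by
  induction h with
  | nil => rfl
  | cons h _ ih => rw [List.map_cons, List.map_cons, h.log hB, ih]

lemma sbs_of {B B' : List ℝ} {R : List (Bool × List ℕ × List ℕ)} (hB : ∀ b ∈ B, b ≠ 0)
    (h : List.Forall₂ (fun b r => Quo B b r) B' R) :
    B'.map R8d.sb = R.map fun r => xor r.1 (xor (par r.2.1 (B.map R8d.sb))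
      (par r.2.2 (B.map R8d.sb))) := by
  induction h with
  | nil => rfl
  | cons h _ ih => rw [List.map_cons, List.map_cons, h.sb hB, ih]

/-! tables modulo the symmetry in the first two factors -/

/-- the mixed products with the first entry -/
def row (x y : ℤ) : List ℤ → List ℤ → List ℤ
  | u :: us, g :: gs => (x * g + y * u) :: row x y us gs
  | _, _ => []

/-- the symmetric product -/
def sym : List ℤ → List ℤ → List ℤ
  | u :: us, g :: gs => (u * g) :: (row u g us gs ++ sym us gs)
  | _, _ => []

/-- the monomials of degree two -/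
def mon2 : List ℝ → List ℝ
  | [] => []
  | x :: xs => (x * x) :: (xs.map (x * ·) ++ mon2 xs)

lemma lin_row (x y : ℤ) (z : ℝ) (u g : List ℤ) (a : List ℝ) (hu : u.length = a.length)
    (hg : g.length = a.length) : lin (row x y u g) (a.map (z * ·)) =
    z * (x * lin g a + y * lin u a) := by
  induction a generalizing u g with
  | nil =>
    rw [List.length_nil, List.length_eq_zero_iff] at hu hg
    subst hu hg
    simp [row]
  | cons b a ih =>
    cases u with
    | nil => simp at hu
    | cons m u =>
      cases g with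
      | nil => simp at hg
      | cons n g =>
        rw [row, List.map_cons, lin_cons, ih u g (by simpa using hu) (by simpa using hg),
          lin_cons, lin_cons]
        push_cast
        ring

lemma row_length (x y : ℤ) (u g : List ℤ) (h : u.length = g.length) :
    (row x y u g).length = u.length := by
  induction u generalizing g with
  | nil =>
    cases g with
    | nil => rfl
    | cons n g => simp at h
  | cons m u ih =>
    cases g with
    | nil => simp at h
    | cons n g => rw [row, List.length_cons, ih g (by simpa using h), List.length_cons]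

lemma lin_append' (v w : List ℤ) (a b : List ℝ) (h : v.length = a.length) :
    lin (v ++ w) (a ++ b) = lin v a + lin w b := by
  induction v generalizing a with
  | nil =>
    have : a = [] := by
      rw [← List.length_eq_zero_iff]
      simpa using h.symm
    subst this
    simp
  | cons n v ih =>
    cases a with
    | nil => simp at h
    | cons x a =>
      rw [List.cons_append, List.cons_append, lin_cons, lin_cons, ih a (by simpa using h)]
      ring

lemma lin_sym (u g : List ℤ) (a : List ℝ) (hu : u.length = a.length)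
    (hg : g.length = a.length) : lin (sym u g) (mon2 a) = lin u a * lin g a := by
  induction a generalizing u g with
  | nil =>
    rw [List.length_nil, List.length_eq_zero_iff] at hu hg
    subst hu hg
    simp [sym, mon2]
  | cons x a ih =>
    cases u with
    | nil => simp at hu
    | cons m u =>
      cases g with
      | nil => simp at hg
      | cons n g =>
        have hu' : u.length = a.length := by simpa using hu
        have hg' : g.length = a.length := by simpa using hg
        rw [sym, mon2, lin_cons, lin_append' _ _ _ _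
          (by rw [row_length _ _ _ _ (hu'.trans hg'.symm), List.length_map, hu']),
          lin_row _ _ _ _ _ _ hu' hg', ih u g hu' hg', lin_cons, lin_cons]
        push_cast
        ring

/-- the lengths are correct -/
def len (n : ℕ) (t : Tm) : Bool :=
  decide (t.f.length = n) && decide (t.g.length = n) && decide (t.u.length = n)

/-- multiple -/
def sc0 (n : ℤ) (v : List ℤ) : List ℤ := if n = 0 then [] else scl n v

lemma lin_sc0 (n : ℤ) (v : List ℤ) (a : List ℝ) : lin (sc0 n v) a = n * lin v a := by
  unfold sc0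
  split
  · next h => rw [h, lin_nil, Int.cast_zero, zero_mul]
  · exact lin_scl n v a

/-- the coefficient of the `j`-th derivative -/
def sumCol (j : ℕ) : List Tm → List ℤ
  | [] => []
  | t :: L => padd (sc0 (t.f.getD j 0) (sym t.u t.g))
      (padd (sc0 (-(t.g.getD j 0)) (sym t.u t.f)) (sumCol j L))

lemma lin_getD (v : List ℤ) (d : List ℝ) {r : ℕ} (h : d.length ≤ r) :
    lin v d = ∑ j ∈ Finset.range r, ((v.getD j 0 : ℤ) : ℝ) * d.getD j 0 := by
  induction d generalizing v r with
  | nil => simp
  | cons x d ih =>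
    cases v with
    | nil => simp
    | cons n v =>
      cases r with
      | zero => simp at h
      | succ r =>
        rw [lin_cons, Finset.sum_range_succ', ih v (by simpa using h), add_comm]
        simp

lemma lin_sumCol (r : ℕ) (L : List Tm) {a d : List ℝ} (hd : d.length ≤ r)
    (hl : L.all (len a.length) = true) :
    (L.map fun t => t.tri a d).sum =
      ∑ j ∈ Finset.range r, lin (sumCol j L) (mon2 a) * d.getD j 0 := by
  induction L with
  | nil => simp [sumCol]
  | cons t L ih =>
    rw [List.all_cons, Bool.and_eq_true] at hl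
    obtain ⟨h, hl⟩ := hl
    unfold len at h
    rw [Bool.and_eq_true, Bool.and_eq_true] at h
    obtain ⟨⟨h1, h2⟩, h3⟩ := h
    have h1 := of_decide_eq_true h1
    have h2 := of_decide_eq_true h2
    have h3 := of_decide_eq_true h3
    rw [List.map_cons, List.sum_cons, ih hl]
    unfold Tm.tri
    rw [lin_getD t.f d hd, lin_getD t.g d hd, Finset.mul_sum, Finset.mul_sum,
      ← Finset.sum_sub_distrib, Finset.sum_mul, ← Finset.sum_add_distrib]
    refine Finset.sum_congr rfl fun j _ => ?_
    rw [sumCol, lin_padd, lin_padd, lin_sc0, lin_sc0, lin_sym _ _ _ h3 h2, lin_sym _ _ _ h3 h1]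
    push_cast
    ring

/-- **equality of densities** -/
theorem sum_eq_of_col {r : ℕ} {L L' : List Tm} {n : ℤ} {m : ℕ}
    (h : ∀ j < r, scl n (sumCol j L) = sumCol j L') (hl : L.all (len m) = true)
    (hl' : L'.all (len m) = true) {a d : List ℝ} (ha : a.length = m) (hd : d.length ≤ r) :
    n * (L.map fun t => t.tri a d).sum = (L'.map fun t => t.tri a d).sum := by
  subst ha
  rw [lin_sumCol r L hd hl, lin_sumCol r L' hd hl', Finset.mul_sum]
  refine Finset.sum_congr rfl fun j hj => ?_
  rw [← h j (Finset.mem_range.mp hj), lin_scl]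
  ring

/-! positive products -/

/-- a positive increasing logarithm -/
def Inc (a d : List ℝ) (v : List ℤ) : Prop := 0 < lin v a ∧ 0 ≤ lin v d

/-- a positive decreasing logarithm -/
def Dec (a d : List ℝ) (v : List ℤ) : Prop := 0 < lin v a ∧ lin v d ≤ 0

lemma lin_nonneg {co : List ℤ} {U : List ℝ} (h0 : ∀ x ∈ co, 0 ≤ x)
    (hU : ∀ y ∈ U, 0 < y) : 0 ≤ lin co U := by
  induction co generalizing U with
  | nil => simp
  | cons n co ih =>
    cases U with
    | nil => simp
    | cons y U =>
      rw [lin_cons]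
      have a : (0 : ℝ) ≤ n := by exact_mod_cast h0 n List.mem_cons_self
      exact add_nonneg (mul_nonneg a (hU y List.mem_cons_self).le)
        (ih (fun x hx => h0 x (List.mem_cons_of_mem _ hx))
          fun y hy => hU y (List.mem_cons_of_mem _ hy))

/-- the weight of a term is a nonnegative combination of positive logarithms -/
lemma wt_nonneg {U : List (List ℤ)} {a : List ℝ} (hU : ∀ u ∈ U, 0 < lin u a) (e : List ℤ)
    (he : (e.all fun x => decide (0 ≤ x)) = true) : 0 ≤ lin (vm e U) a := by
  rw [lin_vm]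
  refine lin_nonneg (fun x hx => ?_) ?_
  · rw [List.all_eq_true] at he
    exact of_decide_eq_true (he x hx)
  · intro y hy
    obtain ⟨u, hu, rfl⟩ := List.mem_map.mp hy
    exact hU u hu

lemma wt_pos {U : List (List ℤ)} {a : List ℝ} (hU : ∀ u ∈ U, 0 < lin u a) (e : List ℤ)
    (he : (e.all fun x => decide (0 ≤ x)) = true) (he' : (e.any fun x => decide (0 < x)) = true)
    (hl : e.length = U.length) : 0 < lin (vm e U) a := by
  rw [lin_vm]
  refine lin_pos (by rw [List.length_map]; exact hl) (fun x hx => ?_) ?_ ?_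
  · rw [List.all_eq_true] at he
    exact of_decide_eq_true (he x hx)
  · intro y hy
    obtain ⟨u, hu, rfl⟩ := List.mem_map.mp hy
    exact hU u hu
  · rw [List.any_eq_true] at he'
    obtain ⟨x, hx, h⟩ := he'
    exact ⟨x, hx, of_decide_eq_true h⟩

lemma tri_nonneg {a d : List ℝ} {q p u : List ℤ} (hq : Inc a d q) (hp : Dec a d p)
    (hu : 0 ≤ lin u a) : 0 ≤ (Tm.mk q p u).tri a d := by
  unfold Tm.tri
  have h1 := mul_nonneg hp.1.le hq.2
  have h2 := mul_nonpos_of_nonneg_of_nonpos hq.1.le hp.2
  exact mul_nonneg (by dsimp only; linarith) hu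

lemma tri_pos {a d : List ℝ} {q p u : List ℤ} (hq : Inc a d q) (hp : Dec a d p)
    (hq' : 0 < lin q d) (hu : 0 < lin u a) : 0 < (Tm.mk q p u).tri a d := by
  unfold Tm.tri
  have h1 := mul_pos hp.1 hq'
  have h2 := mul_nonpos_of_nonneg_of_nonpos hq.1.le hp.2
  exact mul_pos (by dsimp only; linarith) hu

/-- the identity `f + (1 - f) = 1` with `f` decreasing -/
lemma dec_both {φ γ F G : ℝ} (hF : 0 < F) (hG : 0 < G) (rel : F * φ + G * γ = 0)
    (h : φ < 0 ∨ -γ < 0 ∨ φ - γ < 0) : φ < 0 ∧ 0 < γ := by
  have h0 := dec_cases hF hG rel h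
  refine ⟨h0, ?_⟩
  by_contra hh
  push Not at hh
  have := mul_nonpos_of_nonneg_of_nonpos hG.le hh
  have := mul_neg_of_pos_of_neg hF h0
  linarith

end Pool.Agent.R8d
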