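import Pool.Agent.Lib_helper24.FAM.LK

set_option autoImplicit false
set_option linter.unusedSectionVars false
set_option linter.unusedVariables false

/-!
Substitution of monomials into monomials; explicit elements at the translates.
-/

open scoped TensorProduct

namespace Pool.Agent.R8d

open Pool.Agent.MK4 Pool.Agent.TN Pool.Agent.KC72

/-- the power of a monomial -/
def powM (a : Mo) (n : ℤ) : Mo := (a.1 && decide (n % 2 = 1), a.2.map (n * ·))

/-- the product of powers -/
def prM : List Mo → List ℤ → Mo
  | a :: as, n :: ns => (powM a n).mul (prM as ns)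
  | _, _ => (false, [])

/-- the substitution -/
def subM (S : List Mo) (a : Mo) : Mo := (xor a.1 (prM S a.2).1, (prM S a.2).2)

/-- the substitution in a term -/
def actM (S : List Mo) (t : Mo × List ℤ) : Mo × List ℤ := (subM S t.1, (prM S t.2).2)

/-- all translates -/
def orbM (S : List Mo) : ℕ → List (Mo × List ℤ) → List (Mo × List ℤ)
  | 0, _ => []
  | n + 1, l => l ++ orbM S n (l.map (actM S))

section

variable {F : Type*} [Field F]

lemma evl_smul (n : ℤ) (g : List F) (a : List ℤ) : evl g (a.map (n * ·)) = evl g a ^ n := by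
  induction g generalizing a with
  | nil => simp
  | cons x g ih =>
    cases a with
    | nil => simp
    | cons e a => rw [List.map_cons, evl_cons, evl_cons, ih, mul_zpow, ← zpow_mul, mul_comm n e]

lemma neg_one_zpow_odd {n : ℤ} (h : n % 2 = 1) : (-1 : F) ^ n = -1 := by
  have : Odd n := Int.odd_iff.mpr h
  exact this.neg_one_zpow

lemma neg_one_zpow_even {n : ℤ} (h : ¬ n % 2 = 1) : (-1 : F) ^ n = 1 := by
  have : Even n := by
    rw [← Int.not_odd_iff_even, Int.odd_iff]
    exact h
  exact this.neg_one_zpow

lemma ev_powM (g : List F) (a : Mo) (n : ℤ) : ev g (powM a n) = ev g a ^ n := by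
  unfold ev powM
  rw [mul_zpow, evl_smul]
  congr 1
  rcases a with ⟨_ | _, a⟩
  · simp
  · by_cases h : n % 2 = 1
    · simp only [h, decide_true, Bool.and_self, cond_true]
      exact (neg_one_zpow_odd h).symm
    · simp only [h, decide_false, Bool.and_false, cond_false, cond_true]
      exact (neg_one_zpow_even h).symm

lemma ev_prM {g : List F} (hg : ∀ x ∈ g, x ≠ 0) (S : List Mo) (a : List ℤ) :
    ev g (prM S a) = evl (S.map (ev g)) a := by
  induction S generalizing a with
  | nil => simp [prM, ev]
  | cons m S ih =>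
    cases a with
    | nil => simp [prM, ev]
    | cons n a => rw [prM, ev_mul hg, ev_powM, ih, List.map_cons, evl_cons]

lemma ev_subM {g : List F} (hg : ∀ x ∈ g, x ≠ 0) (S : List Mo) (a : Mo) :
    ev (S.map (ev g)) a = ev g (subM S a) := by
  have h := ev_prM hg S a.2
  unfold subM
  rw [ev, ← h]
  unfold ev
  rcases a with ⟨_ | _, a⟩ <;> rcases (prM S a).1 with _ | _ <;> simp

/-- `∑ {f} ⊗ u` -/
noncomputable def zs (g : List F) : List (Mo × List ℤ) → HK F
  | [] => 0
  | t :: l => hk (sy (ev g t.1)) (lg (evl g t.2)) + zs g l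

lemma zs_append (g : List F) (l l' : List (Mo × List ℤ)) :
    zs g (l ++ l') = zs g l + zs g l' := by
  induction l with
  | nil => rw [List.nil_append, zs, zero_add]
  | cons t l ih => rw [List.cons_append, zs, zs, ih, add_assoc]

lemma zs_act {g : List F} (hg : ∀ x ∈ g, x ≠ 0) (S : List Mo) (l : List (Mo × List ℤ)) :
    zs (S.map (ev g)) l = zs g (l.map (actM S)) := by
  induction l with
  | nil => rfl
  | cons t l ih =>
    rw [List.map_cons, zs, zs, ih, ev_subM hg, ← ev_prM hg, lg_ev hg, ← lg_evl hg]
    rfl

/-- the sum over the translates -/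
lemma zs_orb (S : List Mo) (n : ℕ) (l : List (Mo × List ℤ)) (gg : ℕ → List F)
    (hg : ∀ j, ∀ x ∈ gg j, x ≠ 0) (hs : ∀ j, gg (j + 1) = S.map (ev (gg j))) :
    ∑ j ∈ Finset.range n, zs (gg j) l = zs (gg 0) (orbM S n l) := by
  have key : ∀ n l, ∑ j ∈ Finset.range n, zs (gg j) l = zs (gg 0) (orbM S n l) := by
    intro n
    induction n with
    | zero => intro l; rfl
    | succ n ih =>
      intro l
      rw [Finset.sum_range_succ', orbM, zs_append, ← ih, add_comm]
      congr 1
      refine Finset.sum_congr rfl fun j _ => ?_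
      rw [hs j, zs_act (hg j)]
  exact key n l

/-- the terms over a list of classes -/
lemma zt_zs (g : List F) (cls : List (Mo × Mo)) (L : List KC72.Tm) :
    zt g cls L = zs g (L.map fun t => (oo cls (t.c, t.s), t.u)) := by
  induction L with
  | nil => rfl
  | cons t L ih => rw [zt, ih, List.map_cons, zs]

end

end Pool.Agent.R8d
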