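import Pool.Agent.Lib_helper54.FAM.KD

set_option autoImplicit false

/-!
# The test that the differential vanishes, by columns
-/

namespace Pool.Agent.R8d

open Pool.Agent.KC72 Pool.Agent.FK4

/-- the product of two columns -/
def dt : List ℤ → List ℤ → ℤ
  | a :: A, b :: B => a * b + dt A B
  | _, _ => 0

/-- the column of the minors -/
def pw (T : List (List ℤ × List ℤ × List ℤ)) (i j : ℕ) : List ℤ :=
  T.map fun t => t.1.getD i 0 * t.2.1.getD j 0 - t.2.1.getD i 0 * t.1.getD j 0

/-- the column of the exponents -/
def uu (T : List (List ℤ × List ℤ × List ℤ)) (l : ℕ) : List ℤ :=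
  T.map fun t => t.2.2.getD l 0

lemma dcl_cols (i j l : ℕ) (T : List (List ℤ × List ℤ × List ℤ)) :
    dcl i j l T = dt (pw T i j) (uu T l) + dt (pw T j l) (uu T i) - dt (pw T i l) (uu T j) := by
  induction T with
  | nil => rfl
  | cons t T ih =>
    rw [dcl, ih]
    simp only [pw, uu, List.map_cons, dt, d6]
    ring

/-- one block of the test -/
def chk2 (P : List (List (List ℤ))) (U : List (List ℤ)) (i : ℕ) : Bool :=
  (List.range i).all fun j => (List.range j).all fun l =>
    decide (dt ((P.getD i []).getD j []) (U.getD l []) + dt ((P.getD j []).getD l []) (U.getD i []) -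
      dt ((P.getD i []).getD l []) (U.getD j []) = 0)

/-- **the test** from the columns -/
theorem chk1_of {T : List (List ℤ × List ℤ × List ℤ)} {P : List (List (List ℤ))}
    {U : List (List ℤ)} {n : ℕ} (hP : ∀ i < n, (List.range i).map (pw T i) = P.getD i [])
    (hU : (List.range n).map (uu T) = U) {i : ℕ} (hi : i < n) (h : chk2 P U i = true) :
    chk1 T i = true := by
  have hp : ∀ i j : ℕ, i < n → j < i → (P.getD i []).getD j [] = pw T i j := by
    intro i j hi hj
    rw [← hP i hi]
    simp [List.getD, hj]
  have hu : ∀ l : ℕ, l < n → U.getD l [] = uu T l := by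
    intro l hl
    rw [← hU]
    simp [List.getD, hl]
  rw [chk2, List.all_eq_true] at h
  rw [chk1, List.all_eq_true]
  intro j hj
  have h2 := h j hj
  rw [List.all_eq_true] at h2 ⊢
  intro l hl
  have h3 := h2 l hl
  have hj' := List.mem_range.mp hj
  have hl' := List.mem_range.mp hl
  rw [hp i j hi hj', hp j l (by omega) hl', hp i l hi (by omega), hu l (by omega), hu i hi,
    hu j (by omega)] at h3
  rw [decide_eq_true_eq] at h3 ⊢
  rw [dcl_cols]
  exact h3

end Pool.Agent.R8d
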