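import Pool.Agent.Lib_helper7.R8d.C

set_option autoImplicit false
set_option linter.unusedVariables false
set_option linter.unusedSimpArgs false

/-!
The terms of the class as rational functions on the curve.
-/

namespace Pool.Agent.R8d

open Pool.Agent.K4N Pool.Agent.K4N.LA Filter Topology

/-- the units as expressions -/
def BsQ : List Q2 :=
  [.c 144 * .x, .c 144 * .x + .c 18, .c 144 * .x + .c 24, .c 144 * .x + .c 27,
   .c 1728 * .y, .c 1728 * .y + .c 288 * .x, .c 1728 * .y + .c 432 * .x, .c 2, .c 3]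

/-- powers -/
def pwQ (e : Q2) : ℕ → Q2
  | 0 => .c 1
  | n + 1 => e * pwQ e n

/-- monomials -/
def monQ : List ℕ → List Q2 → Q2
  | n :: ns, b :: bs => pwQ b n * monQ ns bs
  | _, _ => .c 1

section

variable {K : Type*} [Field K]

lemma ev_pwQ (e : Q2) (n : ℕ) (u v : K) : (pwQ e n).ev u v = e.ev u v ^ n := by
  induction n with
  | zero =>
    show ((1 : ℚ) : K) = _
    rw [Rat.cast_one, pow_zero]
  | succ n ih =>
    show (e * pwQ e n).ev u v = _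
    rw [Q2.ev_mul, ih, pow_succ, mul_comm]

lemma ev_monQ : ∀ (v : List ℕ) (B : List Q2) (u w : K),
    (monQ v B).ev u w = monN v (B.map fun e => e.ev u w)
  | [], B, u, w => by
    show ((1 : ℚ) : K) = _
    rw [Rat.cast_one, monN_nil]
  | n :: ns, [], u, w => by
    show ((1 : ℚ) : K) = _
    rw [Rat.cast_one, List.map_nil, monN_nil']
  | n :: ns, b :: bs, u, w => by
    show (pwQ b n * monQ ns bs).ev u w = _
    rw [Q2.ev_mul, ev_pwQ, ev_monQ ns bs, List.map_cons, monN_cons]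

lemma BsQ_ev [CharZero K] (U V : K) : (BsQ.map fun e => e.ev U V) = Bs (144 * U) (1728 * V) := by
  simp only [BsQ, Bs, List.map_cons, List.map_nil, Q2.ev_add, Q2.ev_mul, Q2.ev_c,
    Q2.ev_x, Q2.ev_y, Rat.cast_ofNat]
  have e1 : 1728 * V + 288 * U = 1728 * V + 2 * (144 * U) := by ring
  have e2 : 1728 * V + 432 * U = 1728 * V + 3 * (144 * U) := by ring
  rw [e1, e2]

lemma ok_pwQ {e : Q2} {n : ℕ} {u v : K} (h : e.ok u v) : (pwQ e n).ok u v := by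
  induction n with
  | zero => trivial
  | succ n ih => exact ⟨h, ih⟩

lemma ok_monQ : ∀ (v : List ℕ) (B : List Q2) (u w : K) (_ : ∀ e ∈ B, e.ok u w),
    (monQ v B).ok u w
  | [], B, u, w, _ => trivial
  | n :: ns, [], u, w, _ => trivial
  | n :: ns, b :: bs, u, w, h =>
    ⟨ok_pwQ (h b List.mem_cons_self), ok_monQ ns bs u w fun e he => h e (List.mem_cons_of_mem _ he)⟩

lemma BsQ_ok (u w : K) : ∀ e ∈ BsQ, e.ok u w := by
  simp [BsQ]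

end

/-- the data of a term -/
structure TD where
  e : Bool
  al : List ℕ
  be : List ℕ
  c : List ℕ
  e' : Bool
  ua : List ℕ
  uc : List ℕ

/-- the function -/
def TD.fq (t : TD) : Q2 := .c (if t.e then -1 else 1) * (monQ t.al BsQ / monQ t.c BsQ)

/-- the unit -/
def TD.uq (t : TD) : Q2 := monQ t.ua BsQ / monQ t.uc BsQ

/-- the term -/
def TD.tm (t : TD) : Tm := ⟨sub t.al t.c, sub t.be t.c, sub t.ua t.uc⟩

/-- the identity `f + (1 - f) = 1` -/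
def TD.Ok {K : Type*} [Field K] (t : TD) (X Y : K) : Prop :=
  (if t.e then -1 else 1) * monN t.al (Bs X Y) + (if t.e' then -1 else 1) * monN t.be (Bs X Y) =
    monN t.c (Bs X Y)

/-- term 0 -/
def t0 : TD := ⟨true, [2, 0, 1, 1, 0, 0, 0, 0, 0],
  [0, 0, 1, 0, 0, 0, 2, 0, 2],
  [0, 0, 0, 1, 0, 1, 1, 3, 0], false,
  [56, 0, 0, 0, 0, 0, 0, 176, 88],
  [0, 68, 32, 0, 0, 0, 0, 0, 0]⟩

/-- term 1 -/
def t1 : TD := ⟨true, [2, 1, 0, 1, 0, 0, 0, 0, 0],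
  [0, 1, 0, 0, 0, 0, 2, 0, 1],
  [0, 0, 0, 1, 1, 1, 0, 1, 0], false,
  [0, 0, 0, 0, 0, 0, 0, 64, 32],
  [4, 12, 0, 0, 0, 0, 0, 0, 0]⟩

/-- term 2 -/
def t2 : TD := ⟨true, [2, 1, 1, 0, 0, 0, 0, 0, 0],
  [0, 1, 0, 0, 0, 1, 1, 2, 0],
  [0, 0, 1, 0, 1, 1, 0, 0, 1], false,
  [36, 0, 0, 0, 0, 0, 0, 544, 272],
  [0, 32, 140, 0, 0, 0, 0, 0, 0]⟩

/-- term 3 -/
def t3 : TD := ⟨true, [4, 2, 2, 1, 0, 0, 2, 0, 0],
  [0, 0, 4, 2, 2, 2, 0, 0, 2],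
  [0, 3, 0, 0, 0, 2, 4, 3, 0], false,
  [0, 0, 0, 0, 0, 0, 0, 28, 14],
  [0, 7, 0, 0, 0, 0, 0, 0, 0]⟩

/-- term 4 -/
def t4 : TD := ⟨true, [0, 0, 0, 0, 0, 1, 2, 0, 0],
  [0, 0, 2, 1, 0, 1, 0, 0, 2],
  [0, 1, 1, 1, 0, 0, 1, 3, 0], false,
  [0, 68, 32, 0, 0, 0, 0, 0, 0],
  [56, 0, 0, 0, 0, 0, 0, 176, 88]⟩

/-- term 5 -/
def t5 : TD := ⟨true, [0, 0, 0, 0, 1, 1, 2, 0, 0],
  [0, 0, 2, 1, 1, 1, 0, 0, 1],
  [1, 1, 1, 0, 0, 0, 2, 1, 0], false,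
  [4, 12, 0, 0, 0, 0, 0, 0, 0],
  [0, 0, 0, 0, 0, 0, 0, 64, 32]⟩

/-- term 6 -/
def t6 : TD := ⟨true, [0, 0, 0, 0, 1, 1, 1, 0, 0],
  [0, 1, 1, 1, 1, 0, 0, 2, 0],
  [1, 1, 1, 0, 0, 0, 1, 0, 1], false,
  [0, 32, 140, 0, 0, 0, 0, 0, 0],
  [36, 0, 0, 0, 0, 0, 0, 544, 272]⟩

/-- term 7 -/
def t7 : TD := ⟨true, [0, 0, 0, 1, 2, 2, 2, 0, 0],
  [0, 2, 2, 0, 0, 0, 4, 0, 2],
  [0, 3, 2, 2, 2, 0, 0, 3, 0], false,
  [0, 7, 0, 0, 0, 0, 0, 0, 0],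
  [0, 0, 0, 0, 0, 0, 0, 28, 14]⟩

/-- the eight terms -/
def T8 (i : Fin 8) : TD := match i with
  | 0 => t0
  | 1 => t1
  | 2 => t2
  | 3 => t3
  | 4 => t4
  | 5 => t5
  | 6 => t6
  | 7 => t7

theorem T8_tm : tm0 = [t0.tm, t1.tm, t2.tm, t3.tm, t4.tm, t5.tm, t6.tm, t7.tm] := by
  decide +kernel

section

variable {K : Type*} [Field K] {X Y : K}

lemma ok0 (he : Y ^ 2 + 14 * X * Y + 216 * Y = X ^ 3 + 18 * X ^ 2) : t0.Ok X Y := by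
  simp only [TD.Ok, t0, Bs, monN_cons, monN_nil', if_true, Bool.false_eq_true, if_false]
  linear_combination ((1) * X) * he

lemma ok1 (he : Y ^ 2 + 14 * X * Y + 216 * Y = X ^ 3 + 18 * X ^ 2) : t1.Ok X Y := by
  simp only [TD.Ok, t1, Bs, monN_cons, monN_nil', if_true, Bool.false_eq_true, if_false]
  linear_combination ((1) * X) * he

lemma ok2 (he : Y ^ 2 + 14 * X * Y + 216 * Y = X ^ 3 + 18 * X ^ 2) : t2.Ok X Y := by
  simp only [TD.Ok, t2, Bs, monN_cons, monN_nil', if_true, Bool.false_eq_true, if_false]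
  linear_combination ((1) * X) * he

lemma ok3 (he : Y ^ 2 + 14 * X * Y + 216 * Y = X ^ 3 + 18 * X ^ 2) : t3.Ok X Y := by
  simp only [TD.Ok, t3, Bs, monN_cons, monN_nil', if_true, Bool.false_eq_true, if_false]
  linear_combination ((10077696) * Y ^ 3 + (40310784) * X * Y ^ 2 + (40310784) * X ^ 2 * Y +
    (-46656) * Y ^ 4 + (1586304) * X * Y ^ 3 + (7744896) * X ^ 2 * Y ^ 2 + (10450944) * X ^ 3 *
    Y + (3359232) * X ^ 4 + (-7776) * X * Y ^ 4 + (77760) * X ^ 2 * Y ^ 3 + (520992) * X ^ 3 * Y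
    ^ 2 + (931176) * X ^ 4 * Y + (536544) * X ^ 5 + (-432) * X ^ 2 * Y ^ 4 + (864) * X ^ 3 * Y ^
    3 + (14337) * X ^ 4 * Y ^ 2 + (36774) * X ^ 5 * Y + (31590) * X ^ 6 + (-8) * X ^ 3 * Y ^ 4 +
    (-16) * X ^ 4 * Y ^ 3 + (150) * X ^ 5 * Y ^ 2 + (684) * X ^ 6 * Y + (837) * X ^ 7 + (1) * X
    ^ 6 * Y ^ 2 + (6) * X ^ 7 * Y + (9) * X ^ 8) * he

lemma ok4 (he : Y ^ 2 + 14 * X * Y + 216 * Y = X ^ 3 + 18 * X ^ 2) : t4.Ok X Y := by
  simp only [TD.Ok, t4, Bs, monN_cons, monN_nil', if_true, Bool.false_eq_true, if_false]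
  linear_combination ((216) + (-1) * Y + (6) * X) * he

lemma ok5 (he : Y ^ 2 + 14 * X * Y + 216 * Y = X ^ 3 + 18 * X ^ 2) : t5.Ok X Y := by
  simp only [TD.Ok, t5, Bs, monN_cons, monN_nil', if_true, Bool.false_eq_true, if_false]
  linear_combination ((216) * Y + (432) * X + (-1) * Y ^ 2 + (6) * X * Y + (18) * X ^ 2) * he

lemma ok6 (he : Y ^ 2 + 14 * X * Y + 216 * Y = X ^ 3 + 18 * X ^ 2) : t6.Ok X Y := by
  simp only [TD.Ok, t6, Bs, monN_cons, monN_nil', if_true, Bool.false_eq_true, if_false]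
  linear_combination ((216) + (-1) * Y + (9) * X) * he

lemma ok7 (he : Y ^ 2 + 14 * X * Y + 216 * Y = X ^ 3 + 18 * X ^ 2) : t7.Ok X Y := by
  simp only [TD.Ok, t7, Bs, monN_cons, monN_nil', if_true, Bool.false_eq_true, if_false]
  linear_combination ((-90699264) * Y + (419904) * Y ^ 2 + (-23514624) * X * Y + (-7558272) * X
    ^ 2 + (5832) * Y ^ 3 + (174960) * X * Y ^ 2 + (-2047032) * X ^ 2 * Y + (-1049760) * X ^ 3 +
    (-27) * Y ^ 4 + (324) * X * Y ^ 3 + (16767) * X ^ 2 * Y ^ 2 + (-74358) * X ^ 3 * Y +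
    (-48114) * X ^ 4 + (-1) * X * Y ^ 4 + (4) * X ^ 2 * Y ^ 3 + (618) * X ^ 3 * Y ^ 2 + (-972) *
    X ^ 4 * Y + (-729) * X ^ 5 + (8) * X ^ 4 * Y ^ 2) * he

theorem T8_ok (he : Y ^ 2 + 14 * X * Y + 216 * Y = X ^ 3 + 18 * X ^ 2) (i : Fin 8) : (T8 i).Ok X Y :=
  match i with
  | 0 => ok0 he
  | 1 => ok1 he
  | 2 => ok2 he
  | 3 => ok3 he
  | 4 => ok4 he
  | 5 => ok5 he
  | 6 => ok6 he
  | 7 => ok7 he

theorem T8_len (i : Fin 8) : (T8 i).al.length = (T8 i).c.length ∧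
    (T8 i).be.length = (T8 i).c.length ∧ (T8 i).ua.length = (T8 i).uc.length :=
  match i with
  | 0 => ⟨rfl, rfl, rfl⟩
  | 1 => ⟨rfl, rfl, rfl⟩
  | 2 => ⟨rfl, rfl, rfl⟩
  | 3 => ⟨rfl, rfl, rfl⟩
  | 4 => ⟨rfl, rfl, rfl⟩
  | 5 => ⟨rfl, rfl, rfl⟩
  | 6 => ⟨rfl, rfl, rfl⟩
  | 7 => ⟨rfl, rfl, rfl⟩

lemma ev_fq [CharZero K] (t : TD) (U V : K) : t.fq.ev U V =
    (if t.e then -1 else 1) * (monN t.al (Bs (144 * U) (1728 * V)) /
      monN t.c (Bs (144 * U) (1728 * V))) := by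
  unfold TD.fq
  rw [Q2.ev_mul, Q2.ev_div, Q2.ev_c, ev_monQ, ev_monQ, BsQ_ev]
  congr 1
  split <;> push_cast <;> rfl

lemma ev_uq [CharZero K] (t : TD) (U V : K) : t.uq.ev U V =
    monN t.ua (Bs (144 * U) (1728 * V)) / monN t.uc (Bs (144 * U) (1728 * V)) := by
  unfold TD.uq
  rw [Q2.ev_div, ev_monQ, ev_monQ, BsQ_ev]

lemma ev_fq' [CharZero K] (t : TD) (U V : K) (hB : ∀ b ∈ Bs (144 * U) (1728 * V), b ≠ 0)
    (h : t.Ok (144 * U) (1728 * V)) : 1 - t.fq.ev U V =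
    (if t.e' then -1 else 1) * (monN t.be (Bs (144 * U) (1728 * V)) /
      monN t.c (Bs (144 * U) (1728 * V))) := by
  have hc := monN_ne t.c hB
  rw [ev_fq, eq_comm, ← mul_div_assoc, ← mul_div_assoc, eq_sub_iff_add_eq, ← add_div, add_comm,
    div_eq_one_iff_eq hc]
  exact h

end

section real

variable {U V : ℝ} (hB : ∀ b ∈ Bs (144 * U) (1728 * V), b ≠ 0)

include hB

lemma quo_f (i : Fin 8) : Quo (Bs (144 * U) (1728 * V)) ((T8 i).fq.ev U V)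
    ((T8 i).e, (T8 i).al, (T8 i).c) := by
  refine ⟨(T8_len i).1, ?_⟩
  rw [ev_fq, mul_assoc, div_mul_cancel₀ _ (monN_ne _ hB)]

lemma quo_g (i : Fin 8) (h : (T8 i).Ok (144 * U) (1728 * V)) :
    Quo (Bs (144 * U) (1728 * V)) (1 - (T8 i).fq.ev U V)
    ((T8 i).e', (T8 i).be, (T8 i).c) := by
  refine ⟨(T8_len i).2.1, ?_⟩
  rw [ev_fq' _ _ _ hB h, mul_assoc, div_mul_cancel₀ _ (monN_ne _ hB)]

lemma quo_u (i : Fin 8) : Quo (Bs (144 * U) (1728 * V)) ((T8 i).uq.ev U V)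
    (false, (T8 i).ua, (T8 i).uc) := by
  refine ⟨(T8_len i).2.2, ?_⟩
  rw [ev_uq, div_mul_cancel₀ _ (monN_ne _ hB)]
  simp

end real

end Pool.Agent.R8d
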