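import Pool.Agent.Lib_helper7.R8d.C

set_option autoImplicit false
set_option linter.unusedVariables false
set_option linter.unusedSimpArgs false

/-!
Translation by `P` on the units and on their signs; every point has a translate on the arc.
-/

namespace Pool.Agent.R8d

open Pool.Agent.K4N.LA

/-- translation by `P`: signs and monomials -/
def R8 : List (Bool × List ℕ × List ℕ) :=
  [(true, [0, 0, 0, 0, 1, 0, 0, 3, 3], [2, 0, 0, 0, 0, 0, 0, 0, 0]),
   (false, [0, 0, 0, 0, 1, 1, 0, 1, 2], [2, 1, 0, 0, 0, 0, 0, 0, 0]),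
   (false, [0, 0, 0, 0, 0, 1, 1, 3, 1], [2, 0, 1, 0, 0, 0, 0, 0, 0]),
   (false, [0, 0, 0, 0, 0, 0, 2, 0, 3], [2, 0, 0, 1, 0, 0, 0, 0, 0]),
   (false, [0, 0, 0, 0, 1, 1, 0, 4, 5], [3, 1, 0, 0, 0, 0, 0, 0, 0]),
   (true, [0, 0, 0, 0, 1, 1, 1, 4, 3], [3, 1, 1, 0, 0, 0, 0, 0, 0]),
   (true, [0, 0, 0, 0, 0, 1, 2, 3, 4], [3, 0, 1, 1, 0, 0, 0, 0, 0]),
   (false, [0, 0, 0, 0, 0, 0, 0, 1, 0], [0, 0, 0, 0, 0, 0, 0, 0, 0]),
   (false, [0, 0, 0, 0, 0, 0, 0, 0, 1], [0, 0, 0, 0, 0, 0, 0, 0, 0])]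

theorem A8_eq : A8 = R8.map fun r => sub r.2.1 r.2.2 := by decide +kernel

/-- the translation on the signs -/
def Tsg (S : List Bool) : List Bool := R8.map fun r => xor r.1 (xor (par r.2.1 S) (par r.2.2 S))

section

variable {X Y X' Y' : ℝ}

lemma st0 (he : Y ^ 2 + 14 * X * Y + 216 * Y = X ^ 3 + 18 * X ^ 2) (hX : X' * X ^ 2 = -216 * Y)
    (hY : Y' * X ^ 3 = 3888 * (X ^ 2 - 12 * Y)) : Quo (Bs X Y) (X') (true, [0, 0, 0, 0, 1, 0, 0,
    3, 3], [2, 0, 0, 0, 0, 0, 0, 0, 0]) := by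
  refine ⟨rfl, ?_⟩
  simp only [Bs, monN_cons, monN_nil', if_true, Bool.false_eq_true, if_false]
  linear_combination ((1)) * hX + (0) * he

lemma st1 (he : Y ^ 2 + 14 * X * Y + 216 * Y = X ^ 3 + 18 * X ^ 2) (hX : X' * X ^ 2 = -216 * Y)
    (hY : Y' * X ^ 3 = 3888 * (X ^ 2 - 12 * Y)) : Quo (Bs X Y) (X' + 18) (false, [0, 0, 0, 0, 1,
    1, 0, 1, 2], [2, 1, 0, 0, 0, 0, 0, 0, 0]) := by
  refine ⟨rfl, ?_⟩
  simp only [Bs, monN_cons, monN_nil', if_true, Bool.false_eq_true, if_false]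
  linear_combination ((18) + (1) * X) * hX + ((-18)) * he

lemma st2 (he : Y ^ 2 + 14 * X * Y + 216 * Y = X ^ 3 + 18 * X ^ 2) (hX : X' * X ^ 2 = -216 * Y)
    (hY : Y' * X ^ 3 = 3888 * (X ^ 2 - 12 * Y)) : Quo (Bs X Y) (X' + 24) (false, [0, 0, 0, 0, 0,
    1, 1, 3, 1], [2, 0, 1, 0, 0, 0, 0, 0, 0]) := by
  refine ⟨rfl, ?_⟩
  simp only [Bs, monN_cons, monN_nil', if_true, Bool.false_eq_true, if_false]
  linear_combination ((24) + (1) * X) * hX + ((-24)) * he

lemma st3 (he : Y ^ 2 + 14 * X * Y + 216 * Y = X ^ 3 + 18 * X ^ 2) (hX : X' * X ^ 2 = -216 * Y)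
    (hY : Y' * X ^ 3 = 3888 * (X ^ 2 - 12 * Y)) : Quo (Bs X Y) (X' + 27) (false, [0, 0, 0, 0, 0,
    0, 2, 0, 3], [2, 0, 0, 1, 0, 0, 0, 0, 0]) := by
  refine ⟨rfl, ?_⟩
  simp only [Bs, monN_cons, monN_nil', if_true, Bool.false_eq_true, if_false]
  linear_combination ((27) + (1) * X) * hX + ((-27)) * he

lemma st4 (he : Y ^ 2 + 14 * X * Y + 216 * Y = X ^ 3 + 18 * X ^ 2) (hX : X' * X ^ 2 = -216 * Y)
    (hY : Y' * X ^ 3 = 3888 * (X ^ 2 - 12 * Y)) : Quo (Bs X Y) (Y') (false, [0, 0, 0, 0, 1, 1,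
    0, 4, 5], [3, 1, 0, 0, 0, 0, 0, 0, 0]) := by
  refine ⟨rfl, ?_⟩
  simp only [Bs, monN_cons, monN_nil', if_true, Bool.false_eq_true, if_false]
  linear_combination ((18) + (1) * X) * hY + ((-3888)) * he

lemma st5 (he : Y ^ 2 + 14 * X * Y + 216 * Y = X ^ 3 + 18 * X ^ 2) (hX : X' * X ^ 2 = -216 * Y)
    (hY : Y' * X ^ 3 = 3888 * (X ^ 2 - 12 * Y)) : Quo (Bs X Y) (Y' + 2 * X') (true, [0, 0, 0, 0,
    1, 1, 1, 4, 3], [3, 1, 1, 0, 0, 0, 0, 0, 0]) := by
  refine ⟨rfl, ?_⟩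
  simp only [Bs, monN_cons, monN_nil', if_true, Bool.false_eq_true, if_false]
  linear_combination ((432) + (42) * X + (1) * X ^ 2) * hY + (2) * ((432) * X + (42) * X ^ 2 +
    (1) * X ^ 3) * hX + ((-93312) + (432) * Y + (-3888) * X) * he

lemma st6 (he : Y ^ 2 + 14 * X * Y + 216 * Y = X ^ 3 + 18 * X ^ 2) (hX : X' * X ^ 2 = -216 * Y)
    (hY : Y' * X ^ 3 = 3888 * (X ^ 2 - 12 * Y)) : Quo (Bs X Y) (Y' + 3 * X') (true, [0, 0, 0, 0,
    0, 1, 2, 3, 4], [3, 0, 1, 1, 0, 0, 0, 0, 0]) := by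
  refine ⟨rfl, ?_⟩
  simp only [Bs, monN_cons, monN_nil', if_true, Bool.false_eq_true, if_false]
  linear_combination ((648) + (51) * X + (1) * X ^ 2) * hY + (3) * ((648) * X + (51) * X ^ 2 +
    (1) * X ^ 3) * hX + ((-139968) + (648) * Y + (-3888) * X) * he

lemma st7 : Quo (Bs X Y) (2) (false, [0, 0, 0, 0, 0, 0, 0, 1, 0], [0, 0, 0, 0, 0, 0, 0, 0, 0]) := by
  refine ⟨rfl, ?_⟩
  simp only [Bs, monN_cons, monN_nil', Bool.false_eq_true, if_false]
  ring

lemma st8 : Quo (Bs X Y) (3) (false, [0, 0, 0, 0, 0, 0, 0, 0, 1], [0, 0, 0, 0, 0, 0, 0, 0, 0]) := by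
  refine ⟨rfl, ?_⟩
  simp only [Bs, monN_cons, monN_nil', Bool.false_eq_true, if_false]
  ring

theorem step (he : Y ^ 2 + 14 * X * Y + 216 * Y = X ^ 3 + 18 * X ^ 2) (hX : X' * X ^ 2 = -216 * Y)
    (hY : Y' * X ^ 3 = 3888 * (X ^ 2 - 12 * Y)) :
    List.Forall₂ (fun b r => Quo (Bs X Y) b r) (Bs X' Y') R8 :=
  .cons (st0 he hX hY) (.cons (st1 he hX hY) (.cons (st2 he hX hY) (.cons (st3 he hX hY)
    (.cons (st4 he hX hY) (.cons (st5 he hX hY) (.cons (st6 he hX hY)
    (.cons st7 (.cons st8 .nil))))))))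

theorem step_log (hB : ∀ b ∈ Bs X Y, b ≠ 0) (he : Y ^ 2 + 14 * X * Y + 216 * Y = X ^ 3 + 18 * X ^ 2)
    (hX : X' * X ^ 2 = -216 * Y) (hY : Y' * X ^ 3 = 3888 * (X ^ 2 - 12 * Y)) :
    (Bs X' Y').map Real.log = A8.map fun r => lin r ((Bs X Y).map Real.log) := by
  rw [logs_of hB (step he hX hY), A8_eq, List.map_map]
  rfl

theorem step_sb (hB : ∀ b ∈ Bs X Y, b ≠ 0) (he : Y ^ 2 + 14 * X * Y + 216 * Y = X ^ 3 + 18 * X ^ 2)
    (hX : X' * X ^ 2 = -216 * Y) (hY : Y' * X ^ 3 = 3888 * (X ^ 2 - 12 * Y)) :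
    (Bs X' Y').map sb = Tsg ((Bs X Y).map sb) :=
  sbs_of hB (step he hX hY)

/-- the eight patterns -/
def pats : List (List Bool) :=
  [[true, true, true, false, false, false, false, false, false],
   [true, true, true, false, false, false, true, false, false],
   [true, true, false, false, false, false, true, false, false],
   [true, true, false, false, false, true, true, false, false],
   [true, false, false, false, false, true, true, false, false],
   [true, false, false, false, true, true, true, false, false],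
   [false, false, false, false, false, false, false, false, false],
   [false, false, false, false, true, true, true, false, false]]

theorem pats_reach : ∀ S ∈ pats, ∃ n ∈ List.range 8, Tsg^[n] S = List.replicate 9 false := by
  decide +kernel

lemma psi_sq (he : Y ^ 2 + 14 * X * Y + 216 * Y = X ^ 3 + 18 * X ^ 2) :
    (2 * Y + 14 * X + 216) ^ 2 = (X + 27) * (4 * X ^ 2 + 160 * X + 1728) := by
  linear_combination 4 * he

lemma X_gt (hB : ∀ b ∈ Bs X Y, b ≠ 0) (he : Y ^ 2 + 14 * X * Y + 216 * Y = X ^ 3 + 18 * X ^ 2) :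
    -27 < X ∧ 2 * Y + 14 * X + 216 ≠ 0 := by
  have h1 : X + 27 ≠ 0 := hB _ (by simp [Bs])
  have h2 := psi_sq he
  have h3 : 0 < 4 * X ^ 2 + 160 * X + 1728 := by nlinarith [sq_nonneg (X + 20)]
  have h4 : 0 ≤ X + 27 := by
    by_contra hh
    push Not at hh
    have := mul_neg_of_neg_of_pos hh h3
    have := sq_nonneg (2 * Y + 14 * X + 216)
    linarith
  refine ⟨by linarith [lt_of_le_of_ne h4 (Ne.symm h1)], fun h5 => ?_⟩
  rw [h5] at h2
  exact (mul_ne_zero h1 h3.ne') (by linarith)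

lemma neg_nt {R R' : ℝ} (h1 : 0 < R * R') (h2 : R + R' < 0) : R < 0 := by
  have := pos_nt (R := -R) (R' := -R') (by linarith [neg_mul_neg R R']) (by linarith)
  linarith

lemma neg_nb {R R' : ℝ} (h1 : R * R' < 0) (h2 : R - R' < 0) : R < 0 := by
  have := pos_nb (R := -R) (R' := -R') (by linarith [neg_mul_neg R R']) (by linarith)
  linarith

lemma pat0u (he : Y ^ 2 + 14 * X * Y + 216 * Y = X ^ 3 + 18 * X ^ 2) (h1 : -27 < X) (h2 : X <
    -24) (hp : 0 < 2 * Y + 14 * X + 216) : (Bs X Y).map sb = [true, true, true, false, false,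
    false, false, false, false] := by
  have b0 : X < 0 := by linarith
  have b1 : X + 18 < 0 := by linarith
  have b2 : X + 24 < 0 := by linarith
  have b3 : 0 < X + 27 := by linarith
  have q4 : 0 < (0 - X) * (0 - X) * (-18 - X) := by
    refine mul_pos (mul_pos ?_ ?_) ?_ <;> linarith
  have n4 : Y * (-14 * X - 216 - Y + 0 * X) = ((0 - X) * (0 - X) * (-18 - X)) := by
    linear_combination (-1) * he
  have b4 : 0 < Y := pos_nt (R' := -14 * X - 216 - Y + 0 * X) (by rw [n4]; linarith) (by linarith)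
  have q5 : 0 < (0 - X) * (-18 - X) * (-24 - X) := by
    refine mul_pos (mul_pos ?_ ?_) ?_ <;> linarith
  have n5 : (Y + 2 * X) * (-14 * X - 216 - Y + 2 * X) = ((0 - X) * (-18 - X) * (-24 - X)) := by
    linear_combination (-1) * he
  have b5 : 0 < Y + 2 * X := pos_nt (R' := -14 * X - 216 - Y + 2 * X) (by rw [n5]; linarith) (by linarith)
  have q6 : 0 < (0 - X) * (-24 - X) * (X + 27) := by
    refine mul_pos (mul_pos ?_ ?_) ?_ <;> linarith
  have n6 : (Y + 3 * X) * (-14 * X - 216 - Y + 3 * X) = -((0 - X) * (-24 - X) * (X + 27)) := by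
    linear_combination (-1) * he
  have b6 : 0 < Y + 3 * X := pos_nb (R' := -14 * X - 216 - Y + 3 * X) (by rw [n6]; linarith) (by linarith)
  simp only [Bs, List.map_cons, List.map_nil]
  rw [sb_of_neg b0, sb_of_neg b1, sb_of_neg b2, sb_of_pos b3,
    sb_of_pos b4, sb_of_pos b5, sb_of_pos b6,
    sb_of_pos (by norm_num : (0 : ℝ) < 2), sb_of_pos (by norm_num : (0 : ℝ) < 3)]

lemma pat0l (he : Y ^ 2 + 14 * X * Y + 216 * Y = X ^ 3 + 18 * X ^ 2) (h1 : -27 < X) (h2 : X <
    -24) (hp : 2 * Y + 14 * X + 216 < 0) : (Bs X Y).map sb = [true, true, true, false, false,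
    false, true, false, false] := by
  have b0 : X < 0 := by linarith
  have b1 : X + 18 < 0 := by linarith
  have b2 : X + 24 < 0 := by linarith
  have b3 : 0 < X + 27 := by linarith
  have q4 : 0 < (0 - X) * (0 - X) * (-18 - X) := by
    refine mul_pos (mul_pos ?_ ?_) ?_ <;> linarith
  have n4 : Y * (-14 * X - 216 - Y + 0 * X) = ((0 - X) * (0 - X) * (-18 - X)) := by
    linear_combination (-1) * he
  have b4 : 0 < Y := pos_nt (R' := -14 * X - 216 - Y + 0 * X) (by rw [n4]; linarith) (by linarith)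
  have q5 : 0 < (0 - X) * (-18 - X) * (-24 - X) := by
    refine mul_pos (mul_pos ?_ ?_) ?_ <;> linarith
  have n5 : (Y + 2 * X) * (-14 * X - 216 - Y + 2 * X) = ((0 - X) * (-18 - X) * (-24 - X)) := by
    linear_combination (-1) * he
  have b5 : 0 < Y + 2 * X := pos_nt (R' := -14 * X - 216 - Y + 2 * X) (by rw [n5]; linarith) (by linarith)
  have q6 : 0 < (0 - X) * (-24 - X) * (X + 27) := by
    refine mul_pos (mul_pos ?_ ?_) ?_ <;> linarith
  have n6 : (Y + 3 * X) * (-14 * X - 216 - Y + 3 * X) = -((0 - X) * (-24 - X) * (X + 27)) := by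
    linear_combination (-1) * he
  have b6 : Y + 3 * X < 0 := neg_nb (R' := -14 * X - 216 - Y + 3 * X) (by rw [n6]; linarith) (by linarith)
  simp only [Bs, List.map_cons, List.map_nil]
  rw [sb_of_neg b0, sb_of_neg b1, sb_of_neg b2, sb_of_pos b3,
    sb_of_pos b4, sb_of_pos b5, sb_of_neg b6,
    sb_of_pos (by norm_num : (0 : ℝ) < 2), sb_of_pos (by norm_num : (0 : ℝ) < 3)]

lemma pat1u (he : Y ^ 2 + 14 * X * Y + 216 * Y = X ^ 3 + 18 * X ^ 2) (h1 : -24 < X) (h2 : X <
    -18) (hp : 0 < 2 * Y + 14 * X + 216) : (Bs X Y).map sb = [true, true, false, false, false,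
    false, true, false, false] := by
  have b0 : X < 0 := by linarith
  have b1 : X + 18 < 0 := by linarith
  have b2 : 0 < X + 24 := by linarith
  have b3 : 0 < X + 27 := by linarith
  have q4 : 0 < (0 - X) * (0 - X) * (-18 - X) := by
    refine mul_pos (mul_pos ?_ ?_) ?_ <;> linarith
  have n4 : Y * (-14 * X - 216 - Y + 0 * X) = ((0 - X) * (0 - X) * (-18 - X)) := by
    linear_combination (-1) * he
  have b4 : 0 < Y := pos_nt (R' := -14 * X - 216 - Y + 0 * X) (by rw [n4]; linarith) (by linarith)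
  have q5 : 0 < (0 - X) * (-18 - X) * (X + 24) := by
    refine mul_pos (mul_pos ?_ ?_) ?_ <;> linarith
  have n5 : (Y + 2 * X) * (-14 * X - 216 - Y + 2 * X) = -((0 - X) * (-18 - X) * (X + 24)) := by
    linear_combination (-1) * he
  have b5 : 0 < Y + 2 * X := pos_nb (R' := -14 * X - 216 - Y + 2 * X) (by rw [n5]; linarith) (by linarith)
  have q6 : 0 < (0 - X) * (X + 24) * (X + 27) := by
    refine mul_pos (mul_pos ?_ ?_) ?_ <;> linarith
  have n6 : (Y + 3 * X) * (-14 * X - 216 - Y + 3 * X) = ((0 - X) * (X + 24) * (X + 27)) := by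
    linear_combination (-1) * he
  have b6 : Y + 3 * X < 0 := neg_nt (R' := -14 * X - 216 - Y + 3 * X) (by rw [n6]; linarith) (by linarith)
  simp only [Bs, List.map_cons, List.map_nil]
  rw [sb_of_neg b0, sb_of_neg b1, sb_of_pos b2, sb_of_pos b3,
    sb_of_pos b4, sb_of_pos b5, sb_of_neg b6,
    sb_of_pos (by norm_num : (0 : ℝ) < 2), sb_of_pos (by norm_num : (0 : ℝ) < 3)]

lemma pat1l (he : Y ^ 2 + 14 * X * Y + 216 * Y = X ^ 3 + 18 * X ^ 2) (h1 : -24 < X) (h2 : X <
    -18) (hp : 2 * Y + 14 * X + 216 < 0) : (Bs X Y).map sb = [true, true, false, false, false,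
    true, true, false, false] := by
  have b0 : X < 0 := by linarith
  have b1 : X + 18 < 0 := by linarith
  have b2 : 0 < X + 24 := by linarith
  have b3 : 0 < X + 27 := by linarith
  have q4 : 0 < (0 - X) * (0 - X) * (-18 - X) := by
    refine mul_pos (mul_pos ?_ ?_) ?_ <;> linarith
  have n4 : Y * (-14 * X - 216 - Y + 0 * X) = ((0 - X) * (0 - X) * (-18 - X)) := by
    linear_combination (-1) * he
  have b4 : 0 < Y := pos_nt (R' := -14 * X - 216 - Y + 0 * X) (by rw [n4]; linarith) (by linarith)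
  have q5 : 0 < (0 - X) * (-18 - X) * (X + 24) := by
    refine mul_pos (mul_pos ?_ ?_) ?_ <;> linarith
  have n5 : (Y + 2 * X) * (-14 * X - 216 - Y + 2 * X) = -((0 - X) * (-18 - X) * (X + 24)) := by
    linear_combination (-1) * he
  have b5 : Y + 2 * X < 0 := neg_nb (R' := -14 * X - 216 - Y + 2 * X) (by rw [n5]; linarith) (by linarith)
  have q6 : 0 < (0 - X) * (X + 24) * (X + 27) := by
    refine mul_pos (mul_pos ?_ ?_) ?_ <;> linarith
  have n6 : (Y + 3 * X) * (-14 * X - 216 - Y + 3 * X) = ((0 - X) * (X + 24) * (X + 27)) := by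
    linear_combination (-1) * he
  have b6 : Y + 3 * X < 0 := neg_nt (R' := -14 * X - 216 - Y + 3 * X) (by rw [n6]; linarith) (by linarith)
  simp only [Bs, List.map_cons, List.map_nil]
  rw [sb_of_neg b0, sb_of_neg b1, sb_of_pos b2, sb_of_pos b3,
    sb_of_pos b4, sb_of_neg b5, sb_of_neg b6,
    sb_of_pos (by norm_num : (0 : ℝ) < 2), sb_of_pos (by norm_num : (0 : ℝ) < 3)]

lemma pat2u (he : Y ^ 2 + 14 * X * Y + 216 * Y = X ^ 3 + 18 * X ^ 2) (h1 : -18 < X) (h2 : X < 0)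
    (hp : 0 < 2 * Y + 14 * X + 216) : (Bs X Y).map sb = [true, false, false, false, false, true,
    true, false, false] := by
  have b0 : X < 0 := by linarith
  have b1 : 0 < X + 18 := by linarith
  have b2 : 0 < X + 24 := by linarith
  have b3 : 0 < X + 27 := by linarith
  have q4 : 0 < (0 - X) * (0 - X) * (X + 18) := by
    refine mul_pos (mul_pos ?_ ?_) ?_ <;> linarith
  have n4 : Y * (-14 * X - 216 - Y + 0 * X) = -((0 - X) * (0 - X) * (X + 18)) := by
    linear_combination (-1) * he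
  have b4 : 0 < Y := pos_nb (R' := -14 * X - 216 - Y + 0 * X) (by rw [n4]; linarith) (by linarith)
  have q5 : 0 < (0 - X) * (X + 18) * (X + 24) := by
    refine mul_pos (mul_pos ?_ ?_) ?_ <;> linarith
  have n5 : (Y + 2 * X) * (-14 * X - 216 - Y + 2 * X) = ((0 - X) * (X + 18) * (X + 24)) := by
    linear_combination (-1) * he
  have b5 : Y + 2 * X < 0 := neg_nt (R' := -14 * X - 216 - Y + 2 * X) (by rw [n5]; linarith) (by linarith)
  have q6 : 0 < (0 - X) * (X + 24) * (X + 27) := by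
    refine mul_pos (mul_pos ?_ ?_) ?_ <;> linarith
  have n6 : (Y + 3 * X) * (-14 * X - 216 - Y + 3 * X) = ((0 - X) * (X + 24) * (X + 27)) := by
    linear_combination (-1) * he
  have b6 : Y + 3 * X < 0 := neg_nt (R' := -14 * X - 216 - Y + 3 * X) (by rw [n6]; linarith) (by linarith)
  simp only [Bs, List.map_cons, List.map_nil]
  rw [sb_of_neg b0, sb_of_pos b1, sb_of_pos b2, sb_of_pos b3,
    sb_of_pos b4, sb_of_neg b5, sb_of_neg b6,
    sb_of_pos (by norm_num : (0 : ℝ) < 2), sb_of_pos (by norm_num : (0 : ℝ) < 3)]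

lemma pat2l (he : Y ^ 2 + 14 * X * Y + 216 * Y = X ^ 3 + 18 * X ^ 2) (h1 : -18 < X) (h2 : X < 0)
    (hp : 2 * Y + 14 * X + 216 < 0) : (Bs X Y).map sb = [true, false, false, false, true, true,
    true, false, false] := by
  have b0 : X < 0 := by linarith
  have b1 : 0 < X + 18 := by linarith
  have b2 : 0 < X + 24 := by linarith
  have b3 : 0 < X + 27 := by linarith
  have q4 : 0 < (0 - X) * (0 - X) * (X + 18) := by
    refine mul_pos (mul_pos ?_ ?_) ?_ <;> linarith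
  have n4 : Y * (-14 * X - 216 - Y + 0 * X) = -((0 - X) * (0 - X) * (X + 18)) := by
    linear_combination (-1) * he
  have b4 : Y < 0 := neg_nb (R' := -14 * X - 216 - Y + 0 * X) (by rw [n4]; linarith) (by linarith)
  have q5 : 0 < (0 - X) * (X + 18) * (X + 24) := by
    refine mul_pos (mul_pos ?_ ?_) ?_ <;> linarith
  have n5 : (Y + 2 * X) * (-14 * X - 216 - Y + 2 * X) = ((0 - X) * (X + 18) * (X + 24)) := by
    linear_combination (-1) * he
  have b5 : Y + 2 * X < 0 := neg_nt (R' := -14 * X - 216 - Y + 2 * X) (by rw [n5]; linarith) (by linarith)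
  have q6 : 0 < (0 - X) * (X + 24) * (X + 27) := by
    refine mul_pos (mul_pos ?_ ?_) ?_ <;> linarith
  have n6 : (Y + 3 * X) * (-14 * X - 216 - Y + 3 * X) = ((0 - X) * (X + 24) * (X + 27)) := by
    linear_combination (-1) * he
  have b6 : Y + 3 * X < 0 := neg_nt (R' := -14 * X - 216 - Y + 3 * X) (by rw [n6]; linarith) (by linarith)
  simp only [Bs, List.map_cons, List.map_nil]
  rw [sb_of_neg b0, sb_of_pos b1, sb_of_pos b2, sb_of_pos b3,
    sb_of_neg b4, sb_of_neg b5, sb_of_neg b6,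
    sb_of_pos (by norm_num : (0 : ℝ) < 2), sb_of_pos (by norm_num : (0 : ℝ) < 3)]

lemma pat3u (he : Y ^ 2 + 14 * X * Y + 216 * Y = X ^ 3 + 18 * X ^ 2) (h1 : 0 < X) (hp : 0 < 2 *
    Y + 14 * X + 216) : (Bs X Y).map sb = [false, false, false, false, false, false, false,
    false, false] := by
  have b0 : 0 < X := by linarith
  have b1 : 0 < X + 18 := by linarith
  have b2 : 0 < X + 24 := by linarith
  have b3 : 0 < X + 27 := by linarith
  have q4 : 0 < X * X * (X + 18) := by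
    refine mul_pos (mul_pos ?_ ?_) ?_ <;> linarith
  have n4 : Y * (-14 * X - 216 - Y + 0 * X) = -(X * X * (X + 18)) := by
    linear_combination (-1) * he
  have b4 : 0 < Y := pos_nb (R' := -14 * X - 216 - Y + 0 * X) (by rw [n4]; linarith) (by linarith)
  have q5 : 0 < X * (X + 18) * (X + 24) := by
    refine mul_pos (mul_pos ?_ ?_) ?_ <;> linarith
  have n5 : (Y + 2 * X) * (-14 * X - 216 - Y + 2 * X) = -(X * (X + 18) * (X + 24)) := by
    linear_combination (-1) * he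
  have b5 : 0 < Y + 2 * X := pos_nb (R' := -14 * X - 216 - Y + 2 * X) (by rw [n5]; linarith) (by linarith)
  have q6 : 0 < X * (X + 24) * (X + 27) := by
    refine mul_pos (mul_pos ?_ ?_) ?_ <;> linarith
  have n6 : (Y + 3 * X) * (-14 * X - 216 - Y + 3 * X) = -(X * (X + 24) * (X + 27)) := by
    linear_combination (-1) * he
  have b6 : 0 < Y + 3 * X := pos_nb (R' := -14 * X - 216 - Y + 3 * X) (by rw [n6]; linarith) (by linarith)
  simp only [Bs, List.map_cons, List.map_nil]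
  rw [sb_of_pos b0, sb_of_pos b1, sb_of_pos b2, sb_of_pos b3,
    sb_of_pos b4, sb_of_pos b5, sb_of_pos b6,
    sb_of_pos (by norm_num : (0 : ℝ) < 2), sb_of_pos (by norm_num : (0 : ℝ) < 3)]

lemma pat3l (he : Y ^ 2 + 14 * X * Y + 216 * Y = X ^ 3 + 18 * X ^ 2) (h1 : 0 < X) (hp : 2 * Y +
    14 * X + 216 < 0) : (Bs X Y).map sb = [false, false, false, false, true, true, true, false,
    false] := by
  have b0 : 0 < X := by linarith
  have b1 : 0 < X + 18 := by linarith
  have b2 : 0 < X + 24 := by linarith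
  have b3 : 0 < X + 27 := by linarith
  have q4 : 0 < X * X * (X + 18) := by
    refine mul_pos (mul_pos ?_ ?_) ?_ <;> linarith
  have n4 : Y * (-14 * X - 216 - Y + 0 * X) = -(X * X * (X + 18)) := by
    linear_combination (-1) * he
  have b4 : Y < 0 := neg_nb (R' := -14 * X - 216 - Y + 0 * X) (by rw [n4]; linarith) (by linarith)
  have q5 : 0 < X * (X + 18) * (X + 24) := by
    refine mul_pos (mul_pos ?_ ?_) ?_ <;> linarith
  have n5 : (Y + 2 * X) * (-14 * X - 216 - Y + 2 * X) = -(X * (X + 18) * (X + 24)) := by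
    linear_combination (-1) * he
  have b5 : Y + 2 * X < 0 := neg_nb (R' := -14 * X - 216 - Y + 2 * X) (by rw [n5]; linarith) (by linarith)
  have q6 : 0 < X * (X + 24) * (X + 27) := by
    refine mul_pos (mul_pos ?_ ?_) ?_ <;> linarith
  have n6 : (Y + 3 * X) * (-14 * X - 216 - Y + 3 * X) = -(X * (X + 24) * (X + 27)) := by
    linear_combination (-1) * he
  have b6 : Y + 3 * X < 0 := neg_nb (R' := -14 * X - 216 - Y + 3 * X) (by rw [n6]; linarith) (by linarith)
  simp only [Bs, List.map_cons, List.map_nil]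
  rw [sb_of_pos b0, sb_of_pos b1, sb_of_pos b2, sb_of_pos b3,
    sb_of_neg b4, sb_of_neg b5, sb_of_neg b6,
    sb_of_pos (by norm_num : (0 : ℝ) < 2), sb_of_pos (by norm_num : (0 : ℝ) < 3)]

theorem pat_mem (hB : ∀ b ∈ Bs X Y, b ≠ 0) (he : Y ^ 2 + 14 * X * Y + 216 * Y = X ^ 3 + 18 * X ^ 2) :
    (Bs X Y).map sb ∈ pats := by
  obtain ⟨h0, hp⟩ := X_gt hB he
  have b0 : X ≠ 0 := hB _ (by simp [Bs])
  have b1 : X + 18 ≠ 0 := hB _ (by simp [Bs])
  have b2 : X + 24 ≠ 0 := hB _ (by simp [Bs])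
  unfold pats
  rcases lt_or_gt_of_ne b2 with h1 | h1
  · rcases lt_or_gt_of_ne hp with h | h
    · rw [pat0l he h0 (by linarith) h]; simp
    · rw [pat0u he h0 (by linarith) h]; simp
  rcases lt_or_gt_of_ne b1 with h2 | h2
  · rcases lt_or_gt_of_ne hp with h | h
    · rw [pat1l he (by linarith) (by linarith) h]; simp
    · rw [pat1u he (by linarith) (by linarith) h]; simp
  rcases lt_or_gt_of_ne b0 with h3 | h3
  · rcases lt_or_gt_of_ne hp with h | h
    · rw [pat2l he (by linarith) h3 h]; simp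
    · rw [pat2u he (by linarith) h3 h]; simp
  · rcases lt_or_gt_of_ne hp with h | h
    · rw [pat3l he h3 h]; simp
    · rw [pat3u he h3 h]; simp

/-- the point with positive units is on the arc -/
theorem arc_of (he : Y ^ 2 + 14 * X * Y + 216 * Y = X ^ 3 + 18 * X ^ 2) (hB : ∀ b ∈ Bs X Y, b ≠ 0)
    (h : (Bs X Y).map sb = List.replicate 9 false) : Arc X Y := by
  have hpos : ∀ b ∈ Bs X Y, 0 < b := by
    intro b hb
    have h1 : sb b ∈ (Bs X Y).map sb := List.mem_map_of_mem hb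
    rw [h] at h1
    have h2 := List.eq_of_mem_replicate h1
    rcases lt_or_gt_of_ne (hB b hb) with h3 | h3
    · rw [sb_of_neg h3] at h2
      exact absurd h2 (by decide)
    · exact h3
  exact ⟨he, hpos _ (by simp [Bs]), hpos _ (by simp [Bs])⟩

end

end Pool.Agent.R8d
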