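import Pool.Agent.Lib_helper7.R8d.W
import Pool.Agent.Lib_helper7.R8d.S
import Pool.Agent.Lib_helper7.R8d.Pt

set_option autoImplicit false

/-!
The total density of the class is positive at every real point.
-/

namespace Pool.Agent.R8d

open Pool.Agent.K4N Pool.Agent.K4N.LA Filter Topology

/-- the logarithms of the units -/
noncomputable def aL (p : ℝ × ℝ) : List ℝ := (Bs (144 * p.1) (1728 * p.2)).map Real.log

/-- the logarithmic derivatives of the units -/
noncomputable def dl (X Y : ℝ) : List ℝ :=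
  [(2 * Y + 14 * X + 216) / X, (2 * Y + 14 * X + 216) / (X + 18),
   (2 * Y + 14 * X + 216) / (X + 24), (2 * Y + 14 * X + 216) / (X + 27),
   (3 * X ^ 2 + 36 * X - 14 * Y) / Y,
   (3 * X ^ 2 + 36 * X - 14 * Y + 2 * (2 * Y + 14 * X + 216)) / (Y + 2 * X),
   (3 * X ^ 2 + 36 * X - 14 * Y + 3 * (2 * Y + 14 * X + 216)) / (Y + 3 * X)]

/-- the same along a path -/
noncomputable def dL (K : ℝ) (p : ℝ × ℝ) : List ℝ := (dl (144 * p.1) (1728 * p.2)).map (K * ·)

lemma dv_of {X Y : ℝ} (hB : ∀ b ∈ Bs X Y, b ≠ 0) :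
    Dv X Y ((2 * Y + 14 * X + 216) / X) ((2 * Y + 14 * X + 216) / (X + 18))
      ((2 * Y + 14 * X + 216) / (X + 24)) ((2 * Y + 14 * X + 216) / (X + 27))
      ((3 * X ^ 2 + 36 * X - 14 * Y) / Y)
      ((3 * X ^ 2 + 36 * X - 14 * Y + 2 * (2 * Y + 14 * X + 216)) / (Y + 2 * X))
      ((3 * X ^ 2 + 36 * X - 14 * Y + 3 * (2 * Y + 14 * X + 216)) / (Y + 3 * X)) := by
  simp only [Bs, List.forall_mem_cons] at hB
  obtain ⟨h0, h1, h2, h3, h4, h5, h6, -⟩ := hB
  exact ⟨div_mul_cancel₀ _ h0, div_mul_cancel₀ _ h1, div_mul_cancel₀ _ h2, div_mul_cancel₀ _ h3,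
    div_mul_cancel₀ _ h4, div_mul_cancel₀ _ h5, div_mul_cancel₀ _ h6⟩

/-- `b` -/
abbrev bb : ℝ := ((-1 / 8 : ℚ) : ℝ)
/-- `c` -/
abbrev cc : ℝ := ((-1 / 6 : ℚ) : ℝ)

lemma bb_eq : bb = -1 / 8 := by
  unfold bb
  push_cast
  norm_num

lemma cc_eq : cc = -1 / 6 := by
  unfold cc
  push_cast
  norm_num

lemma curve {U V : ℝ} (h : V ^ 2 + (1 - cc) * U * V - bb * V = U ^ 3 - bb * U ^ 2) :
    (1728 * V) ^ 2 + 14 * (144 * U) * (1728 * V) + 216 * (1728 * V) =
      (144 * U) ^ 3 + 18 * (144 * U) ^ 2 := by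
  rw [bb_eq, cc_eq] at h
  linear_combination 2985984 * h

section path

variable {X Y κ : ℝ → ℝ} {s : ℝ}

lemma der_logs {P : ℝ → ℝ × ℝ} (h : OKp bb cc (κ s) (fun t => (P t).1) (fun t => (P t).2) s)
    (hB : ∀ b ∈ Bs (144 * (P s).1) (1728 * (P s).2), b ≠ 0) (v : List ℤ) :
    HasDerivAt (fun t => lin v (aL (P t))) (lin v (dL (κ s / 12) (P s))) s := by
  have dX : HasDerivAt (fun t => 144 * (P t).1)
      (κ s / 12 * (2 * (1728 * (P s).2) + 14 * (144 * (P s).1) + 216)) s := by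
    refine (h.dX.const_mul 144).congr_deriv ?_
    rw [bb_eq, cc_eq]
    ring
  have dY : HasDerivAt (fun t => 1728 * (P t).2)
      (κ s / 12 * (3 * (144 * (P s).1) ^ 2 + 36 * (144 * (P s).1) - 14 * (1728 * (P s).2))) s := by
    refine (h.dY.const_mul 1728).congr_deriv ?_
    rw [bb_eq, cc_eq]
    ring
  simp only [Bs, List.forall_mem_cons] at hB
  obtain ⟨h0, h1, h2, h3, h4, h5, h6, -⟩ := hB
  have key : List.Forall₂ (fun (f : ℝ → ℝ) d => HasDerivAt f d s)
      [fun t => Real.log (144 * (P t).1), fun t => Real.log (144 * (P t).1 + 18),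
       fun t => Real.log (144 * (P t).1 + 24), fun t => Real.log (144 * (P t).1 + 27),
       fun t => Real.log (1728 * (P t).2),
       fun t => Real.log (1728 * (P t).2 + 2 * (144 * (P t).1)),
       fun t => Real.log (1728 * (P t).2 + 3 * (144 * (P t).1)),
       fun _ => Real.log 2, fun _ => Real.log 3]
      (dL (κ s / 12) (P s) ++ List.replicate 2 0) := by
    unfold dL dl
    simp only [List.map_cons, List.map_nil, List.cons_append, List.nil_append,
      List.replicate_succ, List.replicate_zero]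
    refine .cons ?_ (.cons ?_ (.cons ?_ (.cons ?_ (.cons ?_ (.cons ?_ (.cons ?_
      (.cons (hasDerivAt_const _ _) (.cons (hasDerivAt_const _ _) .nil))))))))
    · exact (dX.log h0).congr_deriv (by ring)
    · exact ((dX.add_const 18).log h1).congr_deriv (by ring)
    · exact ((dX.add_const 24).log h2).congr_deriv (by ring)
    · exact ((dX.add_const 27).log h3).congr_deriv (by ring)
    · exact (dY.log h4).congr_deriv (by ring)
    · exact ((dY.add (dX.const_mul 2)).log h5).congr_deriv (by simp only [Pi.add_apply]; ring)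
    · exact ((dY.add (dX.const_mul 3)).log h6).congr_deriv (by simp only [Pi.add_apply]; ring)
  have h9 := hasDerivAt_lin key v
  rw [lin_append, lin_zeros, add_zero] at h9
  exact h9

/-- the translates -/
noncomputable def PP (X Y : ℝ → ℝ) (n : ℕ) (t : ℝ) : ℝ × ℝ := It bb n (X t, Y t)

/-- good points -/
structure Good (p : ℝ × ℝ) : Prop where
  he : (1728 * p.2) ^ 2 + 14 * (144 * p.1) * (1728 * p.2) + 216 * (1728 * p.2) =
    (144 * p.1) ^ 3 + 18 * (144 * p.1) ^ 2
  hB : ∀ b ∈ Bs (144 * p.1) (1728 * p.2), b ≠ 0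
  h0 : p.1 ≠ 0

lemma good_of (h : Path bb cc BsQ 8 X Y κ s) : ∀ᶠ t in 𝓝 s, ∀ n < 8, Good (PP X Y n t) := by
  filter_upwards [h.ok, h.ne] with t h1 h2 n hn
  refine ⟨curve (h1 n hn).eq, ?_, (h2 n hn).1⟩
  rw [← BsQ_ev]
  intro b hb
  obtain ⟨e, he, rfl⟩ := List.mem_map.mp hb
  exact (h2 n hn).2 e he

lemma step_eqs {p : ℝ × ℝ} (h0 : p.1 ≠ 0) :
    144 * (Tn bb p).1 * (144 * p.1) ^ 2 = -216 * (1728 * p.2) ∧
      1728 * (Tn bb p).2 * (144 * p.1) ^ 3 =
        3888 * ((144 * p.1) ^ 2 - 12 * (1728 * p.2)) := by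
  unfold Tn
  rw [bb_eq]
  constructor
  · field_simp
    ring
  · field_simp
    ring

lemma PP_succ (n : ℕ) (t : ℝ) : PP X Y (n + 1) t = Tn bb (PP X Y n t) := It_succ _ _ _

lemma step_aL {n : ℕ} {t : ℝ} (h : Good (PP X Y n t)) :
    aL (PP X Y (n + 1) t) = A8.map fun r => lin r (aL (PP X Y n t)) := by
  obtain ⟨e1, e2⟩ := step_eqs h.h0
  rw [PP_succ]
  exact step_log h.hB h.he e1 e2

lemma step_sg {n : ℕ} {t : ℝ} (h : Good (PP X Y n t)) :
    (Bs (144 * (PP X Y (n + 1) t).1) (1728 * (PP X Y (n + 1) t).2)).map sb =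
      Tsg ((Bs (144 * (PP X Y n t).1) (1728 * (PP X Y n t).2)).map sb) := by
  obtain ⟨e1, e2⟩ := step_eqs h.h0
  rw [PP_succ]
  exact step_sb h.hB h.he e1 e2

variable (h : Path bb cc BsQ 8 X Y κ s)

include h

lemma okp {n : ℕ} (hn : n < 8) :
    OKp bb cc (κ s) (fun t => (PP X Y n t).1) (fun t => (PP X Y n t).2) s :=
  h.ok.self_of_nhds n hn

lemma der_aL {n : ℕ} (hn : n < 8) (v : List ℤ) :
    HasDerivAt (fun t => lin v (aL (PP X Y n t))) (lin v (dL (κ s / 12) (PP X Y n s))) s :=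
  der_logs (okp h hn) ((good_of h).self_of_nhds n hn).hB v

lemma rel {n : ℕ} (hn : n + 1 < 8) :
    Rel A8 (aL (PP X Y n s)) (dL (κ s / 12) (PP X Y n s)) (aL (PP X Y (n + 1) s))
      (dL (κ s / 12) (PP X Y (n + 1) s)) := by
  have hev : ∀ v, ∀ᶠ t in 𝓝 s, lin v (aL (PP X Y (n + 1) t)) =
      lin (vm v A8) (aL (PP X Y n t)) := by
    intro v
    filter_upwards [good_of h] with t ht
    rw [step_aL (ht n (by omega)), lin_vm]
  refine ⟨fun v => (hev v).self_of_nhds, fun v => ?_⟩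
  have h1 := der_aL h hn v
  have h2 := (der_aL h (by omega : n < 8) (vm v A8)).congr_of_eventuallyEq (hev v)
  exact h1.unique h2

lemma exists_arc : ∃ n < 8, Arc (144 * (PP X Y n s).1) (1728 * (PP X Y n s).2) := by
  have hg := (good_of h).self_of_nhds
  have h0 := hg 0 (by norm_num)
  obtain ⟨n, hn, h1⟩ := pats_reach _ (pat_mem h0.hB h0.he)
  rw [List.mem_range] at hn
  have key : ∀ m < 8, (Bs (144 * (PP X Y m s).1) (1728 * (PP X Y m s).2)).map sb =
      Tsg^[m] ((Bs (144 * (PP X Y 0 s).1) (1728 * (PP X Y 0 s).2)).map sb) := by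
    intro m
    induction m with
    | zero => intro _; rfl
    | succ m ih =>
      intro hm
      rw [step_sg (hg m (by omega)), ih (by omega), Function.iterate_succ_apply']
  exact ⟨n, hn, arc_of (hg n hn).he (hg n hn).hB ((key n hn).trans h1)⟩

lemma ev_arc {n : ℕ} (hn : n < 8) (ha : Arc (144 * (PP X Y n s).1) (1728 * (PP X Y n s).2)) :
    ∀ᶠ t in 𝓝 s, Arc (144 * (PP X Y n t).1) (1728 * (PP X Y n t).2) := by
  have hk := okp h hn
  have cX : ContinuousAt (fun t => 144 * (PP X Y n t).1) s := (hk.dX.continuousAt).const_mul 144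
  have cY : ContinuousAt (fun t => 1728 * (PP X Y n t).2) s := (hk.dY.continuousAt).const_mul 1728
  have e1 := cX.eventually (lt_mem_nhds ha.hX)
  have e2 := cY.eventually (lt_mem_nhds ha.hY)
  filter_upwards [good_of h, e1, e2] with t g a b
  exact ⟨(g n hn).he, a, b⟩

lemma class_mon {n : ℕ} (hn : n < 8) (ha : Arc (144 * (PP X Y n s).1) (1728 * (PP X Y n s).2))
    {w : Cl} (hw : w ∈ W8) : Mon (dL (κ s / 12) (PP X Y n s)) w := by
  have hK : 0 < κ s / 12 := by have := h.pos; positivity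
  obtain ⟨l1, l2⟩ := all_len w hw
  have hpos := pos_Bs ha
  have hB : ∀ b ∈ Bs (144 * (PP X Y n s).1) (1728 * (PP X Y n s).2), b ≠ 0 :=
    fun b hb => (hpos b hb).ne'
  -- the values
  set F : ℝ → ℝ := fun t => monN w.al (Bs (144 * (PP X Y n t).1) (1728 * (PP X Y n t).2)) /
    monN w.c (Bs (144 * (PP X Y n t).1) (1728 * (PP X Y n t).2)) with hF
  set G : ℝ → ℝ := fun t => monN w.be (Bs (144 * (PP X Y n t).1) (1728 * (PP X Y n t).2)) /
    monN w.c (Bs (144 * (PP X Y n t).1) (1728 * (PP X Y n t).2)) with hG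
  have hev := ev_arc h hn ha
  have F0 : 0 < F s := div_pos (monN_pos _ hpos) (monN_pos _ hpos)
  have G0 : 0 < G s := div_pos (monN_pos _ hpos) (monN_pos _ hpos)
  have hsum : ∀ᶠ t in 𝓝 s, F t + G t = 1 := by
    filter_upwards [hev] with t ht
    have hp := pos_Bs ht
    have h1 := all_id ht.eq w hw
    unfold Cl.Sum at h1
    show _ / _ + _ / _ = _
    rw [← add_div, h1, div_self (monN_pos _ hp).ne']
  have lF : ∀ᶠ t in 𝓝 s, F t = Real.exp (lin (sub w.al w.c) (aL (PP X Y n t))) := by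
    filter_upwards [hev] with t ht
    have hp := pos_Bs ht
    unfold aL
    rw [← log_quot l1 (fun b hb => (hp b hb).ne'),
      Real.exp_log (div_pos (monN_pos _ hp) (monN_pos _ hp))]
  have lG : ∀ᶠ t in 𝓝 s, G t = Real.exp (lin (sub w.be w.c) (aL (PP X Y n t))) := by
    filter_upwards [hev] with t ht
    have hp := pos_Bs ht
    unfold aL
    rw [← log_quot l2 (fun b hb => (hp b hb).ne'),
      Real.exp_log (div_pos (monN_pos _ hp) (monN_pos _ hp))]
  have dF := (der_aL h hn (sub w.al w.c)).exp.congr_of_eventuallyEq lF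
  have dG := (der_aL h hn (sub w.be w.c)).exp.congr_of_eventuallyEq lG
  have dS : HasDerivAt (fun t => F t + G t) 0 s :=
    (hasDerivAt_const s (1 : ℝ)).congr_of_eventuallyEq hsum
  have rel0 := (dF.add dG).unique dS
  rw [← lF.self_of_nhds, ← lG.self_of_nhds] at rel0
  have hD := all_der ha (dv_of hB) w hw
  refine dec_both F0 G0 rel0 ?_
  unfold dL
  rw [lin_smul, lin_smul]
  have neg_of : ∀ {z : ℝ}, z < 0 → κ s / 12 * z < 0 := fun hz => mul_neg_of_pos_of_neg hK hz
  rcases hD with hD | hD | hD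
  · exact Or.inl (neg_of hD)
  · refine Or.inr (Or.inl ?_)
    have e : lin (sub w.c w.be) (dl (144 * (PP X Y n s).1) (1728 * (PP X Y n s).2)) =
        -lin (sub w.be w.c) (dl (144 * (PP X Y n s).1) (1728 * (PP X Y n s).2)) := by
      rw [lin_sub _ _ l2, lin_sub _ _ l2.symm]
      ring
    have := neg_of (e ▸ hD : -lin (sub w.be w.c)
      (dl (144 * (PP X Y n s).1) (1728 * (PP X Y n s).2)) < 0)
    linarith
  · refine Or.inr (Or.inr ?_)
    have e : lin (sub w.al w.be) (dl (144 * (PP X Y n s).1) (1728 * (PP X Y n s).2)) =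
        lin (sub w.al w.c) (dl (144 * (PP X Y n s).1) (1728 * (PP X Y n s).2)) -
          lin (sub w.be w.c) (dl (144 * (PP X Y n s).1) (1728 * (PP X Y n s).2)) := by
      rw [lin_sub _ _ l2, lin_sub _ _ l1, lin_sub _ _ (l1.trans l2.symm)]
      ring
    have := neg_of (e ▸ hD : lin (sub w.al w.c)
      (dl (144 * (PP X Y n s).1) (1728 * (PP X Y n s).2)) - lin (sub w.be w.c)
      (dl (144 * (PP X Y n s).1) (1728 * (PP X Y n s).2)) < 0)
    linarith

/-- the sum of the terms of the decomposition is positive -/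
lemma L2_pos {n : ℕ} (hn : n < 8) (ha : Arc (144 * (PP X Y n s).1) (1728 * (PP X Y n s).2)) :
    0 < (L2.map fun t => t.tri (aL (PP X Y n s)) (dL (κ s / 12) (PP X Y n s))).sum := by
  have hd : (dL (κ s / 12) (PP X Y n s)).length ≤ 7 := by
    unfold dL dl
    simp
  have hm : ∀ w ∈ W8, Mon (dL (κ s / 12) (PP X Y n s)) w := fun w hw => class_mon h hn ha hw
  have hQ := Q8_inc ha hd hm
  have hP := P8_dec ha hd hm
  have hU := U8_pos ha
  have h1 := Q8_first ha hm
  have hnn : ∀ e ∈ E2, 0 ≤ (mkT e).tri (aL (PP X Y n s)) (dL (κ s / 12) (PP X Y n s)) := by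
    intro e he
    have h2 := List.all_eq_true.mp E2_ok e he
    unfold okE at h2
    rw [Bool.and_eq_true, Bool.and_eq_true] at h2
    obtain ⟨⟨h3, h4⟩, h5⟩ := h2
    have h3 := of_decide_eq_true h3
    have h4 := of_decide_eq_true h4
    refine tri_nonneg (hQ _ ?_) (hP _ ?_) (wt_nonneg hU _ h5)
    · rw [List.getD_eq_getElem _ _ h3]
      exact List.getElem_mem h3
    · rw [List.getD_eq_getElem _ _ h4]
      exact List.getElem_mem h4
  rw [E2_eq, List.map_map]
  have hfst : 0 < (mkT (E2.headD (0, 0, []))).tri (aL (PP X Y n s))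
      (dL (κ s / 12) (PP X Y n s)) := by
    have e0 : E2.headD (0, 0, []) ∈ E2 := by decide +kernel
    have h2 := List.all_eq_true.mp E2_ok _ e0
    unfold okE at h2
    rw [Bool.and_eq_true, Bool.and_eq_true] at h2
    obtain ⟨⟨h3, h4⟩, h5⟩ := h2
    have h3 := of_decide_eq_true h3
    have h4 := of_decide_eq_true h4
    have e1 : (E2.headD (0, 0, [])).1 = 0 := by decide +kernel
    refine tri_pos (hQ _ ?_) (hP _ ?_) ?_ (wt_pos hU _ h5 (by decide +kernel) (by decide +kernel))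
    · rw [List.getD_eq_getElem _ _ h3]
      exact List.getElem_mem h3
    · rw [List.getD_eq_getElem _ _ h4]
      exact List.getElem_mem h4
    · rw [e1]
      exact h1
  have e2 : E2 = E2.headD (0, 0, []) :: E2.tail := by decide +kernel
  rw [e2, List.map_cons, List.sum_cons]
  refine add_pos_of_pos_of_nonneg hfst (List.sum_nonneg fun y hy => ?_)
  obtain ⟨e, he, rfl⟩ := List.mem_map.mp hy
  exact hnn e (List.mem_of_mem_tail he)

/-- the density of one term -/
lemma term_dens {n : ℕ} (hn : n < 8) (i : Fin 8) :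
    -(Rf ((T8 i).fq.ev (PP X Y n s).1 (PP X Y n s).2)) *
      deriv (fun t => (T8 i).fq.ev (PP X Y n t).1 (PP X Y n t).2) s *
      Real.log ((T8 i).uq.ev (PP X Y n s).1 (PP X Y n s).2) =
    (T8 i).tm.tri (aL (PP X Y n s)) (dL (κ s / 12) (PP X Y n s)) := by
  have hg := (good_of h).self_of_nhds n hn
  have hok : (T8 i).fq.ok (PP X Y n s).1 (PP X Y n s).2 := by
    refine ⟨trivial, ok_monQ _ _ _ _ (BsQ_ok _ _), ok_monQ _ _ _ _ (BsQ_ok _ _), ?_⟩
    rw [ev_monQ, BsQ_ev]
    exact monN_ne _ hg.hB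
  have hd := Q2.deriv_ev (okp h hn) (T8 i).fq hok
  have q1 := quo_f hg.hB i
  have q2 := quo_g hg.hB i (T8_ok hg.he i)
  have q3 := quo_u hg.hB i
  have e1 : ∀ᶠ t in 𝓝 s, Real.log ((T8 i).fq.ev (PP X Y n t).1 (PP X Y n t).2) =
      lin (sub (T8 i).al (T8 i).c) (aL (PP X Y n t)) := by
    filter_upwards [good_of h] with t ht
    exact (quo_f (ht n hn).hB i).log (ht n hn).hB
  have e2 : ∀ᶠ t in 𝓝 s, Real.log (1 - (T8 i).fq.ev (PP X Y n t).1 (PP X Y n t).2) =
      lin (sub (T8 i).be (T8 i).c) (aL (PP X Y n t)) := by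
    filter_upwards [good_of h] with t ht
    exact (quo_g (ht n hn).hB i (T8_ok (ht n hn).he i)).log (ht n hn).hB
  have h1 : (T8 i).fq.ev (PP X Y n s).1 (PP X Y n s).2 ≠ 1 := fun h1 => by
    have := q2.ne hg.hB
    rw [h1, sub_self] at this
    exact this rfl
  have key := dens hd (q1.ne hg.hB) h1 (der_aL h hn _) (der_aL h hn _) e1 e2
  rw [hd.deriv, key, q3.log hg.hB]
  rfl

/-- **The total density is positive.** -/
theorem total_pos : 0 < ∑ i : Fin 8 × Fin 8,
    -(Rf ((T8 i.2).fq.ev (It bb i.1.val (X s, Y s)).1 (It bb i.1.val (X s, Y s)).2)) *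
      deriv (fun t => (T8 i.2).fq.ev (It bb i.1.val (X t, Y t)).1
        (It bb i.1.val (X t, Y t)).2) s *
      Real.log ((T8 i.2).uq.ev (It bb i.1.val (X s, Y s)).1 (It bb i.1.val (X s, Y s)).2) := by
  have e : ∀ i : Fin 8 × Fin 8,
    -(Rf ((T8 i.2).fq.ev (It bb i.1.val (X s, Y s)).1 (It bb i.1.val (X s, Y s)).2)) *
      deriv (fun t => (T8 i.2).fq.ev (It bb i.1.val (X t, Y t)).1
        (It bb i.1.val (X t, Y t)).2) s *
      Real.log ((T8 i.2).uq.ev (It bb i.1.val (X s, Y s)).1 (It bb i.1.val (X s, Y s)).2) =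
    (T8 i.2).tm.tri (aL (PP X Y i.1.val s)) (dL (κ s / 12) (PP X Y i.1.val s)) :=
    fun i => term_dens h i.1.2 i.2
  rw [Finset.sum_congr rfl fun i _ => e i, Fintype.sum_prod_type]
  have e3 : ∀ n : ℕ, ∑ q : Fin 8, (T8 q).tm.tri (aL (PP X Y n s)) (dL (κ s / 12) (PP X Y n s)) =
      (tm0.map fun t => t.tri (aL (PP X Y n s)) (dL (κ s / 12) (PP X Y n s))).sum := by
    intro n
    rw [T8_tm]
    simp only [Fin.sum_univ_succ, Fin.sum_univ_zero, List.map_cons, List.map_nil, List.sum_cons,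
      List.sum_nil]
    rfl
  have e4 : ∑ j : Fin 8, ∑ q : Fin 8, (T8 q).tm.tri (aL (PP X Y j.val s))
      (dL (κ s / 12) (PP X Y j.val s)) = ∑ j ∈ Finset.range 8,
        (tm0.map fun t => t.tri (aL (PP X Y j s)) (dL (κ s / 12) (PP X Y j s))).sum := by
    rw [Finset.sum_range]
    exact Finset.sum_congr rfl fun j _ => e3 j.val
  rw [e4, ← sum_orb A8 (fun n => aL (PP X Y n s)) (fun n => dL (κ s / 12) (PP X Y n s)) 8
    (fun j hj => rel h hj) tm0]
  obtain ⟨n, hn, ha⟩ := exists_arc h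
  have e5 := sum_move A8 (fun n => aL (PP X Y n s)) (fun n => dL (κ s / 12) (PP X Y n s)) n
    (fun j hj => rel h (by omega)) L1_rot
  have hlen : (dL (κ s / 12) (PP X Y n s)).length ≤ 7 := by
    unfold dL dl
    simp
  have halen : (aL (PP X Y n s)).length = 9 := by
    unfold aL Bs
    simp
  have e6 := sum_eq_of_col (r := 7) (a := aL (PP X Y n s)) (fun j hj => col_all j hj) L1_len
    L2_len halen hlen
  have e7 := L2_pos h hn ha
  rw [← e6, e5] at e7
  push_cast at e7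
  rw [L1_eq]
  by_contra hh
  push Not at hh
  linarith

end path

end Pool.Agent.R8d
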