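import Pool.Agent.Lib_helper7.R8d.GA

set_option autoImplicit false
set_option maxRecDepth 100000

/-!
Points of order eight, `b = -1/8`, `c = -1/6`: the exponent vectors of the class and the
decomposition of its total density.
-/

namespace Pool.Agent.R8d

open Pool.Agent.K4N.LA

/-- the translation by `P` on the exponents -/
def A8 : List (List ℤ) :=
  [[-2, 0, 0, 0, 1, 0, 0, 3, 3],
   [-2, -1, 0, 0, 1, 1, 0, 1, 2],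
   [-2, 0, -1, 0, 0, 1, 1, 3, 1],
   [-2, 0, 0, -1, 0, 0, 2, 0, 3],
   [-3, -1, 0, 0, 1, 1, 0, 4, 5],
   [-3, -1, -1, 0, 1, 1, 1, 4, 3],
   [-3, 0, -1, -1, 0, 1, 2, 3, 4],
   [0, 0, 0, 0, 0, 0, 0, 1, 0],
   [0, 0, 0, 0, 0, 0, 0, 0, 1]]

/-- the eight terms -/
def tm0 : List Tm :=
  [⟨[2, 0, 1, 0, 0, -1, -1, -3, 0], [0, 0, 1, -1, 0, -1, 1, -3, 2], [56, -68, -32, 0, 0, 0, 0, 176,
    88]⟩,
   ⟨[2, 1, 0, 0, -1, -1, 0, -1, 0], [0, 1, 0, -1, -1, -1, 2, -1, 1], [-4, -12, 0, 0, 0, 0, 0, 64,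
    32]⟩,
   ⟨[2, 1, 0, 0, -1, -1, 0, 0, -1], [0, 1, -1, 0, -1, 0, 1, 2, -1], [36, -32, -140, 0, 0, 0, 0,
    544, 272]⟩,
   ⟨[4, -1, 2, 1, 0, -2, -2, -3, 0], [0, -3, 4, 2, 2, 0, -4, -3, 2], [0, -7, 0, 0, 0, 0, 0, 28,
    14]⟩,
   ⟨[0, -1, -1, -1, 0, 1, 1, -3, 0], [0, -1, 1, 0, 0, 1, -1, -3, 2], [-56, 68, 32, 0, 0, 0, 0,
    -176, -88]⟩,
   ⟨[-1, -1, -1, 0, 1, 1, 0, -1, 0], [-1, -1, 1, 1, 1, 1, -2, -1, 1], [4, 12, 0, 0, 0, 0, 0, -64,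
    -32]⟩,
   ⟨[-1, -1, -1, 0, 1, 1, 0, 0, -1], [-1, 0, 0, 1, 1, 0, -1, 2, -1], [-36, 32, 140, 0, 0, 0, 0,
    -544, -272]⟩,
   ⟨[0, -3, -2, -1, 0, 2, 2, -3, 0], [0, -1, 0, -2, -2, 0, 4, -3, 2], [0, 7, 0, 0, 0, 0, 0, -28,
    -14]⟩]

/-- the sixty-four terms -/
def L1 : List Tm :=
  [⟨[2, 0, 1, 0, 0, -1, -1, -3, 0], [0, 0, 1, -1, 0, -1, 1, -3, 2], [56, -68, -32, 0, 0, 0, 0, 176,
    88]⟩,
   ⟨[2, 1, 0, 0, -1, -1, 0, -1, 0], [0, 1, 0, -1, -1, -1, 2, -1, 1], [-4, -12, 0, 0, 0, 0, 0, 64,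
    32]⟩,
   ⟨[2, 1, 0, 0, -1, -1, 0, 0, -1], [0, 1, -1, 0, -1, 0, 1, 2, -1], [36, -32, -140, 0, 0, 0, 0,
    544, 272]⟩,
   ⟨[4, -1, 2, 1, 0, -2, -2, -3, 0], [0, -3, 4, 2, 2, 0, -4, -3, 2], [0, -7, 0, 0, 0, 0, 0, 28,
    14]⟩,
   ⟨[0, -1, -1, -1, 0, 1, 1, -3, 0], [0, -1, 1, 0, 0, 1, -1, -3, 2], [-56, 68, 32, 0, 0, 0, 0,
    -176, -88]⟩,
   ⟨[-1, -1, -1, 0, 1, 1, 0, -1, 0], [-1, -1, 1, 1, 1, 1, -2, -1, 1], [4, 12, 0, 0, 0, 0, 0, -64,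
    -32]⟩,
   ⟨[-1, -1, -1, 0, 1, 1, 0, 0, -1], [-1, 0, 0, 1, 1, 0, -1, 2, -1], [-36, 32, 140, 0, 0, 0, 0,
    -544, -272]⟩,
   ⟨[0, -3, -2, -1, 0, 2, 2, -3, 0], [0, -1, 0, -2, -2, 0, 4, -3, 2], [0, 7, 0, 0, 0, 0, 0, -28,
    -14]⟩,
   ⟨[0, 1, 1, 1, 1, -1, -2, -1, 0], [0, 1, -1, 0, -1, 1, 0, -1, 1], [88, 68, 32, 0, -12, -100, -32,
    180, 88]⟩,
   ⟨[0, 1, 1, 0, 1, -1, -1, -2, 0], [0, 1, -1, -1, -1, 1, 1, -2, 0], [32, 12, 0, 0, -16, -12, 0,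
    40, -4]⟩,
   ⟨[0, 1, 1, 0, 1, -1, -1, -1, -1], [0, 0, 0, -1, 0, 0, 1, -1, -1], [272, 32, 140, 0, 4, -172,
    -140, 200, 176]⟩,
   ⟨[0, 3, 2, 1, 1, -3, -2, 0, 1], [0, 1, 0, 2, -1, -1, 0, 2, 0], [14, 7, 0, 0, -7, -7, 0, 21, 0]⟩,
   ⟨[0, 0, -1, 0, 0, 0, 0, 0, 1], [0, 0, -1, 1, 0, 0, 0, 0, 0], [-88, -68, -32, 0, 12, 100, 32,
    -180, -88]⟩,
   ⟨[0, -1, 0, 0, 0, 0, 0, 0, 2], [0, -1, 0, 1, 0, 0, 0, 0, 0], [-32, -12, 0, 0, 16, 12, 0, -40,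
    4]⟩,
   ⟨[0, -1, 0, 0, 0, 0, 0, 1, 1], [0, -1, 1, 0, 0, 0, 0, 0, 0], [-272, -32, -140, 0, -4, 172, 140,
    -200, -176]⟩,
   ⟨[0, 1, -2, -1, -1, -1, 2, 2, 3], [0, 3, -4, -2, -3, 1, 4, 0, 0], [-14, -7, 0, 0, 7, 7, 0, -21,
    0]⟩,
   ⟨[0, -1, 2, 1, 1, 0, -2, -3, 0], [0, -1, 0, 0, 1, 0, 0, -3, 0], [56, 44, 100, 32, 44, -44, -132,
    64, 32]⟩,
   ⟨[-1, -1, 1, 1, 1, 1, -2, -1, 1], [-1, -1, -1, 0, 1, 1, 0, -1, 0], [-4, 16, 12, 0, 16, -16, -12,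
    36, 0]⟩,
   ⟨[-1, -1, 1, 1, 1, 1, -2, 0, 0], [-1, 0, -1, 0, 0, 1, 0, 2, 0], [36, 136, 172, 140, 136, -136,
    -312, 376, 140]⟩,
   ⟨[0, -1, 3, 1, 1, 1, -3, -5, 0], [0, 1, 1, -2, -1, -1, 3, -5, 0], [0, 7, 7, 0, 7, -7, -7, 14,
    0]⟩,
   ⟨[2, 0, 1, 0, 0, -1, -1, -3, 0], [0, 0, 1, -1, 0, -1, 1, -3, 2], [-56, -44, -100, -32, -44, 44,
    132, -64, -32]⟩,
   ⟨[2, 1, 0, 0, -1, -1, 0, -1, 0], [0, 1, 0, -1, -1, -1, 2, -1, 1], [4, -16, -12, 0, -16, 16, 12,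
    -36, 0]⟩,
   ⟨[2, 1, 0, 0, -1, -1, 0, 0, -1], [0, 1, -1, 0, -1, 0, 1, 2, -1], [-36, -136, -172, -140, -136,
    136, 312, -376, -140]⟩,
   ⟨[4, 1, 1, -1, -1, -1, -1, -5, 0], [0, -1, -1, -2, 1, 1, 1, -5, 0], [0, -7, -7, 0, -7, 7, 7,
    -14, 0]⟩,
   ⟨[-1, 0, 0, 1, 0, 0, 0, 0, 0], [-1, 0, 0, 0, 0, 0, 0, 0, 3], [-68, -44, 76, 100, 100, 12, -144,
    180, 44]⟩,
   ⟨[0, -1, 0, 1, 0, 0, 0, 0, 0], [0, -1, 0, 0, 0, 0, 0, 0, 2], [-12, -16, 16, 12, 12, 16, -28, 40,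
    16]⟩,
   ⟨[0, -1, 0, 1, 0, 0, 0, 1, -1], [1, -1, 0, 0, 0, 0, 0, 0, -1], [-32, -136, 276, 172, 172, -4,
    -308, 200, 136]⟩,
   ⟨[-3, -1, -1, 2, 1, 1, 0, 2, 0], [-3, 1, -3, -1, -1, 3, 2, 0, 1], [-7, -7, 7, 7, 7, 7, -14, 21,
    7]⟩,
   ⟨[0, 1, 1, 1, 1, -1, -2, -1, 0], [0, 1, -1, 0, -1, 1, 0, -1, 1], [68, 44, -76, -100, -100, -12,
    144, -180, -44]⟩,
   ⟨[0, 1, 1, 0, 1, -1, -1, -2, 0], [0, 1, -1, -1, -1, 1, 1, -2, 0], [12, 16, -16, -12, -12, -16,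
    28, -40, -16]⟩,
   ⟨[0, 1, 1, 0, 1, -1, -1, -1, -1], [0, 0, 0, -1, 0, 0, 1, -1, -1], [32, 136, -276, -172, -172, 4,
    308, -200, -136]⟩,
   ⟨[-1, 1, 1, 2, 3, -1, -4, 0, 0], [-1, -1, -1, 1, 1, 1, -2, 2, 3], [7, 7, -7, -7, -7, -7, 14,
    -21, -7]⟩,
   ⟨[0, 0, 0, -1, -1, 0, 2, -3, 0], [2, 0, 0, 0, -1, 0, 0, -3, 0], [-32, -68, 56, 44, 0, 0, 0, 176,
    88]⟩,
   ⟨[0, 1, 0, -1, -1, -1, 2, -1, 1], [2, 1, 0, 0, -1, -1, 0, -1, 0], [0, -12, -4, 16, 0, 0, 0, 64,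
    -4]⟩,
   ⟨[0, 1, 0, -1, -1, -1, 2, 0, 0], [0, 1, 0, 0, 0, -1, 0, 2, 0], [-140, -32, 36, 136, 0, 0, 0,
    544, 176]⟩,
   ⟨[0, -1, 0, -2, -2, 0, 4, -3, 2], [0, -3, -2, -1, 0, 2, 2, -3, 0], [0, -7, 0, 7, 0, 0, 0, 28,
    0]⟩,
   ⟨[0, -1, 2, 1, 1, 0, -2, -3, 0], [0, -1, 0, 0, 1, 0, 0, -3, 0], [32, 68, -56, -44, 0, 0, 0,
    -176, -88]⟩,
   ⟨[-1, -1, 1, 1, 1, 1, -2, -1, 1], [-1, -1, -1, 0, 1, 1, 0, -1, 0], [0, 12, 4, -16, 0, 0, 0, -64,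
    4]⟩,
   ⟨[-1, -1, 1, 1, 1, 1, -2, 0, 0], [-1, 0, -1, 0, 0, 1, 0, 2, 0], [140, 32, -36, -136, 0, 0, 0,
    -544, -176]⟩,
   ⟨[0, -3, 4, 2, 2, 0, -4, -3, 2], [4, -1, 2, 1, 0, -2, -2, -3, 0], [0, 7, 0, -7, 0, 0, 0, -28,
    0]⟩,
   ⟨[-1, 1, -2, -1, -1, 1, 2, -1, 0], [-1, 1, 0, 0, 1, -1, 0, -1, 1], [0, 68, -56, -44, -100, -12,
    144, 180, 44]⟩,
   ⟨[0, 1, -1, -1, -1, 1, 1, -2, 0], [0, 1, 1, 0, 1, -1, -1, -2, 0], [0, 12, 4, -16, -12, -16, 28,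
    40, 16]⟩,
   ⟨[0, 1, -1, -1, -1, 1, 1, -1, -1], [1, 0, 1, 0, 0, 0, -1, -1, -1], [0, 32, -36, -136, -172, 4,
    308, 200, 136]⟩,
   ⟨[0, 3, -4, -2, -3, 1, 4, 0, 0], [0, 1, -2, -1, -1, -1, 2, 2, 3], [0, 7, 0, -7, -7, -7, 14, 21,
    7]⟩,
   ⟨[-1, 0, 0, 1, 0, 0, 0, 0, 0], [-1, 0, 0, 0, 0, 0, 0, 0, 3], [0, -68, 56, 44, 100, 12, -144,
    -180, -44]⟩,
   ⟨[0, -1, 0, 1, 0, 0, 0, 0, 0], [0, -1, 0, 0, 0, 0, 0, 0, 2], [0, -12, -4, 16, 12, 16, -28, -40,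
    -16]⟩,
   ⟨[0, -1, 0, 1, 0, 0, 0, 1, -1], [1, -1, 0, 0, 0, 0, 0, 0, -1], [0, -32, 36, 136, 172, -4, -308,
    -200, -136]⟩,
   ⟨[0, 1, 0, 2, -1, -1, 0, 2, 0], [0, 3, 2, 1, 1, -3, -2, 0, 1], [0, -7, 0, 7, 7, 7, -14, -21,
    -7]⟩,
   ⟨[0, -1, -1, -1, 0, 1, 1, -3, 0], [0, -1, 1, 0, 0, 1, -1, -3, 2], [-32, 44, -76, -100, -44, 44,
    132, 64, 32]⟩,
   ⟨[-1, -1, -1, 0, 1, 1, 0, -1, 0], [-1, -1, 1, 1, 1, 1, -2, -1, 1], [0, 16, -16, -12, -16, 16,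
    12, 36, 0]⟩,
   ⟨[-1, -1, -1, 0, 1, 1, 0, 0, -1], [-1, 0, 0, 1, 1, 0, -1, 2, -1], [-140, 136, -276, -172, -136,
    136, 312, 376, 140]⟩,
   ⟨[0, -1, -1, -2, 1, 1, 1, -5, 0], [4, 1, 1, -1, -1, -1, -1, -5, 0], [0, 7, -7, -7, -7, 7, 7, 14,
    0]⟩,
   ⟨[0, 0, 0, -1, -1, 0, 2, -3, 0], [2, 0, 0, 0, -1, 0, 0, -3, 0], [32, -44, 76, 100, 44, -44,
    -132, -64, -32]⟩,
   ⟨[0, 1, 0, -1, -1, -1, 2, -1, 1], [2, 1, 0, 0, -1, -1, 0, -1, 0], [0, -16, 16, 12, 16, -16, -12,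
    -36, 0]⟩,
   ⟨[0, 1, 0, -1, -1, -1, 2, 0, 0], [0, 1, 0, 0, 0, -1, 0, 2, 0], [140, -136, 276, 172, 136, -136,
    -312, -376, -140]⟩,
   ⟨[0, 1, 1, -2, -1, -1, 3, -5, 0], [0, -1, 3, 1, 1, 1, -3, -5, 0], [0, -7, 7, 7, 7, -7, -7, -14,
    0]⟩,
   ⟨[0, 0, -1, 0, 0, 0, 0, 0, 1], [0, 0, -1, 1, 0, 0, 0, 0, 0], [-68, -44, -100, -32, 12, 100, 32,
    180, 88]⟩,
   ⟨[0, -1, 0, 0, 0, 0, 0, 0, 2], [0, -1, 0, 1, 0, 0, 0, 0, 0], [-12, -16, -12, 0, 16, 12, 0, 40,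
    -4]⟩,
   ⟨[0, -1, 0, 0, 0, 0, 0, 1, 1], [0, -1, 1, 0, 0, 0, 0, 0, 0], [-32, -136, -172, -140, -4, 172,
    140, 200, 176]⟩,
   ⟨[-1, -1, -1, 1, 1, 1, -2, 2, 3], [-1, 1, 1, 2, 3, -1, -4, 0, 0], [-7, -7, -7, 0, 7, 7, 0, 21,
    0]⟩,
   ⟨[-1, 1, -2, -1, -1, 1, 2, -1, 0], [-1, 1, 0, 0, 1, -1, 0, -1, 1], [68, 44, 100, 32, -12, -100,
    -32, -180, -88]⟩,
   ⟨[0, 1, -1, -1, -1, 1, 1, -2, 0], [0, 1, 1, 0, 1, -1, -1, -2, 0], [12, 16, 12, 0, -16, -12, 0,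
    -40, 4]⟩,
   ⟨[0, 1, -1, -1, -1, 1, 1, -1, -1], [1, 0, 1, 0, 0, 0, -1, -1, -1], [32, 136, 172, 140, 4, -172,
    -140, -200, -176]⟩,
   ⟨[-3, 1, -3, -1, -1, 3, 2, 0, 1], [-3, -1, -1, 2, 1, 1, 0, 2, 0], [7, 7, 7, 0, -7, -7, 0, -21,
    0]⟩]

/-- the positive terms -/
def L2 : List Tm :=
  [⟨[-1, 1, 0, 0, 1, -1, 0, 2, -1], [1, -1, 0, 0, -1, 1, 0, 0, 0], [31993008, -1313540, 9354104,
    9796680, -7031508, -62259196, 40809016, 0, -42646320]⟩,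
   ⟨[-1, 1, 0, 0, 1, -1, 0, 2, -1], [0, 0, -1, 1, 0, 0, 0, 0, 0], [9796676, -27931784, 10367988,
    45806376, 261100, 49685096, -75305700, -20522556, 13681704]⟩,
   ⟨[-1, 1, 0, 0, 1, -1, 0, 2, -1], [0, -1, 1, 0, 0, 0, 0, 0, 0], [-11525340, 8337480, 7823832,
    26514288, 31150260, -15232920, -36684180, 0, 0]⟩,
   ⟨[-1, 1, 0, 0, 1, -1, 0, 2, -1], [-1, 3, 0, -2, 0, 0, 0, 0, 0], [-26352, 1493280, 4984920,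
    5955552, 7426872, -6039000, -9271512, 0, -3491640]⟩,
   ⟨[0, -1, 1, 0, 0, 1, -1, -3, 2], [1, -1, 0, 0, -1, 1, 0, 0, 0], [-27523600, -61098920, -7484244,
    84252900, 13896784, 64556840, -70207008, 201960716, -89972552]⟩,
   ⟨[0, -1, 1, 0, 0, 1, -1, -3, 2], [-1, 1, 1, 2, 3, -1, -4, 0, 0], [3623400, 7927560, 5808420,
    -3502620, -241560, -9175620, 1840980, 84721680, -51715800]⟩,
   ⟨[0, -1, 1, 0, 0, 1, -1, -3, 2], [-1, 3, 0, -2, 0, 0, 0, 0, 0], [-702720, 2108160, 0, -1405440,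
    0, 0, 0, 0, 0]⟩,
   ⟨[-1, 0, 0, 1, 1, 0, -1, 2, -1], [1, -1, 0, 0, -1, 1, 0, 0, 0], [-27206564, 93734288, -60899508,
    -31457712, 6524540, -102657212, 116814696, 185320492, -114166484]⟩,
   ⟨[-1, 0, 0, 1, 1, 0, -1, 2, -1], [0, 1, -1, 0, 0, -1, 1, 0, 0], [-58764216, 15995544, 10310844,
    -19982652, 13284324, -29144352, 53814228, 37914648, -26160204]⟩,
   ⟨[-1, 0, 0, 1, 1, 0, -1, 2, -1], [0, -1, 1, 0, 0, 0, 0, 0, 0], [-6745380, -28339380, 11632104,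
    -13846404, -29481300, 44062740, 12158520, -92238426, 52356924]⟩,
   ⟨[-1, 0, 0, 1, 1, 0, -1, 2, -1], [-1, 1, 1, 2, 3, -1, -4, 0, 0], [-647820, 5632740, -2723040,
    -3030480, -3557520, -3952800, 8915760, 15855120, -15964920]⟩,
   ⟨[-1, 0, 0, 1, 1, 0, -1, 2, -1], [-1, 3, 0, -2, 0, 0, 0, 0, 0], [1146312, -7953912, 1987380,
    -6653880, -11193012, 11566332, 8882820, -2318976, 171288]⟩,
   ⟨[0, 0, 1, -1, 0, 0, 0, -3, 2], [0, 0, -1, 1, 0, 0, 0, 0, 0], [40215796, 104839464, -15380176,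
    -3464520, 29359976, -74906472, -32371880, -88281428, 536948]⟩,
   ⟨[0, 0, 1, -1, 0, 0, 0, -3, 2], [0, -1, 1, 0, 0, 0, 0, 0, 0], [-6256404, 17901792, 867420,
    -12512808, 0, 0, 0, 0, 0]⟩,
   ⟨[0, 1, -1, 0, 0, 0, 0, 2, -1], [0, -1, 1, 0, 0, 0, 0, 0, 0], [10564328, 19450080, 63340536,
    -19703240, 3039688, -5999736, -35151328, -253880059, 121246442]⟩,
   ⟨[0, 1, -1, 0, 0, 0, 0, 2, -1], [-1, 3, 0, -2, 0, 0, 0, 0, 0], [-2371680, 3162240, 2503440,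
    1054080, 4348080, -1449360, -5797440, 0, 0]⟩,
   ⟨[0, -2, -2, 1, -2, 2, 2, 2, -1], [0, 0, -1, 1, 0, 0, 0, 0, 0], [-10461120, 13292604, 1983720,
    1135956, 12728856, -8193492, -8502804, 13555392, -6777696]⟩,
   ⟨[0, -2, -2, 1, -2, 2, 2, 2, -1], [0, 0, 1, -1, 0, -1, 1, 0, 0], [6588000, 7879980, 7415160,
    -8443620, -1515240, -8560740, 2192340, -6269580, -5845020]⟩,
   ⟨[0, -2, -2, 1, -2, 2, 2, 2, -1], [-1, 3, 0, -2, 0, 0, 0, 0, 0], [406260, 724680, 494100,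
    -307440, 395280, -1394460, 197640, 0, -691740]⟩,
   ⟨[2, 0, 1, -1, -1, -1, 1, -4, 0], [1, -1, 0, 0, -1, 1, 0, 0, 0], [636840, -11550960, 6829560,
    -592920, -5138640, 1756800, 6807600, 6573360, -6053640]⟩,
   ⟨[2, 0, 1, -1, -1, -1, 1, -4, 0], [0, -1, 1, 0, 0, 0, 0, 0, 0], [-9102420, 10354140, 6675840,
    13637160, 21301200, -7158960, -28504080, -219600, 0]⟩,
   ⟨[2, 0, 1, -1, -1, -1, 1, -4, 0], [0, 0, 1, -1, 0, -1, 1, 0, 0], [318420, -7060140, 878400,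
    -3711240, -10321200, 3469680, 13703040, -14705880, 6419640]⟩,
   ⟨[2, 0, 1, -1, -1, -1, 1, -4, 0], [-1, 1, 1, 2, 3, -1, -4, 0, 0], [-208620, 5127660, 922320,
    -5555880, -1712880, -1712880, 3425760, -856440, -1141920]⟩,
   ⟨[2, 0, 1, -1, -1, -1, 1, -4, 0], [-1, 3, 0, -2, 0, 0, 0, 0, 0], [1021140, -2723040, 1734840,
    -2217960, -2712060, 2898720, 1328580, -11155680, 6851520]⟩,
   ⟨[2, 0, 1, -1, -1, -1, 1, -4, 0], [0, 0, 0, 0, 0, 0, 0, -3, 2], [-636840, -5160600, 6478200,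
    1098000, 1778760, -592920, -2371680, 0, 0]⟩,
   ⟨[2, 0, 1, -1, -1, -1, 1, -4, 0], [0, 0, 0, 0, 0, 0, 0, 2, -1], [2928000, 10928760, 3469680,
    -3359880, -183000, -11638800, 2510760, 0, 0]⟩,
   ⟨[0, -1, 0, -2, -2, 0, 4, -3, 2], [0, 0, -1, 1, 0, 0, 0, 0, 0], [19980780, 3832536, 17959620,
    -11424216, -12355536, -10029648, 5183184, -98600400, 35428800]⟩,
   ⟨[0, -1, 0, -2, -2, 0, 4, -3, 2], [-1, 3, 0, -2, 0, 0, 0, 0, 0], [-570960, 1712880, 0, -1141920,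
    0, 0, 0, 0, 0]⟩,
   ⟨[4, 0, -1, 2, -1, 1, -3, 0, -3], [0, 0, -1, 1, 0, 0, 0, 0, 0], [-4205340, 2009340, 6060960,
    4567680, 4457880, 1954440, -11682720, 6002400, -6163440]⟩,
   ⟨[4, 0, -1, 2, -1, 1, -3, 0, -3], [-1, 3, 0, -2, 0, 0, 0, 0, 0], [0, 0, -131760, 131760, 0, 0,
    0, 0, 0]⟩,
   ⟨[4, 0, -1, 2, -1, 1, -3, 0, -3], [0, 0, 0, 0, 0, 0, 0, -3, 2], [8169120, -1932480, -10606680,
    11353320, -3513600, 417240, -1559160, 0, 0]⟩,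
   ⟨[0, 0, 0, 0, 0, 0, 0, -3, 2], [0, 1, -1, 0, 0, -1, 1, 0, 0], [-65401496, -67701560, 20548096,
    55672116, 18183200, 72722300, -52602964, 171835052, -69068360]⟩,
   ⟨[0, 0, 0, 0, 0, 0, 0, -3, 2], [1, 0, 0, -1, -1, 0, 1, 0, 0], [61451800, 81191358, -23602678,
    -42338736, -16356304, -91011876, 62272684, -68428964, -3848044]⟩,
   ⟨[0, 0, 0, 0, 0, 0, 0, -3, 2], [0, -1, 1, 0, 0, 0, 0, 0, 0], [6961266, -9637512, 25718820,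
    -3531114, -12533982, 3747840, 1949262, -153590694, 54352227]⟩,
   ⟨[0, 0, 0, 0, 0, 0, 0, -3, 2], [-1, 3, 0, -2, 0, 0, 0, 0, 0], [1449360, -2327760, 2283840,
    -3886920, -4216320, 4567680, 2415600, -17524080, 7400520]⟩,
   ⟨[0, 0, 0, 0, 0, 0, 0, 2, -1], [0, 1, -1, 0, 0, -1, 1, 0, 0], [-22657400, 177172884, -81004152,
    -163379584, -72981004, -196465164, 343781176, 133083376, -171663320]⟩,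
   ⟨[0, 0, 0, 0, 0, 0, 0, 2, -1], [0, -2, 2, 3, 2, 2, -6, 0, 0], [17225528, 55113120, -45110172,
    -24555152, -23524592, -40502556, 64265252, 22743656, -29554708]⟩,
   ⟨[0, 0, 0, 0, 0, 0, 0, 2, -1], [0, 3, -4, -2, -3, 1, 4, 0, 0], [12833528, -8197560, 12063312,
    -26147876, -19132592, 19437264, 5994392, -85694824, 57648452]⟩,
   ⟨[0, 0, 0, 0, 0, 0, 0, 2, -1], [-1, 3, 0, -2, 0, 0, 0, 0, 0], [2619724, 10024632, -9186552,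
    6473912, 1812740, -16103736, 9858532, 37264240, -38330240]⟩]

theorem L1_eq : orb A8 8 tm0 = L1 := by decide +kernel

theorem L1_rot : L1.map (Tm.act A8) = L1.rotate 8 := by decide +kernel

theorem L1_len : L1.all (len 9) = true := by decide +kernel

theorem L2_len : L2.all (len 9) = true := by decide +kernel

theorem col0 : scl 2745 (sumCol 0 L1) = sumCol 0 L2 := by decide +kernel

theorem col1 : scl 2745 (sumCol 1 L1) = sumCol 1 L2 := by decide +kernel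

theorem col2 : scl 2745 (sumCol 2 L1) = sumCol 2 L2 := by decide +kernel

theorem col3 : scl 2745 (sumCol 3 L1) = sumCol 3 L2 := by decide +kernel

theorem col4 : scl 2745 (sumCol 4 L1) = sumCol 4 L2 := by decide +kernel

theorem col5 : scl 2745 (sumCol 5 L1) = sumCol 5 L2 := by decide +kernel

theorem col6 : scl 2745 (sumCol 6 L1) = sumCol 6 L2 := by decide +kernel

theorem col_all : ∀ j < 7, scl 2745 (sumCol j L1) = sumCol j L2 := by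
  intro j hj
  match j, hj with
  | 0, _ => exact col0
  | 1, _ => exact col1
  | 2, _ => exact col2
  | 3, _ => exact col3
  | 4, _ => exact col4
  | 5, _ => exact col5
  | 6, _ => exact col6

end Pool.Agent.R8d
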