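import Pool.Agent.Lib_helper7.R8d.C

set_option autoImplicit false
set_option maxRecDepth 100000

/-!
The positive logarithms on the arc.
-/

namespace Pool.Agent.R8d

open Pool.Agent.K4N.LA

theorem all_id {X Y : ℝ} (he : Y ^ 2 + 14 * X * Y + 216 * Y = X ^ 3 + 18 * X ^ 2) :
    ∀ w ∈ W8, w.Sum X Y := by
  simp only [W8, List.forall_mem_cons]
  exact ⟨id10 he, id11 he, id22 he, id23 he, id28 he, id29 he, id35 he, id36 he, id42 he, id43
    he, id49 he, id58 he, id59 he, id60 he, id62 he, id63 he, id65 he, id67 he, id68 he, by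
    simp⟩

theorem all_der {X Y d0 d1 d2 d3 d4 d5 d6 : ℝ} (h : Arc X Y)
    (k : Dv X Y d0 d1 d2 d3 d4 d5 d6) :
    ∀ w ∈ W8, w.Dec [d0, d1, d2, d3, d4, d5, d6] := by
  simp only [W8, List.forall_mem_cons]
  exact ⟨der10 h k, der11 h k, der22 h k, der23 h k, der28 h k, der29 h k, der35 h k, der36 h k,
    der42 h k, der43 h k, der49 h k, der58 h k, der59 h k, der60 h k, der62 h k, der63 h k,
    der65 h k, der67 h k, der68 h k, by simp⟩

theorem all_len : ∀ w ∈ W8, w.al.length = w.c.length ∧ w.be.length = w.c.length := by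
  simp only [W8, List.forall_mem_cons]
  exact ⟨⟨rfl, rfl⟩, ⟨rfl, rfl⟩, ⟨rfl, rfl⟩, ⟨rfl, rfl⟩, ⟨rfl, rfl⟩, ⟨rfl, rfl⟩, ⟨rfl, rfl⟩,
    ⟨rfl, rfl⟩, ⟨rfl, rfl⟩, ⟨rfl, rfl⟩, ⟨rfl, rfl⟩, ⟨rfl, rfl⟩, ⟨rfl, rfl⟩, ⟨rfl, rfl⟩, ⟨rfl,
    rfl⟩, ⟨rfl, rfl⟩, ⟨rfl, rfl⟩, ⟨rfl, rfl⟩, ⟨rfl, rfl⟩, by simp⟩

lemma pos_Bs {X Y : ℝ} (h : Arc X Y) : ∀ b ∈ Bs X Y, 0 < b := by
  obtain ⟨he, hX, hY⟩ := h
  simp only [Bs, List.forall_mem_cons, List.not_mem_nil, false_imp_iff, implies_true, and_true]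
  refine ⟨?_, ?_, ?_, ?_, ?_, ?_, ?_, by norm_num, by norm_num⟩ <;> linarith

lemma val_lt {X Y : ℝ} (h : Arc X Y) {w : Cl} (hw : w.Sum X Y) :
    Real.log (monN w.al (Bs X Y)) < Real.log (monN w.c (Bs X Y)) ∧
      Real.log (monN w.be (Bs X Y)) < Real.log (monN w.c (Bs X Y)) := by
  have hb := pos_Bs h
  have h1 := monN_pos w.al hb
  have h2 := monN_pos w.be hb
  unfold Cl.Sum at hw
  exact ⟨Real.log_lt_log h1 (by linarith), Real.log_lt_log h2 (by linarith)⟩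

lemma pos_al {X Y : ℝ} (h : Arc X Y) {w : Cl} (hw : w.Sum X Y) (hl : w.al.length = w.c.length) :
    0 < lin (sub w.c w.al) ((Bs X Y).map Real.log) := by
  have hb : ∀ b ∈ Bs X Y, b ≠ 0 := fun b hb => (pos_Bs h b hb).ne'
  rw [lin_sub _ _ hl.symm, ← log_monN _ hb, ← log_monN _ hb]
  have := (val_lt h hw).1
  linarith

lemma pos_be {X Y : ℝ} (h : Arc X Y) {w : Cl} (hw : w.Sum X Y) (hl : w.be.length = w.c.length) :
    0 < lin (sub w.c w.be) ((Bs X Y).map Real.log) := by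
  have hb : ∀ b ∈ Bs X Y, b ≠ 0 := fun b hb => (pos_Bs h b hb).ne'
  rw [lin_sub _ _ hl.symm, ← log_monN _ hb, ← log_monN _ hb]
  have := (val_lt h hw).2
  linarith

lemma pos_const {X Y : ℝ} {a b : ℕ} (m n : List ℕ) (e : List ℤ) (he : e = sub m n)
    (hl : m.length = n.length) (hb : ∀ b ∈ Bs X Y, b ≠ 0) (h1 : monN m (Bs X Y) = a)
    (h2 : monN n (Bs X Y) = b) (h : b < a) (h0 : 0 < b) :
    0 < lin e ((Bs X Y).map Real.log) := by
  rw [he, lin_sub _ _ hl, ← log_monN _ hb, ← log_monN _ hb, h1, h2]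
  have h3 : (0 : ℝ) < b := by exact_mod_cast h0
  have h4 : (b : ℝ) < a := by exact_mod_cast h
  have := Real.log_lt_log h3 h4
  linarith

theorem U8_pos {X Y : ℝ} (h : Arc X Y) : ∀ u ∈ U8, 0 < lin u ((Bs X Y).map Real.log) := by
  have hb : ∀ b ∈ Bs X Y, b ≠ 0 := fun b hb => (pos_Bs h b hb).ne'
  have he := h.eq
  simp only [U8, List.forall_mem_cons]
  exact ⟨pos_al (w := w22) h (id22 he) rfl,
    pos_al (w := w28) h (id28 he) rfl,
    pos_al (w := w32) h (id32 he) rfl,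
    pos_be (w := w36) h (id36 he) rfl,
    pos_al (w := w41) h (id41 he) rfl,
    pos_be (w := w43) h (id43 he) rfl,
    pos_al (w := w57) h (id57 he) rfl,
    pos_al (w := w58) h (id58 he) rfl,
    pos_be (w := w59) h (id59 he) rfl,
    pos_be (w := w60) h (id60 he) rfl,
    pos_al (w := w63) h (id63 he) rfl,
    pos_be (w := w65) h (id65 he) rfl,
    pos_al (w := w66) h (id66 he) rfl,
    pos_al (w := w67) h (id67 he) rfl,
    pos_be (w := w68) h (id68 he) rfl, by simp⟩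

/-- the functions of the monotone classes: `f` decreases, `1 - f` increases -/
def Mon (d : List ℝ) (w : Cl) : Prop := lin (sub w.al w.c) d < 0 ∧ 0 < lin (sub w.be w.c) d

lemma inc_al {X Y : ℝ} {d : List ℝ} (h : Arc X Y) {w : Cl} (hw : w.Sum X Y)
    (hl : w.al.length = w.c.length) (hm : Mon d w) :
    0 < lin (sub w.c w.al) ((Bs X Y).map Real.log) ∧ 0 < lin (sub w.c w.al) d := by
  refine ⟨pos_al h hw hl, ?_⟩
  have e : lin (sub w.c w.al) d = -lin (sub w.al w.c) d := by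
    rw [lin_sub _ _ hl, lin_sub _ _ hl.symm]
    ring
  rw [e]
  linarith [hm.1]

lemma dec_be {X Y : ℝ} {d : List ℝ} (h : Arc X Y) {w : Cl} (hw : w.Sum X Y)
    (hl : w.be.length = w.c.length) (hm : Mon d w) :
    0 < lin (sub w.c w.be) ((Bs X Y).map Real.log) ∧ lin (sub w.c w.be) d < 0 := by
  refine ⟨pos_be h hw hl, ?_⟩
  have e : lin (sub w.c w.be) d = -lin (sub w.be w.c) d := by
    rw [lin_sub _ _ hl, lin_sub _ _ hl.symm]
    ring
  rw [e]
  linarith [hm.2]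

lemma lin_rep (d : List ℝ) (n : ℕ) : lin (List.replicate n 0) d = 0 := by
  induction n generalizing d with
  | zero => exact lin_nil d
  | succ n ih =>
    cases d with
    | nil => exact lin_nil' _
    | cons x d => rw [List.replicate_succ, lin_cons, ih, Int.cast_zero, zero_mul, add_zero]

theorem Q8_inc {X Y : ℝ} {d : List ℝ} (h : Arc X Y) (hd : d.length ≤ 7)
    (hm : ∀ w ∈ W8, Mon d w) : ∀ u ∈ Q8, Inc ((Bs X Y).map Real.log) d u := by
  have hb : ∀ b ∈ Bs X Y, b ≠ 0 := fun b hb => (pos_Bs h b hb).ne'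
  have he := h.eq
  have hz : ∀ v : List ℤ, v.take 7 = List.replicate 7 0 → lin v d = 0 := by
    intro v hv
    rw [← lin_take v d 7 hd, hv]
    exact lin_rep d 7
  simp only [Q8, List.forall_mem_cons]
  exact ⟨⟨(inc_al h (id10 he) rfl (hm w10 (by simp [W8]))).1, (inc_al h (id10 he) rfl (hm w10 (by simp [W8]))).2.le⟩,
    ⟨(inc_al h (id22 he) rfl (hm w22 (by simp [W8]))).1, (inc_al h (id22 he) rfl (hm w22 (by simp [W8]))).2.le⟩,
    ⟨(inc_al h (id28 he) rfl (hm w28 (by simp [W8]))).1, (inc_al h (id28 he) rfl (hm w28 (by simp [W8]))).2.le⟩,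
    ⟨(inc_al h (id35 he) rfl (hm w35 (by simp [W8]))).1, (inc_al h (id35 he) rfl (hm w35 (by simp [W8]))).2.le⟩,
    ⟨(inc_al h (id42 he) rfl (hm w42 (by simp [W8]))).1, (inc_al h (id42 he) rfl (hm w42 (by simp [W8]))).2.le⟩,
    ⟨(inc_al h (id58 he) rfl (hm w58 (by simp [W8]))).1, (inc_al h (id58 he) rfl (hm w58 (by simp [W8]))).2.le⟩,
    ⟨(inc_al h (id62 he) rfl (hm w62 (by simp [W8]))).1, (inc_al h (id62 he) rfl (hm w62 (by simp [W8]))).2.le⟩,
    ⟨(inc_al h (id63 he) rfl (hm w63 (by simp [W8]))).1, (inc_al h (id63 he) rfl (hm w63 (by simp [W8]))).2.le⟩,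
    ⟨(inc_al h (id67 he) rfl (hm w67 (by simp [W8]))).1, (inc_al h (id67 he) rfl (hm w67 (by simp [W8]))).2.le⟩,
    ⟨pos_const (a := 9) (b := 8) [0, 0, 0, 0, 0, 0, 0, 0, 2] [0, 0, 0, 0, 0, 0, 0, 3, 0] _ rfl rfl hb
      (by simp only [Bs, monN_cons, monN_nil']; norm_num)
      (by simp only [Bs, monN_cons, monN_nil']; norm_num) (by norm_num) (by norm_num),
      (hz _ rfl).ge⟩,
    ⟨pos_const (a := 4) (b := 3) [0, 0, 0, 0, 0, 0, 0, 2, 0] [0, 0, 0, 0, 0, 0, 0, 0, 1] _ rfl rfl hb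
      (by simp only [Bs, monN_cons, monN_nil']; norm_num)
      (by simp only [Bs, monN_cons, monN_nil']; norm_num) (by norm_num) (by norm_num),
      (hz _ rfl).ge⟩, by simp⟩

theorem P8_dec {X Y : ℝ} {d : List ℝ} (h : Arc X Y) (hd : d.length ≤ 7)
    (hm : ∀ w ∈ W8, Mon d w) : ∀ u ∈ P8, Dec ((Bs X Y).map Real.log) d u := by
  have hb : ∀ b ∈ Bs X Y, b ≠ 0 := fun b hb => (pos_Bs h b hb).ne'
  have he := h.eq
  have hz : ∀ v : List ℤ, v.take 7 = List.replicate 7 0 → lin v d = 0 := by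
    intro v hv
    rw [← lin_take v d 7 hd, hv]
    exact lin_rep d 7
  simp only [P8, List.forall_mem_cons]
  exact ⟨⟨(dec_be h (id11 he) rfl (hm w11 (by simp [W8]))).1, (dec_be h (id11 he) rfl (hm w11 (by simp [W8]))).2.le⟩,
    ⟨(dec_be h (id23 he) rfl (hm w23 (by simp [W8]))).1, (dec_be h (id23 he) rfl (hm w23 (by simp [W8]))).2.le⟩,
    ⟨(dec_be h (id29 he) rfl (hm w29 (by simp [W8]))).1, (dec_be h (id29 he) rfl (hm w29 (by simp [W8]))).2.le⟩,
    ⟨(dec_be h (id36 he) rfl (hm w36 (by simp [W8]))).1, (dec_be h (id36 he) rfl (hm w36 (by simp [W8]))).2.le⟩,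
    ⟨(dec_be h (id43 he) rfl (hm w43 (by simp [W8]))).1, (dec_be h (id43 he) rfl (hm w43 (by simp [W8]))).2.le⟩,
    ⟨(dec_be h (id49 he) rfl (hm w49 (by simp [W8]))).1, (dec_be h (id49 he) rfl (hm w49 (by simp [W8]))).2.le⟩,
    ⟨(dec_be h (id59 he) rfl (hm w59 (by simp [W8]))).1, (dec_be h (id59 he) rfl (hm w59 (by simp [W8]))).2.le⟩,
    ⟨(dec_be h (id60 he) rfl (hm w60 (by simp [W8]))).1, (dec_be h (id60 he) rfl (hm w60 (by simp [W8]))).2.le⟩,
    ⟨(dec_be h (id65 he) rfl (hm w65 (by simp [W8]))).1, (dec_be h (id65 he) rfl (hm w65 (by simp [W8]))).2.le⟩,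
    ⟨(dec_be h (id68 he) rfl (hm w68 (by simp [W8]))).1, (dec_be h (id68 he) rfl (hm w68 (by simp [W8]))).2.le⟩,
    ⟨pos_const (a := 9) (b := 8) [0, 0, 0, 0, 0, 0, 0, 0, 2] [0, 0, 0, 0, 0, 0, 0, 3, 0] _ rfl rfl hb
      (by simp only [Bs, monN_cons, monN_nil']; norm_num)
      (by simp only [Bs, monN_cons, monN_nil']; norm_num) (by norm_num) (by norm_num),
      (hz _ rfl).le⟩,
    ⟨pos_const (a := 4) (b := 3) [0, 0, 0, 0, 0, 0, 0, 2, 0] [0, 0, 0, 0, 0, 0, 0, 0, 1] _ rfl rfl hb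
      (by simp only [Bs, monN_cons, monN_nil']; norm_num)
      (by simp only [Bs, monN_cons, monN_nil']; norm_num) (by norm_num) (by norm_num),
      (hz _ rfl).le⟩, by simp⟩

/-- the first one increases strictly -/
theorem Q8_first {X Y : ℝ} {d : List ℝ} (h : Arc X Y) (hm : ∀ w ∈ W8, Mon d w) :
    0 < lin (Q8.getD 0 []) d :=
  (inc_al h (id10 h.eq) rfl (hm w10 (by simp [W8]))).2

end Pool.Agent.R8d
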