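import Pool.Agent.Lib_helper7.R8d.M
import Pool.Agent.Lib_helper2.K4N.EngR

set_option autoImplicit false
set_option linter.unusedSectionVars false

/-!
The regulator of the class is not zero.
-/

namespace Pool.Agent.R8d

open Filter Topology Pool.Agent.TN Pool.Agent.K4N Pool.Agent.K4N.LA
open scoped TensorProduct

/-- the circle -/
noncomputable def circ8d : Circ ((-1 / 8 : ℚ) : ℝ) ((-1 / 6 : ℚ) : ℝ) (fun _ _ => True) := by
  refine mkCirc _ _ (-3 / 16) (10 / 9) (1 / 12) _ ?_ ?_ ?_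
  · intro x
    push_cast
    ring
  · intro x _
    nlinarith [sq_nonneg (2 * x + 5 / 18)]
  · intro s _ V _
    trivial

variable {k F : Type*} [Field k] [Field F] [Algebra k F] {x y : F}

lemma gen_units [CharZero k] [CharZero F] (h : Gen ((-1 / 8 : ℚ) : k) ((-1 / 6 : ℚ) : k) x y) :
    ∀ e ∈ BsQ, e.ev x y ≠ 0 := by
  have h1 := h.xc_ne (-1 / 8)
  have h2 := h.xc_ne (-1 / 6)
  have h3 := h.xc_ne (-3 / 16)
  have h5 := h.yab_ne (1 / 6) 0
  have h6 := h.yab_ne (1 / 4) 0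
  simp only [map_neg, map_one, map_zero, map_ofNat, map_div₀] at h1 h2 h3 h5 h6
  simp only [BsQ, List.forall_mem_cons, Q2.ev_add, Q2.ev_mul, Q2.ev_c,
    Q2.ev_x, Q2.ev_y, Rat.cast_ofNat]
  have n144 : (144 : F) ≠ 0 := by norm_num
  have n1728 : (1728 : F) ≠ 0 := by norm_num
  refine ⟨mul_ne_zero n144 h.x_ne, fun e => h1 ?_, fun e => h2 ?_, fun e => h3 ?_,
    mul_ne_zero n1728 h.y_ne, fun e => h5 ?_, fun e => h6 ?_,
    two_ne_zero, three_ne_zero, by simp⟩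
  · linear_combination (1 / 144) * e
  · linear_combination (1 / 144) * e
  · linear_combination (1 / 144) * e
  · linear_combination (1 / 1728) * e
  · linear_combination (1 / 1728) * e

lemma gen_Bs [CharZero k] [CharZero F] (h : Gen ((-1 / 8 : ℚ) : k) ((-1 / 6 : ℚ) : k) x y) :
    ∀ b ∈ Bs (144 * x) (1728 * y), b ≠ 0 := by
  rw [← BsQ_ev]
  intro b hb
  obtain ⟨e, he, rfl⟩ := List.mem_map.mp hb
  exact gen_units h e he

lemma gen_curve [CharZero k] [CharZero F] (h : Gen ((-1 / 8 : ℚ) : k) ((-1 / 6 : ℚ) : k) x y) :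
    (1728 * y) ^ 2 + 14 * (144 * x) * (1728 * y) + 216 * (1728 * y) =
      (144 * x) ^ 3 + 18 * (144 * x) ^ 2 := by
  have := h.eq
  simp only [map_ratCast] at this
  push_cast at this
  linear_combination 2985984 * this

lemma gen_ok [CharZero k] [CharZero F] (h : Gen ((-1 / 8 : ℚ) : k) ((-1 / 6 : ℚ) : k) x y)
    (i : Fin 8) : (T8 i).fq.ev x y ≠ 0 ∧ (T8 i).fq.ev x y ≠ 1 ∧ (T8 i).uq.ev x y ≠ 0 := by
  have hB := gen_Bs h
  have hs : ∀ b : Bool, ((if b then -1 else 1) : F) ≠ 0 := by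
    intro b
    cases b <;> simp
  refine ⟨?_, fun h1 => ?_, ?_⟩
  · rw [ev_fq]
    exact mul_ne_zero (hs _) (div_ne_zero (monN_ne _ hB) (monN_ne _ hB))
  · have h2 := ev_fq' (T8 i) x y hB (T8_ok (gen_curve h) i)
    rw [h1, sub_self] at h2
    exact (mul_ne_zero (hs _) (div_ne_zero (monN_ne _ hB) (monN_ne _ hB))) h2.symm
  · rw [ev_uq]
    exact div_ne_zero (monN_ne _ hB) (monN_ne _ hB)

/-- the class -/
noncomputable def xi8d (x y : F) : K4M.HK F :=
  ∑ i : Fin 8 × Fin 8, K4M.hk (K4M.sy ((T8 i.2).fq.ev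
      (It ((-1 / 8 : ℚ) : F) i.1.val (x, y)).1 (It ((-1 / 8 : ℚ) : F) i.1.val (x, y)).2))
    (K4M.lg ((T8 i.2).uq.ev (It ((-1 / 8 : ℚ) : F) i.1.val (x, y)).1
      (It ((-1 / 8 : ℚ) : F) i.1.val (x, y)).2))

/-- the engine -/
theorem rz8d [CharZero k] (φ : k →+* ℝ) (h : Gen ((-1 / 8 : ℚ) : k) ((-1 / 6 : ℚ) : k) x y)
    (htop : IntermediateField.adjoin k {x, y} = ⊤) [CharZero F] :
    RZ φ x y circ8d.X circ8d.Y (xi8d x y) :=
  engT φ (-1 / 8) (-1 / 6) (by norm_num) h htop circ8d (fun i : Fin 8 × Fin 8 => (T8 i.2).fq)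
    (fun i => (T8 i.2).uq) (fun i => i.1.val) BsQ 8
    (fun x' y' hg e he => gen_units hg e he) (fun x' y' hg i => gen_ok hg i.2)
    fun _ _ _ _ hp => total_pos hp

/-- **The regulator is not zero.** -/
theorem regNe_xi8d [CharZero k] (φ : k →+* ℝ)
    (h : Gen ((-1 / 8 : ℚ) : k) ((-1 / 6 : ℚ) : k) x y)
    (htop : IntermediateField.adjoin k {x, y} = ⊤) [CharZero F] :
    FK4.RegNe φ (xi8d x y : MK4.HK F) :=
  (rz8d φ h htop).regNe (Xp_tendsto _) h htop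

end Pool.Agent.R8d
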