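import Pool.Agent.Lib_helper7.R8d.X
import Pool.Agent.Lib_helper7.R8d.GM
import Pool.Agent.Lib_helper54.FAM.T8d
import Pool.Agent.Lib_helper54.FAM.RC11
import Pool.Agent.Lib_helper60.K8d.Cl

set_option autoImplicit false
set_option linter.unusedSectionVars false
set_option maxRecDepth 100000

/-!
The class as a combination of monomials in the generators; it is closed, unramified, and its
regulator is not zero.
-/

open scoped TensorProduct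

namespace Pool.Agent.R8d

open Pool.Agent.MK4 Pool.Agent.TN Pool.Agent.KC72

/-- the scaled units as monomials in the generators -/
def SM : List Mo :=
  [(false, [1, 0, 0, 0, 0, 0, 0, 4, 2]),
   (false, [0, 1, 0, 0, 0, 0, 0, 4, 2]),
   (false, [0, 0, 1, 0, 0, 0, 0, 4, 2]),
   (false, [0, 0, 0, 1, 0, 0, 0, 4, 2]),
   (false, [0, 0, 0, 0, 1, 0, 0, 6, 3]),
   (false, [0, 0, 0, 0, 0, 1, 0, 6, 3]),
   (false, [0, 0, 0, 0, 0, 0, 1, 6, 3]),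
   (false, [0, 0, 0, 0, 0, 0, 0, 1, 0]),
   (false, [0, 0, 0, 0, 0, 0, 0, 0, 1])]

/-- the generators at the translate -/
def TM : List Mo :=
  [(true, [-2, 0, 0, 0, 1, 0, 0, -3, 0]),
   (false, [-2, -1, 0, 0, 1, 1, 0, -3, 0]),
   (false, [-2, 0, -1, 0, 0, 1, 1, -1, -1]),
   (false, [-2, 0, 0, -1, 0, 0, 2, -4, 1]),
   (false, [-3, -1, 0, 0, 1, 1, 0, -6, 0]),
   (true, [-3, -1, -1, 0, 1, 1, 1, -4, -1]),
   (true, [-3, 0, -1, -1, 0, 1, 2, -5, 0]),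
   (false, [0, 0, 0, 0, 0, 0, 0, 1, 0]),
   (false, [0, 0, 0, 0, 0, 0, 0, 0, 1])]

/-- the eight terms -/
def l8 : List (Mo × List ℤ) :=
  [((true, [2, 0, 1, 0, 0, -1, -1, -3, 0]), [56, -68, -32, 0, 0, 0, 0, 0, 0]),
   ((true, [2, 1, 0, 0, -1, -1, 0, -1, 0]), [-4, -12, 0, 0, 0, 0, 0, 0, 0]),
   ((true, [2, 1, 0, 0, -1, -1, 0, 0, -1]), [36, -32, -140, 0, 0, 0, 0, 0, 0]),
   ((true, [4, -1, 2, 1, 0, -2, -2, -3, 0]), [0, -7, 0, 0, 0, 0, 0, 0, 0]),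
   ((true, [0, -1, -1, -1, 0, 1, 1, -3, 0]), [-56, 68, 32, 0, 0, 0, 0, 0, 0]),
   ((true, [-1, -1, -1, 0, 1, 1, 0, -1, 0]), [4, 12, 0, 0, 0, 0, 0, 0, 0]),
   ((true, [-1, -1, -1, 0, 1, 1, 0, 0, -1]), [-36, 32, 140, 0, 0, 0, 0, 0, 0]),
   ((true, [0, -3, -2, -1, 0, 2, 2, -3, 0]), [0, 7, 0, 0, 0, 0, 0, 0, 0])]

/-- the terms over the classes -/
def L8x : List KC72.Tm :=
  [⟨0, 0, [56, -68, -32, 0, 0, 0, 0, 0, 0]⟩,
   ⟨1, 0, [-4, -12, 0, 0, 0, 0, 0, 0, 0]⟩,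
   ⟨3, 0, [36, -32, -140, 0, 0, 0, 0, 0, 0]⟩,
   ⟨56, 0, [0, -7, 0, 0, 0, 0, 0, 0, 0]⟩,
   ⟨22, 4, [-56, 68, 32, 0, 0, 0, 0, 0, 0]⟩,
   ⟨24, 4, [4, 12, 0, 0, 0, 0, 0, 0, 0]⟩,
   ⟨28, 4, [-36, 32, 140, 0, 0, 0, 0, 0, 0]⟩,
   ⟨63, 4, [0, 7, 0, 0, 0, 0, 0, 0, 0]⟩,
   ⟨12, 0, [88, 68, 32, 0, -12, -100, -32, 68, 32]⟩,
   ⟨13, 0, [32, 12, 0, 0, -16, -12, 0, 48, 0]⟩,
   ⟨14, 0, [272, 32, 140, 0, 4, -172, -140, 128, 140]⟩,
   ⟨58, 0, [14, 7, 0, 0, -7, -7, 0, 21, 0]⟩,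
   ⟨36, 4, [-88, -68, -32, 0, 12, 100, 32, -68, -32]⟩,
   ⟨38, 4, [-32, -12, 0, 0, 16, 12, 0, -48, 0]⟩,
   ⟨43, 4, [-272, -32, -140, 0, -4, 172, 140, -128, -140]⟩,
   ⟨65, 4, [-14, -7, 0, 0, 7, 7, 0, -21, 0]⟩,
   ⟨26, 0, [56, 44, 100, 32, 44, -44, -132, 200, 100]⟩,
   ⟨24, 5, [-4, 16, 12, 0, 16, -16, -12, 60, 12]⟩,
   ⟨25, 5, [36, 136, 172, 140, 136, -136, -312, 440, 172]⟩,
   ⟨60, 0, [0, 7, 7, 0, 7, -7, -7, 28, 7]⟩,
   ⟨0, 0, [-56, -44, -100, -32, -44, 44, 132, -200, -100]⟩,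
   ⟨1, 0, [4, -16, -12, 0, -16, 16, 12, -60, -12]⟩,
   ⟨3, 0, [-36, -136, -172, -140, -136, 136, 312, -440, -172]⟩,
   ⟨57, 0, [0, -7, -7, 0, -7, 7, 7, -28, -7]⟩,
   ⟨39, 5, [-68, -44, 76, 100, 100, 12, -144, 244, 76]⟩,
   ⟨38, 5, [-12, -16, 16, 12, 12, 16, -28, 40, 16]⟩,
   ⟨37, 5, [-32, -136, 276, 172, 172, -4, -308, 480, 276]⟩,
   ⟨61, 5, [-7, -7, 7, 7, 7, 7, -14, 21, 7]⟩,
   ⟨12, 0, [68, 44, -76, -100, -100, -12, 144, -244, -76]⟩,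
   ⟨13, 0, [12, 16, -16, -12, -12, -16, 28, -40, -16]⟩,
   ⟨14, 0, [32, 136, -276, -172, -172, 4, 308, -480, -276]⟩,
   ⟨59, 5, [7, 7, -7, -7, -7, -7, 14, -21, -7]⟩,
   ⟨2, 1, [-32, -68, 56, 44, 0, 0, 0, 176, 88]⟩,
   ⟨1, 1, [0, -12, -4, 16, 0, 0, 0, 64, -4]⟩,
   ⟨50, 5, [-140, -32, 36, 136, 0, 0, 0, 544, 176]⟩,
   ⟨63, 5, [0, -7, 0, 7, 0, 0, 0, 28, 0]⟩,
   ⟨26, 0, [32, 68, -56, -44, 0, 0, 0, -176, -88]⟩,
   ⟨24, 5, [0, 12, 4, -16, 0, 0, 0, -64, 4]⟩,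
   ⟨25, 5, [140, 32, -36, -136, 0, 0, 0, -544, -176]⟩,
   ⟨56, 1, [0, 7, 0, -7, 0, 0, 0, -28, 0]⟩,
   ⟨9, 4, [0, 68, -56, -44, -100, -12, 144, 244, 76]⟩,
   ⟨13, 1, [0, 12, 4, -16, -12, -16, 28, 40, 16]⟩,
   ⟨16, 1, [0, 32, -36, -136, -172, 4, 308, 480, 276]⟩,
   ⟨65, 5, [0, 7, 0, -7, -7, -7, 14, 21, 7]⟩,
   ⟨39, 5, [0, -68, 56, 44, 100, 12, -144, -244, -76]⟩,
   ⟨38, 5, [0, -12, -4, 16, 12, 16, -28, -40, -16]⟩,
   ⟨37, 5, [0, -32, 36, 136, 172, -4, -308, -480, -276]⟩,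
   ⟨58, 1, [0, -7, 0, 7, 7, 7, -14, -21, -7]⟩,
   ⟨22, 4, [-32, 44, -76, -100, -44, 44, 132, 200, 100]⟩,
   ⟨24, 4, [0, 16, -16, -12, -16, 16, 12, 60, 12]⟩,
   ⟨28, 4, [-140, 136, -276, -172, -136, 136, 312, 440, 172]⟩,
   ⟨57, 1, [0, 7, -7, -7, -7, 7, 7, 28, 7]⟩,
   ⟨2, 1, [32, -44, 76, 100, 44, -44, -132, -200, -100]⟩,
   ⟨1, 1, [0, -16, 16, 12, 16, -16, -12, -60, -12]⟩,
   ⟨50, 5, [140, -136, 276, 172, 136, -136, -312, -440, -172]⟩,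
   ⟨60, 1, [0, -7, 7, 7, 7, -7, -7, -28, -7]⟩,
   ⟨36, 4, [-68, -44, -100, -32, 12, 100, 32, 68, 32]⟩,
   ⟨38, 4, [-12, -16, -12, 0, 16, 12, 0, 48, 0]⟩,
   ⟨43, 4, [-32, -136, -172, -140, -4, 172, 140, 128, 140]⟩,
   ⟨59, 4, [-7, -7, -7, 0, 7, 7, 0, 21, 0]⟩,
   ⟨9, 4, [68, 44, 100, 32, -12, -100, -32, -68, -32]⟩,
   ⟨13, 1, [12, 16, 12, 0, -16, -12, 0, -48, 0]⟩,
   ⟨16, 1, [32, 136, 172, 140, 4, -172, -140, -128, -140]⟩,
   ⟨61, 4, [7, 7, 7, 0, -7, -7, 0, -21, 0]⟩]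

/-- natural exponents -/
def zl (v : List ℕ) : List ℤ := v.map Int.ofNat

/-- the function of a term as a monomial -/
def TD.mo (t : TD) : Mo :=
  (xor t.e ((prM SM (zl t.al)).div (prM SM (zl t.c))).1, ((prM SM (zl t.al)).div (prM SM (zl t.c))).2)

/-- the unit of a term as a monomial -/
def TD.um (t : TD) : List ℤ := ((prM SM (zl t.ua)).div (prM SM (zl t.uc))).2

theorem l8_eq : l8 = [t0, t1, t2, t3, t4, t5, t6, t7].map fun t => (t.mo, t.um) := by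
  decide +kernel

theorem L8x_eq : (L8x.map fun t => (oo K8d.cls (t.c, t.s), t.u)) = orbM TM 8 l8 := by
  decide +kernel

theorem L8x_ok : okT 9 K8d.cls L8x = true := by decide +kernel

theorem L8x_res : FK4R.chkRes FK4R.locs8d FK4R.tab23 K8d.cls L8x = true := by decide +kernel

section

variable {F : Type*} [Field F] {x y : F}

lemma monN_evl (v : List ℕ) (B : List F) : K4N.LA.monN v B = evl B (zl v) := by
  induction v generalizing B with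
  | nil => simp [zl]
  | cons n v ih =>
    cases B with
    | nil => simp [zl]
    | cons b B =>
      rw [K4N.LA.monN_cons, ih]
      show b ^ n * evl B (zl v) = b ^ (Int.ofNat n) * evl B (zl v)
      rw [Int.ofNat_eq_natCast, zpow_natCast]

lemma Bs_eq [CharZero F] (x y : F) :
    Bs (144 * x) (1728 * y) = SM.map (ev (FK4R.g8d x y)) := by
  simp only [Bs, SM, List.map_cons, List.map_nil, ev, FK4R.g8d, cond_false, evl_cons, zpow_zero,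
    zpow_one, evl_nil_right, one_mul, mul_one]
  refine List.cons_eq_cons.mpr ⟨?_, List.cons_eq_cons.mpr ⟨?_, List.cons_eq_cons.mpr ⟨?_,
    List.cons_eq_cons.mpr ⟨?_, List.cons_eq_cons.mpr ⟨?_, List.cons_eq_cons.mpr ⟨?_,
    List.cons_eq_cons.mpr ⟨?_, rfl⟩⟩⟩⟩⟩⟩⟩ <;>
  · simp only [zpow_ofNat]
    ring

/-- the function of a term -/
lemma fq_mo [CharZero F] (t : TD) (hg : ∀ z ∈ FK4R.g8d x y, z ≠ 0) :
    t.fq.ev x y = ev (FK4R.g8d x y) t.mo := by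
  rw [ev_fq, Bs_eq, monN_evl, monN_evl, ← ev_prM hg, ← ev_prM hg, ← ev_div hg]
  unfold TD.mo
  generalize (prM SM (zl t.al)).div (prM SM (zl t.c)) = m
  unfold ev
  rcases m with ⟨_ | _, m⟩ <;> cases t.e <;> simp

/-- the unit of a term -/
lemma uq_um [CharZero F] (t : TD) (hg : ∀ z ∈ FK4R.g8d x y, z ≠ 0) :
    lg (t.uq.ev x y) = lg (evl (FK4R.g8d x y) t.um) := by
  rw [ev_uq, Bs_eq, monN_evl, monN_evl, ← ev_prM hg, ← ev_prM hg, ← ev_div hg, lg_ev hg,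
    ← lg_evl hg]
  rfl

/-- the terms at one point -/
lemma sum_zs [CharZero F] (hg : ∀ z ∈ FK4R.g8d x y, z ≠ 0) :
    ∑ q : Fin 8, hk (sy ((T8 q).fq.ev x y)) (lg ((T8 q).uq.ev x y)) =
      zs (FK4R.g8d x y) l8 := by
  have e : ∀ q : Fin 8, hk (sy ((T8 q).fq.ev x y)) (lg ((T8 q).uq.ev x y)) =
      hk (sy (ev (FK4R.g8d x y) (T8 q).mo)) (lg (evl (FK4R.g8d x y) (T8 q).um)) := fun q => by
    rw [fq_mo _ hg, uq_um _ hg]
  rw [Finset.sum_congr rfl fun q _ => e q, l8_eq]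
  simp only [Fin.sum_univ_succ, Fin.sum_univ_zero, List.map_cons, List.map_nil, zs]
  rfl

end

section

variable {F : Type*} [Field F] {x y A B C H D E G : F}

lemma q8_list (h : FK4.Q8d x y A B C H D E G) :
    FK4R.g8d x y = [A, B, C, H, D, E, G, 2, 3] := by
  unfold FK4R.g8d
  rw [h.hB, h.hC, h.hH, h.hE, h.hG, h.hA, h.hD]

lemma step_list [CharZero F] {p : F × F} (h : FK4.Q8d p.1 p.2 A B C H D E G) :
    FK4R.g8d (K4N.Tn ((-1 / 8) : F) p).1 (K4N.Tn ((-1 / 8) : F) p).2 =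
      TM.map (ev [A, B, C, H, D, E, G, 2, 3]) := by
  have A0 := h.A0
  have B0 := h.B0
  have C0 := h.C0
  have H0 := h.H0
  have D0 := h.D0
  have E0 := h.E0
  have G0 := h.G0
  rw [q8_list h.step]
  simp only [TM, List.map_cons, List.map_nil, ev, cond_true, cond_false, evl_cons, zpow_zero,
    zpow_one, evl_nil_right, one_mul, mul_one]
  refine List.cons_eq_cons.mpr ⟨?_, List.cons_eq_cons.mpr ⟨?_, List.cons_eq_cons.mpr ⟨?_,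
    List.cons_eq_cons.mpr ⟨?_, List.cons_eq_cons.mpr ⟨?_, List.cons_eq_cons.mpr ⟨?_,
    List.cons_eq_cons.mpr ⟨?_, rfl⟩⟩⟩⟩⟩⟩⟩ <;>
  · simp only [zpow_neg, zpow_ofNat]
    field_simp
    try norm_num

end

section

variable {k F : Type*} [Field k] [Field F] [Algebra k F] {x y : F}

lemma gen_q8 [CharZero k] [CharZero F] (h : Gen ((-1 / 8 : ℚ) : k) ((-1 / 6 : ℚ) : k) x y) :
    FK4.Q8d x y x (x + (1 / 8)) (x + (1 / 6)) (x + (3 / 16)) y (y + (1 / 6) * x)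
      (y + (1 / 4) * x) := by
  have hne := FK4R.g8d_ne h
  have he := h.eq
  simp only [map_ratCast] at he
  push_cast at he
  exact ⟨rfl, rfl, rfl, rfl, rfl, rfl, rfl, hne _ (by simp [FK4R.g8d]),
    hne _ (by simp [FK4R.g8d]), hne _ (by simp [FK4R.g8d]), hne _ (by simp [FK4R.g8d]),
    hne _ (by simp [FK4R.g8d]), hne _ (by simp [FK4R.g8d]), hne _ (by simp [FK4R.g8d]),
    by linear_combination he⟩

/-- **the class as a combination of monomials** -/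
theorem xi8d_eq [CharZero k] [CharZero F]
    (h : Gen ((-1 / 8 : ℚ) : k) ((-1 / 6 : ℚ) : k) x y) :
    (xi8d x y : HK F) = zt (FK4R.g8d x y) K8d.cls L8x := by
  have ebF : ((-1 / 8 : ℚ) : F) = -1 / 8 := by push_cast; rfl
  have hbk : ((-1 / 8 : ℚ) : k) ≠ 0 := by
    have : ((-1 / 8 : ℚ) : k) = -1 / 8 := by push_cast; rfl
    rw [this]
    norm_num
  have hg : ∀ n, Gen ((-1 / 8 : ℚ) : k) ((-1 / 6 : ℚ) : k) (K4N.It (-1 / 8 : F) n (x, y)).1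
      (K4N.It (-1 / 8 : F) n (x, y)).2 := by
    intro n
    have h1 := K4N.gen_It hbk h n
    have e : algebraMap k F ((-1 / 8 : ℚ) : k) = -1 / 8 := by rw [map_ratCast, ebF]
    rw [e] at h1
    exact h1
  set gg : ℕ → List F := fun n => FK4R.g8d (K4N.It (-1 / 8 : F) n (x, y)).1
    (K4N.It (-1 / 8 : F) n (x, y)).2 with hgg
  have hn : ∀ n, ∀ z ∈ gg n, z ≠ 0 := fun n => FK4R.g8d_ne (hg n)
  have hs : ∀ n, gg (n + 1) = TM.map (ev (gg n)) := by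
    intro n
    have h1 := gen_q8 (hg n)
    show FK4R.g8d (K4N.It (-1 / 8 : F) (n + 1) (x, y)).1 (K4N.It (-1 / 8 : F) (n + 1) (x, y)).2 = _
    rw [K4N.It_succ, step_list h1, ← q8_list h1]
  have e1 : (xi8d x y : HK F) = ∑ n : Fin 8, ∑ q : Fin 8,
      hk (sy ((T8 q).fq.ev (K4N.It (-1 / 8 : F) n.val (x, y)).1
        (K4N.It (-1 / 8 : F) n.val (x, y)).2))
        (lg ((T8 q).uq.ev (K4N.It (-1 / 8 : F) n.val (x, y)).1
        (K4N.It (-1 / 8 : F) n.val (x, y)).2)) := by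
    unfold xi8d
    rw [ebF, Fintype.sum_prod_type]
    rfl
  rw [e1, Finset.sum_congr rfl fun n _ => sum_zs (hn n.val), ← Finset.sum_range
    (fun n => zs (gg n) l8), zs_orb TM 8 l8 gg hn hs, zt_zs, L8x_eq]
  rfl

/-- **The regulator of the class is not zero.** -/
theorem regNe_L8x [CharZero k] (φ : k →+* ℝ) (h : Gen (-1 / 8 : k) (-1 / 6) x y)
    (htop : IntermediateField.adjoin k {x, y} = ⊤) :
    FK4.RegNe φ (zt (FK4R.g8d x y) K8d.cls L8x) := by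
  have : CharZero F := charZero_of_injective_algebraMap (algebraMap k F).injective
  have h' : Gen ((-1 / 8 : ℚ) : k) ((-1 / 6 : ℚ) : k) x y := by
    push_cast
    exact h
  rw [← xi8d_eq h']
  exact regNe_xi8d φ h' htop

/-- the class is unramified -/
theorem unram_L8x [CharZero k] (h : Gen (-1 / 8 : k) (-1 / 6) x y) :
    FK4.Unram k (zt (FK4R.g8d x y) K8d.cls L8x) := by
  have : CharZero F := charZero_of_injective_algebraMap (algebraMap k F).injective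
  have h' : Gen ((-1 / 8 : ℚ) : k) ((-1 / 6 : ℚ) : k) x y := by
    push_cast
    exact h
  exact FK4R.unram8d (gen_q8 h').eq (FK4R.g8d_ne h') L8x_res

end

end Pool.Agent.R8d
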