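import Pool.Agent.Lib_helper7.R8d.Xz
import Pool.Agent.Lib_helper7.R8d.KE

set_option autoImplicit false
set_option maxRecDepth 100000

/-!
The class is closed.
-/

namespace Pool.Agent.R8d

open Pool.Agent.KC72

/-- the exponents of `1 - f` -/
def TW : List (List ℤ) :=
  [[0, 0, 1, -1, 0, -1, 1, -3, 2],
   [0, 1, 0, -1, -1, -1, 2, -1, 1],
   [0, 1, -1, 0, -1, 0, 1, 2, -1],
   [0, -3, 4, 2, 2, 0, -4, -3, 2],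
   [0, -1, 1, 0, 0, 1, -1, -3, 2],
   [-1, -1, 1, 1, 1, 1, -2, -1, 1],
   [-1, 0, 0, 1, 1, 0, -1, 2, -1],
   [0, -1, 0, -2, -2, 0, 4, -3, 2],
   [0, 1, -1, 0, -1, 1, 0, -1, 1],
   [0, 1, -1, -1, -1, 1, 1, 0, 1],
   [0, 0, 0, -1, 0, 0, 1, 1, 0],
   [0, 1, 0, 2, -1, -1, 0, 2, 0],
   [0, 0, -1, 1, 0, 0, 0, 0, 0],
   [0, -1, 0, 1, 0, 0, 0, 0, 0],
   [0, -1, 1, 0, 0, 0, 0, 0, 0],
   [0, 3, -4, -2, -3, 1, 4, 0, 0],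
   [0, -1, 0, 0, 1, 0, 0, -1, 1],
   [-1, -1, -1, 0, 1, 1, 0, -1, 0],
   [-1, 0, -1, 0, 0, 1, 0, 0, -1],
   [0, 1, 1, -2, -1, -1, 3, 1, 3],
   [0, 0, 1, -1, 0, -1, 1, -3, 2],
   [0, 1, 0, -1, -1, -1, 2, -1, 1],
   [0, 1, -1, 0, -1, 0, 1, 2, -1],
   [0, -1, -1, -2, 1, 1, 1, -3, 1],
   [-1, 0, 0, 0, 0, 0, 0, -4, 1],
   [0, -1, 0, 0, 0, 0, 0, -4, 0],
   [1, -1, 0, 0, 0, 0, 0, 0, -1],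
   [-3, 1, -3, -1, -1, 3, 2, 0, 1],
   [0, 1, -1, 0, -1, 1, 0, -1, 1],
   [0, 1, -1, -1, -1, 1, 1, 0, 1],
   [0, 0, 0, -1, 0, 0, 1, 1, 0],
   [-1, -1, -1, 1, 1, 1, -2, -6, -1],
   [2, 0, 0, 0, -1, 0, 0, -1, 1],
   [2, 1, 0, 0, -1, -1, 0, -1, 0],
   [0, 1, 0, 0, 0, -1, 0, 0, -1],
   [0, -3, -2, -1, 0, 2, 2, -3, 0],
   [0, -1, 0, 0, 1, 0, 0, -1, 1],
   [-1, -1, -1, 0, 1, 1, 0, -1, 0],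
   [-1, 0, -1, 0, 0, 1, 0, 0, -1],
   [4, -1, 2, 1, 0, -2, -2, -3, 0],
   [-1, 1, 0, 0, 1, -1, 0, -1, 1],
   [0, 1, 1, 0, 1, -1, -1, 0, 1],
   [1, 0, 1, 0, 0, 0, -1, 1, 0],
   [0, 1, -2, -1, -1, -1, 2, -6, -1],
   [-1, 0, 0, 0, 0, 0, 0, -4, 1],
   [0, -1, 0, 0, 0, 0, 0, -4, 0],
   [1, -1, 0, 0, 0, 0, 0, 0, -1],
   [0, 3, 2, 1, 1, -3, -2, 0, 1],
   [0, -1, 1, 0, 0, 1, -1, -3, 2],
   [-1, -1, 1, 1, 1, 1, -2, -1, 1],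
   [-1, 0, 0, 1, 1, 0, -1, 2, -1],
   [4, 1, 1, -1, -1, -1, -1, -3, 1],
   [2, 0, 0, 0, -1, 0, 0, -1, 1],
   [2, 1, 0, 0, -1, -1, 0, -1, 0],
   [0, 1, 0, 0, 0, -1, 0, 0, -1],
   [0, -1, 3, 1, 1, 1, -3, 1, 3],
   [0, 0, -1, 1, 0, 0, 0, 0, 0],
   [0, -1, 0, 1, 0, 0, 0, 0, 0],
   [0, -1, 1, 0, 0, 0, 0, 0, 0],
   [-1, 1, 1, 2, 3, -1, -4, 0, 0],
   [-1, 1, 0, 0, 1, -1, 0, -1, 1],
   [0, 1, 1, 0, 1, -1, -1, 0, 1],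
   [1, 0, 1, 0, 0, 0, -1, 1, 0],
   [-3, -1, -1, 2, 1, 1, 0, 2, 0]]

/-- the exponents of `f` -/
def TO : List (List ℤ) :=
  [[2, 0, 1, 0, 0, -1, -1, -3, 0],
   [2, 1, 0, 0, -1, -1, 0, -1, 0],
   [2, 1, 0, 0, -1, -1, 0, 0, -1],
   [4, -1, 2, 1, 0, -2, -2, -3, 0],
   [0, -1, -1, -1, 0, 1, 1, -3, 0],
   [-1, -1, -1, 0, 1, 1, 0, -1, 0],
   [-1, -1, -1, 0, 1, 1, 0, 0, -1],
   [0, -3, -2, -1, 0, 2, 2, -3, 0],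
   [0, 1, 1, 1, 1, -1, -2, -1, 0],
   [0, 1, 1, 0, 1, -1, -1, 0, 1],
   [0, 1, 1, 0, 1, -1, -1, 1, 0],
   [0, 3, 2, 1, 1, -3, -2, 0, 1],
   [0, 0, -1, 0, 0, 0, 0, -4, -1],
   [0, -1, 0, 0, 0, 0, 0, -4, 0],
   [0, -1, 0, 0, 0, 0, 0, -3, -1],
   [0, 1, -2, -1, -1, -1, 2, -6, -1],
   [0, -1, 2, 1, 1, 0, -2, -1, 1],
   [-1, -1, 1, 1, 1, 1, -2, -1, 1],
   [-1, -1, 1, 1, 1, 1, -2, 0, 0],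
   [0, -1, 3, 1, 1, 1, -3, 1, 3],
   [2, 0, 1, 0, 0, -1, -1, -3, 0],
   [2, 1, 0, 0, -1, -1, 0, -1, 0],
   [2, 1, 0, 0, -1, -1, 0, 0, -1],
   [4, 1, 1, -1, -1, -1, -1, -3, 1],
   [-1, 0, 0, 1, 0, 0, 0, 0, 0],
   [0, -1, 0, 1, 0, 0, 0, 0, 0],
   [0, -1, 0, 1, 0, 0, 0, 1, -1],
   [-3, -1, -1, 2, 1, 1, 0, 2, 0],
   [0, 1, 1, 1, 1, -1, -2, -1, 0],
   [0, 1, 1, 0, 1, -1, -1, 0, 1],
   [0, 1, 1, 0, 1, -1, -1, 1, 0],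
   [-1, 1, 1, 2, 3, -1, -4, 0, 0],
   [0, 0, 0, -1, -1, 0, 2, -1, 1],
   [0, 1, 0, -1, -1, -1, 2, -1, 1],
   [0, 1, 0, -1, -1, -1, 2, 0, 0],
   [0, -1, 0, -2, -2, 0, 4, -3, 2],
   [0, -1, 2, 1, 1, 0, -2, -1, 1],
   [-1, -1, 1, 1, 1, 1, -2, -1, 1],
   [-1, -1, 1, 1, 1, 1, -2, 0, 0],
   [0, -3, 4, 2, 2, 0, -4, -3, 2],
   [-1, 1, -2, -1, -1, 1, 2, -1, 0],
   [0, 1, -1, -1, -1, 1, 1, 0, 1],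
   [0, 1, -1, -1, -1, 1, 1, 1, 0],
   [0, 3, -4, -2, -3, 1, 4, 0, 0],
   [-1, 0, 0, 1, 0, 0, 0, 0, 0],
   [0, -1, 0, 1, 0, 0, 0, 0, 0],
   [0, -1, 0, 1, 0, 0, 0, 1, -1],
   [0, 1, 0, 2, -1, -1, 0, 2, 0],
   [0, -1, -1, -1, 0, 1, 1, -3, 0],
   [-1, -1, -1, 0, 1, 1, 0, -1, 0],
   [-1, -1, -1, 0, 1, 1, 0, 0, -1],
   [0, -1, -1, -2, 1, 1, 1, -3, 1],
   [0, 0, 0, -1, -1, 0, 2, -1, 1],
   [0, 1, 0, -1, -1, -1, 2, -1, 1],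
   [0, 1, 0, -1, -1, -1, 2, 0, 0],
   [0, 1, 1, -2, -1, -1, 3, 1, 3],
   [0, 0, -1, 0, 0, 0, 0, -4, -1],
   [0, -1, 0, 0, 0, 0, 0, -4, 0],
   [0, -1, 0, 0, 0, 0, 0, -3, -1],
   [-1, -1, -1, 1, 1, 1, -2, -6, -1],
   [-1, 1, -2, -1, -1, 1, 2, -1, 0],
   [0, 1, -1, -1, -1, 1, 1, 0, 1],
   [0, 1, -1, -1, -1, 1, 1, 1, 0],
   [-3, 1, -3, -1, -1, 3, 2, 0, 1]]

/-- the exponents of `u` -/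
def TU : List (List ℤ) :=
  [[56, -68, -32, 0, 0, 0, 0, 0, 0],
   [-4, -12, 0, 0, 0, 0, 0, 0, 0],
   [36, -32, -140, 0, 0, 0, 0, 0, 0],
   [0, -7, 0, 0, 0, 0, 0, 0, 0],
   [-56, 68, 32, 0, 0, 0, 0, 0, 0],
   [4, 12, 0, 0, 0, 0, 0, 0, 0],
   [-36, 32, 140, 0, 0, 0, 0, 0, 0],
   [0, 7, 0, 0, 0, 0, 0, 0, 0],
   [88, 68, 32, 0, -12, -100, -32, 68, 32],
   [32, 12, 0, 0, -16, -12, 0, 48, 0],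
   [272, 32, 140, 0, 4, -172, -140, 128, 140],
   [14, 7, 0, 0, -7, -7, 0, 21, 0],
   [-88, -68, -32, 0, 12, 100, 32, -68, -32],
   [-32, -12, 0, 0, 16, 12, 0, -48, 0],
   [-272, -32, -140, 0, -4, 172, 140, -128, -140],
   [-14, -7, 0, 0, 7, 7, 0, -21, 0],
   [56, 44, 100, 32, 44, -44, -132, 200, 100],
   [-4, 16, 12, 0, 16, -16, -12, 60, 12],
   [36, 136, 172, 140, 136, -136, -312, 440, 172],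
   [0, 7, 7, 0, 7, -7, -7, 28, 7],
   [-56, -44, -100, -32, -44, 44, 132, -200, -100],
   [4, -16, -12, 0, -16, 16, 12, -60, -12],
   [-36, -136, -172, -140, -136, 136, 312, -440, -172],
   [0, -7, -7, 0, -7, 7, 7, -28, -7],
   [-68, -44, 76, 100, 100, 12, -144, 244, 76],
   [-12, -16, 16, 12, 12, 16, -28, 40, 16],
   [-32, -136, 276, 172, 172, -4, -308, 480, 276],
   [-7, -7, 7, 7, 7, 7, -14, 21, 7],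
   [68, 44, -76, -100, -100, -12, 144, -244, -76],
   [12, 16, -16, -12, -12, -16, 28, -40, -16],
   [32, 136, -276, -172, -172, 4, 308, -480, -276],
   [7, 7, -7, -7, -7, -7, 14, -21, -7],
   [-32, -68, 56, 44, 0, 0, 0, 176, 88],
   [0, -12, -4, 16, 0, 0, 0, 64, -4],
   [-140, -32, 36, 136, 0, 0, 0, 544, 176],
   [0, -7, 0, 7, 0, 0, 0, 28, 0],
   [32, 68, -56, -44, 0, 0, 0, -176, -88],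
   [0, 12, 4, -16, 0, 0, 0, -64, 4],
   [140, 32, -36, -136, 0, 0, 0, -544, -176],
   [0, 7, 0, -7, 0, 0, 0, -28, 0],
   [0, 68, -56, -44, -100, -12, 144, 244, 76],
   [0, 12, 4, -16, -12, -16, 28, 40, 16],
   [0, 32, -36, -136, -172, 4, 308, 480, 276],
   [0, 7, 0, -7, -7, -7, 14, 21, 7],
   [0, -68, 56, 44, 100, 12, -144, -244, -76],
   [0, -12, -4, 16, 12, 16, -28, -40, -16],
   [0, -32, 36, 136, 172, -4, -308, -480, -276],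
   [0, -7, 0, 7, 7, 7, -14, -21, -7],
   [-32, 44, -76, -100, -44, 44, 132, 200, 100],
   [0, 16, -16, -12, -16, 16, 12, 60, 12],
   [-140, 136, -276, -172, -136, 136, 312, 440, 172],
   [0, 7, -7, -7, -7, 7, 7, 28, 7],
   [32, -44, 76, 100, 44, -44, -132, -200, -100],
   [0, -16, 16, 12, 16, -16, -12, -60, -12],
   [140, -136, 276, 172, 136, -136, -312, -440, -172],
   [0, -7, 7, 7, 7, -7, -7, -28, -7],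
   [-68, -44, -100, -32, 12, 100, 32, 68, 32],
   [-12, -16, -12, 0, 16, 12, 0, 48, 0],
   [-32, -136, -172, -140, -4, 172, 140, 128, 140],
   [-7, -7, -7, 0, 7, 7, 0, 21, 0],
   [68, 44, 100, 32, -12, -100, -32, -68, -32],
   [12, 16, 12, 0, -16, -12, 0, -48, 0],
   [32, 136, 172, 140, 4, -172, -140, -128, -140],
   [7, 7, 7, 0, -7, -7, 0, -21, 0]]

/-- the exponents of `1 - f`, `f`, `u` -/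
def T8x : List (List ℤ × List ℤ × List ℤ) := TW.zip (TO.zip TU)

/-- the columns of the exponents of `u` -/
def UU : List (List ℤ) :=
  [[56, -4, 36, 0, -56, 4, -36, 0, 88, 32, 272, 14, -88, -32, -272, -14, 56, -4, 36, 0, -56, 4, -36,
    0, -68, -12, -32, -7, 68, 12, 32, 7, -32, 0, -140, 0, 32, 0, 140, 0, 0, 0, 0, 0, 0, 0, 0, 0,
    -32, 0, -140, 0, 32, 0, 140, 0, -68, -12, -32, -7, 68, 12, 32, 7],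
   [-68, -12, -32, -7, 68, 12, 32, 7, 68, 12, 32, 7, -68, -12, -32, -7, 44, 16, 136, 7, -44, -16,
    -136, -7, -44, -16, -136, -7, 44, 16, 136, 7, -68, -12, -32, -7, 68, 12, 32, 7, 68, 12, 32,
    7, -68, -12, -32, -7, 44, 16, 136, 7, -44, -16, -136, -7, -44, -16, -136, -7, 44, 16, 136, 7],
   [-32, 0, -140, 0, 32, 0, 140, 0, 32, 0, 140, 0, -32, 0, -140, 0, 100, 12, 172, 7, -100, -12,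
    -172, -7, 76, 16, 276, 7, -76, -16, -276, -7, 56, -4, 36, 0, -56, 4, -36, 0, -56, 4, -36, 0,
    56, -4, 36, 0, -76, -16, -276, -7, 76, 16, 276, 7, -100, -12, -172, -7, 100, 12, 172, 7],
   [0, 0, 0, 0, 0, 0, 0, 0, 0, 0, 0, 0, 0, 0, 0, 0, 32, 0, 140, 0, -32, 0, -140, 0, 100, 12, 172, 7,
    -100, -12, -172, -7, 44, 16, 136, 7, -44, -16, -136, -7, -44, -16, -136, -7, 44, 16, 136, 7,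
    -100, -12, -172, -7, 100, 12, 172, 7, -32, 0, -140, 0, 32, 0, 140, 0],
   [0, 0, 0, 0, 0, 0, 0, 0, -12, -16, 4, -7, 12, 16, -4, 7, 44, 16, 136, 7, -44, -16, -136, -7, 100,
    12, 172, 7, -100, -12, -172, -7, 0, 0, 0, 0, 0, 0, 0, 0, -100, -12, -172, -7, 100, 12, 172,
    7, -44, -16, -136, -7, 44, 16, 136, 7, 12, 16, -4, 7, -12, -16, 4, -7],
   [0, 0, 0, 0, 0, 0, 0, 0, -100, -12, -172, -7, 100, 12, 172, 7, -44, -16, -136, -7, 44, 16, 136,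
    7, 12, 16, -4, 7, -12, -16, 4, -7, 0, 0, 0, 0, 0, 0, 0, 0, -12, -16, 4, -7, 12, 16, -4, 7,
    44, 16, 136, 7, -44, -16, -136, -7, 100, 12, 172, 7, -100, -12, -172, -7],
   [0, 0, 0, 0, 0, 0, 0, 0, -32, 0, -140, 0, 32, 0, 140, 0, -132, -12, -312, -7, 132, 12, 312, 7,
    -144, -28, -308, -14, 144, 28, 308, 14, 0, 0, 0, 0, 0, 0, 0, 0, 144, 28, 308, 14, -144, -28,
    -308, -14, 132, 12, 312, 7, -132, -12, -312, -7, 32, 0, 140, 0, -32, 0, -140, 0],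
   [0, 0, 0, 0, 0, 0, 0, 0, 68, 48, 128, 21, -68, -48, -128, -21, 200, 60, 440, 28, -200, -60, -440,
    -28, 244, 40, 480, 21, -244, -40, -480, -21, 176, 64, 544, 28, -176, -64, -544, -28, 244, 40,
    480, 21, -244, -40, -480, -21, 200, 60, 440, 28, -200, -60, -440, -28, 68, 48, 128, 21, -68,
    -48, -128, -21],
   [0, 0, 0, 0, 0, 0, 0, 0, 32, 0, 140, 0, -32, 0, -140, 0, 100, 12, 172, 7, -100, -12, -172, -7,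
    76, 16, 276, 7, -76, -16, -276, -7, 88, -4, 176, 0, -88, 4, -176, 0, 76, 16, 276, 7, -76,
    -16, -276, -7, 100, 12, 172, 7, -100, -12, -172, -7, 32, 0, 140, 0, -32, 0, -140, 0]]

/-- minors -/
def PQ0 : List (List ℤ) :=
  []

/-- minors -/
def PQ1 : List (List ℤ) :=
  [[0, 2, 2, -12, 0, 0, -1, 0, 0, 0, 0, 0, 0, 0, 0, 0, 0, 0, -1, 0, 0, 2, 2, -4, 0, 0, 1, -6, 0, 0,
    0, 2, 0, -2, 0, 0, 0, 0, -1, 12, 0, 0, -1, 0, 0, 0, 1, 0, 0, 0, -1, 4, 0, -2, 0, 0, 0, 0, 0,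
    -2, 0, 0, -1, 6]]

/-- minors -/
def PQ2 : List (List ℤ) :=
  [[2, 0, -2, 16, 0, -2, -1, 0, 0, 0, 0, 0, 0, 0, 0, 0, 0, 2, 2, 0, 2, 0, -2, -4, 0, 0, 0, 6, 0, 0,
    0, 2, 0, 0, 0, 0, 0, 2, 2, -16, -2, 0, 1, 0, 0, 0, 0, 0, 0, -2, -1, 4, 0, 0, 0, 0, 0, 0, 0,
    -2, -2, 0, 1, -6],
   [0, 0, -1, 2, -2, -2, 0, -2, -2, -2, 0, -2, 0, 0, -1, 2, 2, 2, 1, -4, 0, 0, -1, 0, 0, 0, 0, 4,
    -2, -2, 0, 0, 0, 0, 0, 2, 2, 2, 1, -2, 2, 2, 1, -2, 0, 0, 0, 2, -2, -2, 0, 0, 0, 0, 0, 4, 0,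
    0, -1, 0, 2, 2, 1, -4]]

/-- minors -/
def PQ3 : List (List ℤ) :=
  [[-2, -2, 0, 8, 0, -1, -1, 0, 0, 0, 0, 0, 0, 0, 0, 0, 0, 1, 1, 0, -2, -2, 0, -8, 1, 0, -1, 9, 0,
    0, 0, 1, 2, 2, 0, 0, 0, 1, 1, -8, -1, 0, 1, 0, 1, 0, -1, 0, 0, -1, -1, 8, 2, 2, 0, 0, 0, 0,
    0, -1, -1, 0, 1, -9],
   [0, -1, 0, 1, -1, -1, -1, 5, -1, -1, -1, 5, 0, -1, 0, 1, 1, 1, 0, 1, 0, -1, 0, -3, 0, 1, 1, -1,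
    -1, -1, -1, 3, 0, 1, 1, -5, 1, 1, 0, -1, 1, 1, 0, -1, 0, 1, 1, -5, -1, -1, -1, 3, 0, 1, 1,
    -1, 0, -1, 0, -3, 1, 1, 0, 1],
   [-1, 0, 0, 0, 1, -1, -1, 4, 1, -1, -1, 4, -1, 0, 0, 0, 0, 1, 1, -7, -1, 0, 0, -3, 0, 0, 0, 7, 1,
    -1, -1, 3, 0, 0, 0, -4, 0, 1, 1, 0, 0, 1, 1, 0, 0, 0, 0, -4, 1, -1, -1, 3, 0, 0, 0, 7, -1, 0,
    0, -3, 0, 1, 1, -7]]

/-- minors -/
def PQ4 : List (List ℤ) :=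
  [[0, -2, -2, 8, 0, 0, 0, 0, 0, 0, 0, 0, 0, 0, 0, 0, 0, 0, 1, 0, 0, -2, -2, 4, 0, 0, 0, 6, 0, 0, 0,
    2, 2, 2, 0, 0, 0, 0, 1, -8, -2, 0, 1, 0, 0, 0, 0, 0, 0, 0, 0, -4, 2, 2, 0, 0, 0, 0, 0, -2,
    -2, 0, 1, -6],
   [0, 0, 0, -2, 0, 0, -1, 6, -2, -2, 0, -4, 0, 0, 0, 0, 0, 0, 0, 0, 0, 0, 0, 0, 0, 0, 0, 0, -2, -2,
    0, 4, 0, 0, 1, -6, 0, 0, 0, 2, 2, 2, 0, 0, 0, 0, 0, 4, 0, 0, -1, 0, 0, 0, 1, 0, 0, 0, 0, -4,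
    2, 2, 0, 0],
   [0, 0, -1, 4, 0, -2, -1, 4, 0, 0, 0, -2, 0, 0, 0, 2, 2, 2, 1, -4, 0, 0, -1, 0, 0, 0, 0, 4, 0, 0,
    0, 4, 0, 0, 0, -4, 2, 2, 1, -4, -2, 0, 1, -2, 0, 0, 0, 2, 0, -2, -1, 0, 0, 0, 0, 4, 0, 0, 0,
    -4, -2, 0, 1, -4],
   [0, -1, 0, 2, 0, -1, -1, 2, -1, 1, 1, -3, 0, 0, 0, 1, 1, 1, 0, 1, 0, -1, 0, -3, 0, 0, 0, -1, -1,
    1, 1, -1, 1, 1, 0, -2, 1, 1, 0, -2, -1, -1, 0, -1, 0, 0, 0, 3, 0, -1, -1, 3, 1, 1, 0, -1, 0,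
    0, 0, 1, -1, -1, 0, 1]]

/-- minors -/
def PQ5 : List (List ℤ) :=
  [[-2, -2, 0, 0, 0, 0, 1, 0, 0, 0, 0, 0, 0, 0, 0, 0, 0, 0, 0, 0, -2, -2, 0, 4, 0, 0, 0, -6, 0, 0,
    0, -2, 0, 2, 0, 0, 0, 0, 0, 0, 2, 0, -1, 0, 0, 0, 0, 0, 0, 0, 1, -4, 0, 2, 0, 0, 0, 0, 0, 2,
    2, 0, -1, 6],
   [0, 0, 1, -6, 0, 0, 0, 2, 2, 2, 0, 0, 0, 0, 0, 4, 0, 0, -1, 0, 0, 0, 1, 0, 0, 0, 0, -4, 2, 2, 0,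
    0, 0, 0, 0, -2, 0, 0, -1, 6, -2, -2, 0, -4, 0, 0, 0, 0, 0, 0, 0, 0, 0, 0, 0, 0, 0, 0, 0, 0,
    -2, -2, 0, 4],
   [0, 0, -1, 8, -2, -2, 0, 0, 0, 0, 0, -2, 0, 0, 0, -6, 0, 2, 2, -4, 0, 0, -1, 0, 0, 0, 0, 0, 0, 0,
    0, 0, 0, 0, 0, 0, 0, 2, 2, -8, 2, 0, -1, 6, 0, 0, 0, 2, -2, -2, 0, 0, 0, 0, 0, 4, 0, 0, 0, 0,
    2, 0, -1, 0],
   [-1, -1, 0, 4, -1, -1, -1, 4, 1, -1, -1, 5, 0, 0, 0, -3, 0, 1, 1, 1, -1, -1, 0, -3, 0, 0, 0, 7,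
    1, -1, -1, 3, 0, 1, 1, -4, 0, 1, 1, -4, 1, 1, 0, 3, 0, 0, 0, -5, -1, -1, -1, 3, 0, 1, 1, -1,
    0, 0, 0, -3, 1, 1, 0, -7],
   [0, 0, -1, 4, 0, 0, -1, 4, 0, 0, 0, -4, 0, 0, 0, -4, 0, 0, 1, 0, 0, 0, -1, 0, 0, 0, 0, 4, 0, 0,
    0, 4, 0, 0, 1, -4, 0, 0, 1, -4, 0, 0, 0, 4, 0, 0, 0, 4, 0, 0, -1, 0, 0, 0, 1, 0, 0, 0, 0, -4,
    0, 0, 0, -4]]

/-- minors -/
def PQ6 : List (List ℤ) :=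
  [[2, 4, 2, -16, 0, 2, 1, 0, 0, 0, 0, 0, 0, 0, 0, 0, 0, -2, -2, 0, 2, 4, 2, 4, 0, 0, 0, -6, 0, 0,
    0, -2, -4, -4, 0, 0, 0, -2, -2, 16, 2, 0, -1, 0, 0, 0, 0, 0, 0, 2, 1, -4, -4, -4, 0, 0, 0, 0,
    0, 2, 2, 0, -1, 6],
   [0, 2, 1, -2, 2, 2, 1, -10, 2, 2, 1, 2, 0, 0, 0, -2, -2, -2, 0, 0, 0, 2, 1, 0, 0, 0, 0, -2, 2, 2,
    1, -6, 0, -2, -2, 10, -2, -2, 0, 2, -2, -2, -1, 2, 0, 0, 0, -2, 2, 2, 1, 0, 0, -2, -2, 0, 0,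
    0, 0, 6, -2, -2, -1, 2],
   [2, 0, 0, 0, 0, 2, 1, -8, -2, 0, 1, 0, 0, 0, 0, 0, 0, -2, -2, 12, 2, 0, 0, 0, 0, 0, 0, -2, -2, 0,
    1, -6, 0, 0, 0, 8, 0, -2, -2, 0, 0, 0, 0, 0, 0, 0, 0, 0, 0, 2, 1, 0, 0, 0, 0, -12, 0, 0, 0,
    6, 0, 0, 0, 2],
   [-1, 0, 0, 0, 1, 0, 0, 0, 0, -1, -1, 4, 0, 0, 0, 0, 0, 0, 0, -3, -1, 0, 0, -3, 0, 0, 0, 4, 0, -1,
    -1, 0, 0, 0, 0, 0, 0, 0, 0, 0, 0, 1, 1, 0, 0, 0, 0, -4, 1, 0, 0, 3, 0, 0, 0, 3, 0, 0, 0, 0,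
    0, 1, 1, -4],
   [0, -2, -1, 4, 0, -2, -1, 4, -2, 0, 1, -2, 0, 0, 0, 2, 2, 2, 0, 0, 0, -2, -1, 0, 0, 0, 0, 2, -2,
    0, 1, -2, 2, 2, 0, -4, 2, 2, 0, -4, -2, 0, 1, -2, 0, 0, 0, 2, 0, -2, -1, 0, 2, 2, 0, 0, 0, 0,
    0, 2, -2, 0, 1, -2],
   [-2, -2, -1, 8, -2, -2, -1, 8, 2, 0, -1, -2, 0, 0, 0, -6, 0, 2, 2, 0, -2, -2, -1, 0, 0, 0, 0, 2,
    2, 0, -1, 6, 0, 2, 2, -8, 0, 2, 2, -8, 2, 0, -1, 6, 0, 0, 0, 2, -2, -2, -1, 0, 0, 2, 2, 0, 0,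
    0, 0, -6, 2, 0, -1, -2]]

/-- minors -/
def PQ7 : List (List ℤ) :=
  [[-6, -2, 4, -12, 0, 0, -2, 0, 0, 0, 0, 0, 0, 0, 0, 0, 0, 0, 0, 0, -6, -2, 4, -12, 4, 0, -1, 6, 0,
    0, 0, 6, 2, 2, 0, 0, 0, 0, 0, 12, 0, 0, -1, 0, 4, 0, -1, 0, 0, 0, -2, 12, 2, 2, 0, 0, 0, 0,
    0, -6, 0, 0, -1, -6],
   [0, 0, 2, -6, 0, 0, -2, 6, 0, 0, 1, 6, 0, -4, -3, 18, 0, 0, 0, -2, 0, 0, 2, -6, 0, 4, 1, -2, 0,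
    0, 1, -6, 0, 0, 0, -6, 0, 0, 0, 6, 0, 0, 1, -18, 0, 4, 1, -6, 0, 0, -2, 6, 0, 0, 0, 2, 0, -4,
    -3, 6, 0, 0, 1, 2],
   [0, 0, 0, 6, 6, 2, -2, 6, -2, 0, 1, 4, -4, 0, 3, -24, -2, -2, 0, 2, 0, 0, 0, -6, 0, 0, 0, 6, -2,
    0, 1, -6, 0, 0, 0, -6, -2, -2, 0, -6, 2, 0, -2, 24, 0, 0, 0, -4, 6, 2, -2, 6, 0, 0, 0, -2,
    -4, 0, 3, 6, 2, 0, -2, -6],
   [-3, -1, 0, 3, 3, 1, 0, -3, -1, 0, 1, 2, 4, 4, 0, -12, -1, -1, 0, 3, -3, -1, 0, -3, -4, -4, 0, 2,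
    -1, 0, 1, -12, 1, 1, 0, 3, -1, -1, 0, -3, 1, 0, -1, 12, -4, -4, 0, -2, 3, 1, 0, 3, 1, 1, 0,
    -3, 4, 4, 0, 12, 1, 0, -1, -2],
   [0, 0, -2, 6, 0, 0, 2, -6, -2, 0, 1, 2, 0, 0, 0, -18, 0, 0, 0, 2, 0, 0, -2, 6, 0, 0, 0, 2, -2, 0,
    1, -18, 0, 0, 0, 6, 0, 0, 0, -6, 2, 0, -1, 18, 0, 0, 0, -2, 0, 0, 2, -6, 0, 0, 0, -2, 0, 0,
    0, 18, 2, 0, -1, -2],
   [0, 0, -2, 6, 0, 0, 2, -6, 2, 0, -1, -6, 0, 0, 0, 6, 0, 0, 0, 2, 0, 0, -2, 6, 0, 0, 0, -6, 2, 0,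
    -1, 6, 0, 0, 0, 6, 0, 0, 0, -6, -2, 0, 1, -6, 0, 0, 0, 6, 0, 0, 2, -6, 0, 0, 0, -2, 0, 0, 0,
    -6, -2, 0, 1, 6],
   [6, 2, 0, -6, -6, -2, 0, 6, 2, 0, -2, -4, 0, 0, 0, 24, 2, 2, 0, -6, 6, 2, 0, 6, 0, 0, 0, -4, 2,
    0, -2, 24, -2, -2, 0, -6, 2, 2, 0, 6, -2, 0, 2, -24, 0, 0, 0, 4, -6, -2, 0, -6, -2, -2, 0, 6,
    0, 0, 0, -24, -2, 0, 2, 4]]

/-- minors -/
def PQ8 : List (List ℤ) :=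
  [[4, 2, -2, 8, 0, -1, 0, 0, 0, 0, 0, 0, 0, 0, 0, 0, 0, 1, 1, 0, 4, 2, -2, 4, -1, 0, 1, -3, 0, 0,
    0, 1, -2, -2, 0, 0, 0, 1, 1, -8, -1, 0, 0, 0, -1, 0, 1, 0, 0, -1, 0, -4, -2, -2, 0, 0, 0, 0,
    0, -1, -1, 0, 0, 3],
   [0, 1, 0, -2, -2, -1, 1, -6, 1, 0, 0, -1, 0, 0, -1, 3, 0, 1, 1, -6, 0, 1, 0, 2, 0, 0, 0, -1, 1,
    0, 0, -1, 0, -1, -1, 6, 0, 1, 1, 2, 1, 0, 0, -3, 0, 0, 0, 1, -2, -1, 1, -2, 0, -1, -1, 6, 0,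
    0, -1, 1, 1, 0, 0, 1],
   [2, 0, -1, 4, -2, -1, 1, -4, 1, 2, 0, 0, -1, 0, 1, -4, 2, 1, -1, 6, 2, 0, -1, 2, 0, 0, 0, -1, 1,
    2, 0, -1, 0, 0, 0, 4, 2, 1, -1, -4, -2, -2, 0, 4, 0, 0, 0, 0, -2, -1, 1, -2, 0, 0, 0, -6, -1,
    0, 1, 1, -2, -2, 0, 1],
   [0, 0, 0, 2, -2, 0, 1, -2, 1, 1, 0, -2, 1, 0, 0, -2, 1, 0, -1, 9, 0, 0, 0, 1, 1, 0, -1, 2, 1, 1,
    0, -2, -1, 0, 1, 2, 1, 0, -1, -2, -1, -1, 0, 2, 1, 0, -1, 2, -2, 0, 1, -1, -1, 0, 1, -9, 1,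
    0, 0, 2, -1, -1, 0, -2],
   [0, -1, 0, 0, 0, 1, 0, 0, 1, 2, 0, 1, 0, 0, 0, -3, 0, -1, -1, 6, 0, -1, 0, -2, 0, 0, 0, 1, 1, 2,
    0, -3, 0, 1, 1, 0, 0, -1, -1, 0, -1, -2, 0, 3, 0, 0, 0, -1, 0, 1, 0, 2, 0, 1, 1, -6, 0, 0, 0,
    3, -1, -2, 0, -1],
   [-2, -1, 1, -4, 2, 1, -1, 4, -1, -2, 0, 1, 0, 0, 0, 1, 0, -1, -1, 6, -2, -1, 1, -2, 0, 0, 0, 1,
    -1, -2, 0, 1, 0, 1, 1, -4, 0, -1, -1, 4, 1, 2, 0, -1, 0, 0, 0, -1, 2, 1, -1, 2, 0, 1, 1, -6,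
    0, 0, 0, -1, 1, 2, 0, -1],
   [-2, 0, 1, -4, 2, 0, -1, 4, -2, -2, 0, 0, 0, 0, 0, 4, -2, 0, 2, -18, -2, 0, 1, -2, 0, 0, 0, 0,
    -2, -2, 0, 4, 2, 0, -2, -4, -2, 0, 2, 4, 2, 2, 0, -4, 0, 0, 0, 0, 2, 0, -1, 2, 2, 0, -2, 18,
    0, 0, 0, -4, 2, 2, 0, 0],
   [-6, -1, 2, -6, -6, -1, 2, -6, -1, 0, 0, -2, 0, 0, 0, 0, 0, 1, 0, 0, -6, -1, 2, 0, 0, 0, -1, 2,
    -1, 0, 0, 0, 0, 1, 0, 6, 0, 1, 0, 6, -1, 0, 0, 0, 0, 0, -1, 2, -6, -1, 2, 0, 0, 1, 0, 0, 0,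
    0, 0, 0, -1, 0, 0, -2]]

/-- the minors -/
def PQ : List (List (List ℤ)) := [PQ0, PQ1, PQ2, PQ3, PQ4, PQ5, PQ6, PQ7, PQ8]

theorem T8x_eq : L8x.map (FK4.trt K8d.cls) = T8x := by decide +kernel

theorem UU_eq : (List.range 9).map (uu T8x) = UU := by decide +kernel

theorem PQ0_eq : (List.range 0).map (pw T8x 0) = PQ0 := by decide +kernel

theorem PQ1_eq : (List.range 1).map (pw T8x 1) = PQ1 := by decide +kernel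

theorem PQ2_eq : (List.range 2).map (pw T8x 2) = PQ2 := by decide +kernel

theorem PQ3_eq : (List.range 3).map (pw T8x 3) = PQ3 := by decide +kernel

theorem PQ4_eq : (List.range 4).map (pw T8x 4) = PQ4 := by decide +kernel

theorem PQ5_eq : (List.range 5).map (pw T8x 5) = PQ5 := by decide +kernel

theorem PQ6_eq : (List.range 6).map (pw T8x 6) = PQ6 := by decide +kernel

theorem PQ7_eq : (List.range 7).map (pw T8x 7) = PQ7 := by decide +kernel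

theorem PQ8_eq : (List.range 8).map (pw T8x 8) = PQ8 := by decide +kernel

theorem PQ_eq : ∀ i < 9, (List.range i).map (pw T8x i) = PQ.getD i [] := by
  intro i hi
  match i, hi with
  | 0, _ => exact PQ0_eq
  | 1, _ => exact PQ1_eq
  | 2, _ => exact PQ2_eq
  | 3, _ => exact PQ3_eq
  | 4, _ => exact PQ4_eq
  | 5, _ => exact PQ5_eq
  | 6, _ => exact PQ6_eq
  | 7, _ => exact PQ7_eq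
  | 8, _ => exact PQ8_eq

theorem chk_0 : chk2 PQ UU 0 = true := by decide +kernel

theorem chk_1 : chk2 PQ UU 1 = true := by decide +kernel

theorem chk_2 : chk2 PQ UU 2 = true := by decide +kernel

theorem chk_3 : chk2 PQ UU 3 = true := by decide +kernel

theorem chk_4 : chk2 PQ UU 4 = true := by decide +kernel

theorem chk_5 : chk2 PQ UU 5 = true := by decide +kernel

theorem chk_6 : chk2 PQ UU 6 = true := by decide +kernel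

theorem chk_7 : chk2 PQ UU 7 = true := by decide +kernel

theorem chk_8 : chk2 PQ UU 8 = true := by decide +kernel

/-- **the class is closed** -/
theorem L8x_D : chkD 9 K8d.cls L8x = true := by
  refine FK4.chkD_of T8x_eq fun i hi => chk1_of PQ_eq UU_eq hi ?_
  match i, hi with
  | 0, _ => exact chk_0
  | 1, _ => exact chk_1
  | 2, _ => exact chk_2
  | 3, _ => exact chk_3
  | 4, _ => exact chk_4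
  | 5, _ => exact chk_5
  | 6, _ => exact chk_6
  | 7, _ => exact chk_7
  | 8, _ => exact chk_8

end Pool.Agent.R8d
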